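import Mathlib

set_option autoImplicit false

/-!
Double counting of dyadic sums of points of a symmetric convex body.
-/

namespace Pool.Agent.H815R2.Had

open MeasureTheory

section Count

variable {E : Type*} [AddCommGroup E] [Module ℝ E]

/-- The centre `∑ j, α β^j v (a j)`. -/
noncomputable def ctr {J : Type*} (v : J → E) (α β : ℝ) (k : ℕ) (a : Fin k → J) : E :=
  ∑ j : Fin k, (α * β ^ (j : ℕ)) • v (a j)

theorem ctr_cons {J : Type*} (v : J → E) (α β : ℝ) (k : ℕ) (j : J) (a : Fin k → J) :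
    ctr v α β (k + 1) (Fin.cons j a) = α • v j + β • ctr v α β k a := by
  unfold ctr
  rw [Fin.sum_univ_succ, Finset.smul_sum]
  simp only [Fin.cons_zero, Fin.val_zero, pow_zero, mul_one, Fin.cons_succ, Fin.val_succ]
  congr 1
  refine Finset.sum_congr rfl fun i _ => ?_
  rw [smul_smul]
  congr 1
  ring

theorem ctr_le {J : Type*} (p : Seminorm ℝ E) (v : J → E) (hv : ∀ j, p (v j) ≤ 1)
    (α β : ℝ) (hα : α = 1 - β) (h0 : 0 ≤ β) (h1 : β ≤ 1) (k : ℕ) (a : Fin k → J) :
    p (ctr v α β k a) ≤ 1 - β ^ k := by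
  have hα0 : 0 ≤ α := by rw [hα]; linarith
  calc p (ctr v α β k a) ≤ ∑ j : Fin k, p ((α * β ^ (j : ℕ)) • v (a j)) := by
        unfold ctr
        exact Finset.le_sum_of_subadditive p (map_zero p).le (map_add_le_add p) _ _
    _ ≤ ∑ j : Fin k, α * β ^ (j : ℕ) := by
        refine Finset.sum_le_sum fun j _ => ?_
        rw [map_smul_eq_mul, Real.norm_of_nonneg (by positivity)]
        calc α * β ^ (j : ℕ) * p (v (a j)) ≤ α * β ^ (j : ℕ) * 1 := by
              gcongr
              exact hv _
          _ = _ := mul_one _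
    _ = 1 - β ^ k := by
        rw [Fin.sum_univ_eq_sum_range (fun j => α * β ^ j) k, ← Finset.mul_sum, hα]
        rw [mul_neg_geom_sum]

/-- Number of index tuples whose ball of radius `β^k` around the centre contains `b`. -/
noncomputable def cnt {J : Type*} [Fintype J] (p : Seminorm ℝ E) (v : J → E) (α β : ℝ) (k : ℕ)
    (b : E) : ℝ :=
  open Classical in ∑ a : Fin k → J, if p (b - ctr v α β k a) ≤ β ^ k then 1 else 0

theorem sum_cons {J : Type*} [Fintype J] (k : ℕ) (f : (Fin (k + 1) → J) → ℝ) :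
    ∑ a, f a = ∑ j : J, ∑ a : Fin k → J, f (Fin.cons j a) := by
  rw [← Fintype.sum_prod_type']
  exact (Fintype.sum_equiv (Fin.consEquiv (fun _ => J)) _ _ (fun x => rfl)).symm

theorem cnt_le {J : Type*} [Fintype J] (p : Seminorm ℝ E) (v : J → E) (hv : ∀ j, p (v j) ≤ 1)
    (α β η Q : ℝ) (hα : α = 1 - β) (h0 : 0 < β) (h1 : β ≤ 1) (hη : η = α - β) (hQ0 : 0 ≤ Q)
    (hQ : ∀ y : E, (open Classical in ∑ j : J, if p (v j - y) ≤ 1 - η then (1 : ℝ) else 0) ≤ Q)
    (k : ℕ) (b : E) :
    cnt p v α β k b ≤ Q ^ k ∧ (cnt p v α β k b ≠ 0 → p b ≤ 1) := by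
  classical
  have hα0 : 0 ≤ α := by rw [hα]; linarith
  induction k generalizing b with
  | zero =>
    constructor
    · unfold cnt
      simp only [Finset.univ_unique, Finset.sum_singleton, pow_zero]
      split_ifs <;> norm_num
    · intro h
      unfold cnt at h
      by_contra hb
      apply h
      simp only [Finset.univ_unique, Finset.sum_singleton, pow_zero]
      rw [if_neg]
      simpa [ctr] using hb
  | succ k ih =>
    have key : ∀ (j : J) (a : Fin k → J),
        (p (b - ctr v α β (k + 1) (Fin.cons j a)) ≤ β ^ (k + 1)) ↔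
          p (β⁻¹ • (b - α • v j) - ctr v α β k a) ≤ β ^ k := by
      intro j a
      rw [ctr_cons]
      have : b - (α • v j + β • ctr v α β k a)
          = β • (β⁻¹ • (b - α • v j) - ctr v α β k a) := by
        rw [smul_sub, smul_smul, mul_inv_cancel₀ h0.ne', one_smul]
        abel
      rw [this, map_smul_eq_mul, Real.norm_of_nonneg h0.le, pow_succ']
      exact mul_le_mul_iff_right₀ h0
    have hrec : cnt p v α β (k + 1) b = ∑ j : J, cnt p v α β k (β⁻¹ • (b - α • v j)) := by
      unfold cnt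
      rw [sum_cons]
      refine Finset.sum_congr rfl fun j _ => Finset.sum_congr rfl fun a _ => ?_
      simp only [key]
    have hsmall : ∀ j : J, p (β⁻¹ • (b - α • v j)) ≤ 1 → p (b - α • v j) ≤ β := by
      intro j h
      rw [map_smul_eq_mul, Real.norm_of_nonneg (by positivity)] at h
      rwa [inv_mul_le_iff₀ h0, mul_one] at h
    constructor
    · rw [hrec]
      calc ∑ j : J, cnt p v α β k (β⁻¹ • (b - α • v j))
          ≤ ∑ j : J, (if p (v j - b) ≤ 1 - η then (1 : ℝ) else 0) * Q ^ k := by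
            refine Finset.sum_le_sum fun j _ => ?_
            by_cases hz : cnt p v α β k (β⁻¹ • (b - α • v j)) = 0
            · rw [hz]
              positivity
            · have h2 := hsmall j ((ih _).2 hz)
              have h3 : p (v j - b) ≤ 1 - η := by
                have : v j - b = (1 - α) • v j - (b - α • v j) := by
                  rw [sub_smul, one_smul]; abel
                rw [this]
                calc p ((1 - α) • v j - (b - α • v j))
                    ≤ p ((1 - α) • v j) + p (b - α • v j) := map_sub_le_add _ _ _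
                  _ ≤ (1 - α) * 1 + β := by
                      gcongr
                      rw [map_smul_eq_mul, Real.norm_of_nonneg (by rw [hα]; linarith)]
                      have : 0 ≤ 1 - α := by rw [hα]; linarith
                      gcongr
                      exact hv j
                  _ = 1 - η := by rw [hη]; ring
              rw [if_pos h3, one_mul]
              exact (ih _).1
        _ = (∑ j : J, (if p (v j - b) ≤ 1 - η then (1 : ℝ) else 0)) * Q ^ k := by
            rw [Finset.sum_mul]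
        _ ≤ Q * Q ^ k := by
            gcongr
            exact hQ b
        _ = Q ^ (k + 1) := by ring
    · intro h
      rw [hrec] at h
      obtain ⟨j, _, hj⟩ := Finset.exists_ne_zero_of_sum_ne_zero h
      have h2 := hsmall j ((ih _).2 hj)
      have : b = α • v j + (b - α • v j) := by abel
      rw [this]
      calc p (α • v j + (b - α • v j)) ≤ p (α • v j) + p (b - α • v j) := map_add_le_add _ _ _
        _ ≤ α * 1 + β := by
            gcongr
            rw [map_smul_eq_mul, Real.norm_of_nonneg hα0]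
            gcongr
            exact hv j
        _ = 1 := by rw [hα]; ring

/-- The final count: pairs `(j, a)` such that `y` is in the small ball around
`κ₁ v j + κ₂ ctr a`. -/
theorem cnt_final {J : Type*} [Fintype J] (p : Seminorm ℝ E) (v : J → E) (hv : ∀ j, p (v j) ≤ 1)
    (α β η Q κ₁ κ₂ : ℝ) (hα : α = 1 - β) (h0 : 0 < β) (h1 : β ≤ 1) (hη : η = α - β) (hQ0 : 0 ≤ Q)
    (hκ : κ₁ = κ₂ + η) (hκ2 : 0 < κ₂) (hκ1 : κ₁ ≤ 1)
    (hQ : ∀ y : E, (open Classical in ∑ j : J, if p (v j - y) ≤ 1 - η then (1 : ℝ) else 0) ≤ Q)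
    (k : ℕ) (y : E) :
    (open Classical in ∑ j : J, ∑ a : Fin k → J,
      if p (y - (κ₁ • v j + κ₂ • ctr v α β k a)) ≤ κ₂ * β ^ k then (1 : ℝ) else 0) ≤ Q ^ (k + 1) := by
  classical
  have hrec : ∀ j : J, (∑ a : Fin k → J,
      if p (y - (κ₁ • v j + κ₂ • ctr v α β k a)) ≤ κ₂ * β ^ k then (1 : ℝ) else 0)
      = cnt p v α β k (κ₂⁻¹ • (y - κ₁ • v j)) := by
    intro j
    unfold cnt
    refine Finset.sum_congr rfl fun a _ => ?_
    have : y - (κ₁ • v j + κ₂ • ctr v α β k a)
          = κ₂ • (κ₂⁻¹ • (y - κ₁ • v j) - ctr v α β k a) := by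
      rw [smul_sub, smul_smul, mul_inv_cancel₀ hκ2.ne', one_smul]
      abel
    rw [this, map_smul_eq_mul, Real.norm_of_nonneg hκ2.le]
    simp only [mul_le_mul_iff_right₀ hκ2]
  calc (∑ j : J, ∑ a : Fin k → J,
      if p (y - (κ₁ • v j + κ₂ • ctr v α β k a)) ≤ κ₂ * β ^ k then (1 : ℝ) else 0)
      ≤ ∑ j : J, (if p (v j - y) ≤ 1 - η then (1 : ℝ) else 0) * Q ^ k := by
        refine Finset.sum_le_sum fun j _ => ?_
        rw [hrec]
        have ih := cnt_le p v hv α β η Q hα h0 h1 hη hQ0 hQ k (κ₂⁻¹ • (y - κ₁ • v j))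
        by_cases hz : cnt p v α β k (κ₂⁻¹ • (y - κ₁ • v j)) = 0
        · rw [hz]; positivity
        · have h2 := ih.2 hz
          rw [map_smul_eq_mul, Real.norm_of_nonneg (by positivity), inv_mul_le_iff₀ hκ2,
            mul_one] at h2
          have h3 : p (v j - y) ≤ 1 - η := by
            have : v j - y = (1 - κ₁) • v j - (y - κ₁ • v j) := by
              rw [sub_smul, one_smul]; abel
            rw [this]
            calc p ((1 - κ₁) • v j - (y - κ₁ • v j))
                ≤ p ((1 - κ₁) • v j) + p (y - κ₁ • v j) := map_sub_le_add _ _ _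
              _ ≤ (1 - κ₁) * 1 + κ₂ := by
                  gcongr
                  rw [map_smul_eq_mul, Real.norm_of_nonneg (by linarith)]
                  have : 0 ≤ 1 - κ₁ := by linarith
                  gcongr
                  exact hv j
              _ = 1 - η := by rw [hκ]; ring
          rw [if_pos h3, one_mul]
          exact ih.1
    _ = (∑ j : J, (if p (v j - y) ≤ 1 - η then (1 : ℝ) else 0)) * Q ^ k := by
        rw [Finset.sum_mul]
    _ ≤ Q * Q ^ k := by
        gcongr
        exact hQ y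
    _ = Q ^ (k + 1) := by ring

/-- For a good tuple the whole small ball lies in the unit ball. -/
theorem good_sub {J : Type*} (p : Seminorm ℝ E) (v : J → E) (hv : ∀ j, p (v j) ≤ 1)
    (α β η κ₁ κ₂ ρ : ℝ) (hα : α = 1 - β) (h0 : 0 < β) (h1 : β ≤ 1) (hη0 : 0 ≤ η)
    (hκ : κ₁ = κ₂ + η) (hκ2 : 0 < κ₂) (k : ℕ) (hk : 1 ≤ k)
    (hcond : κ₁ + κ₂ - κ₂ * α * β ^ (k - 1) * (k + 1 - ρ) ≤ 1)
    (j : J) (a : Fin k → J) (hgood : p (v j + ∑ i, v (a i)) ≤ ρ)
    (y : E) (hy : p (y - (κ₁ • v j + κ₂ • ctr v α β k a)) ≤ κ₂ * β ^ k) : p y ≤ 1 := by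
  have hα0 : 0 ≤ α := by rw [hα]; linarith
  set w : ℝ := κ₂ * α * β ^ (k - 1) with hw
  have hw0 : 0 ≤ w := by positivity
  have hwκ : w ≤ κ₁ := by
    have : κ₂ * α * β ^ (k - 1) ≤ κ₂ * 1 * 1 := by
      have hβ' : β ^ (k - 1) ≤ 1 := pow_le_one₀ h0.le h1
      have : α ≤ 1 := by rw [hα]; linarith
      gcongr
    rw [hw]; linarith
  have hwj : ∀ i : Fin k, w ≤ κ₂ * (α * β ^ (i : ℕ)) := by
    intro i
    have : β ^ (k - 1) ≤ β ^ (i : ℕ) := pow_le_pow_of_le_one h0.le h1 (by omega)
    rw [hw, mul_assoc]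
    gcongr
  have hdec : y = w • (v j + ∑ i, v (a i)) + ((κ₁ - w) • v j
      + ∑ i : Fin k, (κ₂ * (α * β ^ (i : ℕ)) - w) • v (a i))
      + (y - (κ₁ • v j + κ₂ • ctr v α β k a)) := by
    have e1 : ∑ i : Fin k, (κ₂ * (α * β ^ (i : ℕ)) - w) • v (a i)
        = κ₂ • ctr v α β k a - w • ∑ i, v (a i) := by
      unfold ctr
      rw [Finset.smul_sum, Finset.smul_sum, ← Finset.sum_sub_distrib]
      refine Finset.sum_congr rfl fun i _ => ?_
      rw [sub_smul, smul_smul]
    rw [e1, sub_smul, smul_add]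
    abel
  rw [hdec]
  have hgeo : ∑ i : Fin k, κ₂ * (α * β ^ (i : ℕ)) = κ₂ * (1 - β ^ k) := by
    rw [Fin.sum_univ_eq_sum_range (fun i => κ₂ * (α * β ^ i)) k, ← Finset.mul_sum,
      ← Finset.mul_sum, hα, mul_neg_geom_sum]
  calc p (w • (v j + ∑ i, v (a i)) + ((κ₁ - w) • v j
      + ∑ i : Fin k, (κ₂ * (α * β ^ (i : ℕ)) - w) • v (a i))
      + (y - (κ₁ • v j + κ₂ • ctr v α β k a)))
      ≤ (p (w • (v j + ∑ i, v (a i))) + (p ((κ₁ - w) • v j)
        + ∑ i : Fin k, p ((κ₂ * (α * β ^ (i : ℕ)) - w) • v (a i))))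
        + p (y - (κ₁ • v j + κ₂ • ctr v α β k a)) := by
        refine (map_add_le_add _ _ _).trans ?_
        gcongr
        refine (map_add_le_add _ _ _).trans ?_
        gcongr
        refine (map_add_le_add _ _ _).trans ?_
        gcongr
        exact Finset.le_sum_of_subadditive p (map_zero p).le (map_add_le_add p) _ _
    _ ≤ (w * ρ + ((κ₁ - w) * 1 + ∑ i : Fin k, (κ₂ * (α * β ^ (i : ℕ)) - w) * 1))
        + κ₂ * β ^ k := by
        gcongr with i hi
        · rw [map_smul_eq_mul, Real.norm_of_nonneg hw0]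
          gcongr
        · rw [map_smul_eq_mul, Real.norm_of_nonneg (by linarith)]
          have : 0 ≤ κ₁ - w := by linarith
          gcongr
          exact hv j
        · have := hwj i
          rw [map_smul_eq_mul, Real.norm_of_nonneg (by linarith)]
          have : 0 ≤ κ₂ * (α * β ^ (i : ℕ)) - w := by linarith
          gcongr
          exact hv _
    _ = κ₁ + κ₂ - w * (k + 1 - ρ) := by
        simp only [mul_one]
        rw [Finset.sum_sub_distrib, hgeo]
        simp only [Finset.sum_const, Finset.card_univ, Fintype.card_fin, nsmul_eq_mul]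
        ring
    _ ≤ 1 := hcond

end Count

end Pool.Agent.H815R2.Had
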