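import Mathlib
import Pool.Agent.H815R2.HadCount

set_option autoImplicit false

/-!
Volume estimates: the key counting inequality.
-/

namespace Pool.Agent.H815R2.Had

open MeasureTheory
open scoped Pointwise

section Vol

variable {E : Type*} [NormedAddCommGroup E] [NormedSpace ℝ E] [FiniteDimensional ℝ E]
  [MeasurableSpace E] [BorelSpace E] (μ : Measure E) [μ.IsAddHaarMeasure]

theorem vol_ball (p : Seminorm ℝ E) (c : E) (r : ℝ) (hr : 0 < r) :
    μ {y | p (y - c) ≤ r} = ENNReal.ofReal (r ^ Module.finrank ℝ E) * μ {y | p y ≤ 1} := by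
  have h1 : {y | p (y - c) ≤ r} = (fun h => h + (-c)) ⁻¹' (r • {y | p y ≤ 1}) := by
    ext y
    simp only [Set.mem_ofPred_eq, Set.mem_preimage, ← sub_eq_add_neg]
    rw [Set.mem_smul_set_iff_inv_smul_mem₀ hr.ne', Set.mem_ofPred_eq, map_smul_eq_mul,
      Real.norm_of_nonneg (by positivity), inv_mul_le_iff₀ hr, mul_one]
  rw [h1, measure_preimage_add_right, Measure.addHaar_smul, abs_of_nonneg (by positivity)]

theorem double_count {T : Type*} [Fintype T] (p : Seminorm ℝ E)
    (hm : MeasurableSet {y : E | p y ≤ 1}) (hcont : Continuous p)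
    (h0 : μ {y : E | p y ≤ 1} ≠ 0) (hfin : μ {y : E | p y ≤ 1} ≠ ⊤)
    (c : T → E) (good : T → Prop) (r B : ℝ) (hr : 0 < r) (hB : 0 ≤ B)
    (hsub : ∀ t, good t → ∀ y, p (y - c t) ≤ r → p y ≤ 1)
    (hcount : ∀ y, (open Classical in ∑ t : T, if p (y - c t) ≤ r then (1 : ℝ) else 0) ≤ B) :
    (open Classical in ((Finset.univ.filter good).card : ℝ)) * r ^ Module.finrank ℝ E ≤ B := by
  classical
  set K : Set E := {y : E | p y ≤ 1} with hK
  set G := Finset.univ.filter good with hG
  have hVm : ∀ t, MeasurableSet {y | p (y - c t) ≤ r} := by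
    intro t
    exact (isClosed_le (hcont.comp (continuous_id.sub continuous_const)) continuous_const).measurableSet
  have e1 : ∑ t ∈ G, μ {y | p (y - c t) ≤ r}
      = (G.card : ENNReal) * (ENNReal.ofReal (r ^ Module.finrank ℝ E) * μ K) := by
    rw [Finset.sum_congr rfl (fun t _ => vol_ball μ p (c t) r hr), Finset.sum_const, nsmul_eq_mul]
  have e2 : ∑ t ∈ G, μ {y | p (y - c t) ≤ r} ≤ ENNReal.ofReal B * μ K := by
    calc ∑ t ∈ G, μ {y | p (y - c t) ≤ r}
        = ∑ t ∈ G, ∫⁻ y in K, ({y | p (y - c t) ≤ r}).indicator 1 y ∂μ := by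
          refine Finset.sum_congr rfl fun t ht => ?_
          have hg : good t := (Finset.mem_filter.mp ht).2
          rw [lintegral_indicator_one (hVm t), Measure.restrict_apply (hVm t)]
          congr 1
          ext y
          simp only [Set.mem_inter_iff, Set.mem_ofPred_eq]
          constructor
          · intro h
            exact ⟨h, hsub t hg y h⟩
          · intro h
            exact h.1
      _ = ∫⁻ y in K, ∑ t ∈ G, ({y | p (y - c t) ≤ r}).indicator 1 y ∂μ := by
          rw [lintegral_finsetSum]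
          intro t _
          exact (measurable_one.indicator (hVm t))
      _ ≤ ∫⁻ y in K, ENNReal.ofReal B ∂μ := by
          refine lintegral_mono fun y => ?_
          have h1 : (∑ t ∈ G, ({y | p (y - c t) ≤ r}).indicator (1 : E → ENNReal) y)
              = ENNReal.ofReal (∑ t ∈ G, if p (y - c t) ≤ r then (1 : ℝ) else 0) := by
            rw [ENNReal.ofReal_sum_of_nonneg]
            · refine Finset.sum_congr rfl fun t _ => ?_
              by_cases h : p (y - c t) ≤ r
              · simp [Set.indicator, h]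
              · simp [Set.indicator, h]
            · intro t _
              split_ifs <;> norm_num
          rw [h1]
          apply ENNReal.ofReal_le_ofReal
          refine le_trans ?_ (hcount y)
          refine Finset.sum_le_univ_sum_of_nonneg fun t => ?_
          split_ifs <;> norm_num
      _ = ENNReal.ofReal B * μ K := by
          rw [setLIntegral_const]
  rw [e1, ← mul_assoc] at e2
  have e3 := (ENNReal.mul_le_mul_iff_left h0 hfin).mp e2
  have e4 : (G.card : ENNReal) * ENNReal.ofReal (r ^ Module.finrank ℝ E)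
      = ENNReal.ofReal ((G.card : ℝ) * r ^ Module.finrank ℝ E) := by
    rw [ENNReal.ofReal_mul (by positivity), ENNReal.ofReal_natCast]
  rw [e4] at e3
  exact (ENNReal.ofReal_le_ofReal_iff hB).mp e3

/-- The key inequality. -/
theorem key_count {ι : Type*} [Fintype ι] (p : Seminorm ℝ E)
    (hcont : Continuous p)
    (h0 : μ {y : E | p y ≤ 1} ≠ 0) (hfin : μ {y : E | p y ≤ 1} ≠ ⊤)
    (u : ι → E) (hu : ∀ i, p (u i) ≤ 1)
    (α β η q κ₁ κ₂ ρ : ℝ) (hα : α = 1 - β) (hβ0 : 0 < β) (hβ1 : β ≤ 1) (hη : η = α - β)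
    (hη0 : 0 ≤ η) (hq0 : 0 ≤ q)
    (hκ : κ₁ = κ₂ + η) (hκ2 : 0 < κ₂) (hκ1 : κ₁ ≤ 1)
    (k : ℕ) (hk : 1 ≤ k)
    (hcond : κ₁ + κ₂ - κ₂ * α * β ^ (k - 1) * (k + 1 - ρ) ≤ 1)
    (H : ∀ x : Fin (k + 1) → E, (∀ i, p (x i) ≤ 1) →
      ∃ s : Fin (k + 1) → ℝ, (∀ i, s i = 1 ∨ s i = -1) ∧ p (∑ i, s i • x i) ≤ ρ)
    (hq : ∀ y : E, (open Classical in ∑ i : ι, if p (u i - y) ≤ 1 - η then (1 : ℝ) else 0) ≤ q) :
    (Fintype.card ι : ℝ) ^ (k + 1) * (κ₂ * β ^ k) ^ Module.finrank ℝ E ≤ (2 * q) ^ (k + 1) := by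
  classical
  let v : ι × Bool → E := fun j => if j.2 then u j.1 else - u j.1
  have hv : ∀ j, p (v j) ≤ 1 := by
    rintro ⟨i, b⟩
    cases b
    · simp only [v, Bool.false_eq_true, if_false, map_neg_eq_map]
      exact hu i
    · simp only [v, if_true]
      exact hu i
  have hQ : ∀ y : E, (∑ j : ι × Bool, if p (v j - y) ≤ 1 - η then (1 : ℝ) else 0) ≤ 2 * q := by
    intro y
    rw [Fintype.sum_prod_type]
    simp only [Fintype.sum_bool, v, if_true, Bool.false_eq_true, if_false]
    rw [Finset.sum_add_distrib, two_mul]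
    have h2 : ∀ i, p (-u i - y) = p (u i - (-y)) := by
      intro i
      rw [← map_neg_eq_map p (-u i - y)]
      congr 1
      abel
    simp only [h2]
    exact add_le_add (hq y) (hq (-y))
  let T := (ι × Bool) × (Fin k → ι × Bool)
  let c : T → E := fun t => κ₁ • v t.1 + κ₂ • ctr v α β k t.2
  let good : T → Prop := fun t => p (v t.1 + ∑ i, v (t.2 i)) ≤ ρ
  have hm : MeasurableSet {y : E | p y ≤ 1} :=
    (isClosed_le hcont continuous_const).measurableSet
  have hdc := double_count (T := T) μ p hm hcont h0 hfin c good (κ₂ * β ^ k) ((2 * q) ^ (k + 1))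
    (by positivity) (by positivity)
    (fun t ht y hy => good_sub p v hv α β η κ₁ κ₂ ρ hα hβ0 hβ1 hη0 hκ hκ2 k hk hcond t.1 t.2 ht y hy)
    (fun y => by
      have := cnt_final p v hv α β η (2 * q) κ₁ κ₂ hα hβ0 hβ1 hη (by positivity) hκ hκ2 hκ1 hQ k y
      rw [Fintype.sum_prod_type]
      exact this)
  refine le_trans ?_ hdc
  gcongr
  -- number of good tuples
  choose! s hs using H
  let F : (Fin (k + 1) → ι) → T := fun f =>
    ((f 0, decide (s (fun i => u (f i)) 0 = 1)),
      fun i => (f i.succ, decide (s (fun i => u (f i)) i.succ = 1)))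
  have hF : Function.Injective F := by
    intro f g hfg
    funext i
    refine Fin.cases ?_ (fun i => ?_) i
    · exact congrArg (fun t : T => t.1.1) hfg
    · exact congrArg (fun t : T => (t.2 i).1) hfg
  have hgood : ∀ f, good (F f) := by
    intro f
    obtain ⟨hs1, hs2⟩ := hs (fun i => u (f i)) (fun i => hu (f i))
    have hvs : ∀ i : Fin (k + 1),
        v (f i, decide (s (fun i => u (f i)) i = 1)) = s (fun i => u (f i)) i • u (f i) := by
      intro i
      rcases hs1 i with h | h
      · simp [v, h]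
      · have : ¬ ((-1 : ℝ) = 1) := by norm_num
        simp [v, h, this]
    show p (v (F f).1 + ∑ i, v ((F f).2 i)) ≤ ρ
    have : v (F f).1 + ∑ i, v ((F f).2 i)
        = ∑ i : Fin (k + 1), s (fun i => u (f i)) i • u (f i) := by
      rw [Fin.sum_univ_succ]
      simp only [F, hvs]
    rw [this]
    exact hs2
  have hcard : Fintype.card (Fin (k + 1) → ι) ≤ (Finset.univ.filter good).card := by
    rw [← Finset.card_univ]
    exact Finset.card_le_card_of_injOn F (fun f _ => by simp [hgood f]) hF.injOn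
  calc (Fintype.card ι : ℝ) ^ (k + 1) = (Fintype.card (Fin (k + 1) → ι) : ℝ) := by
        rw [Fintype.card_fun, Fintype.card_fin]
        push_cast
        rfl
    _ ≤ ((Finset.univ.filter good).card : ℝ) := by exact_mod_cast hcard

end Vol

end Pool.Agent.H815R2.Had
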