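import Mathlib
import Pool.Agent.H815R2.HadVol

set_option autoImplicit false

/-!
Nets, the greedy covering argument, and the covering bound for a seminorm ball.
-/

namespace Pool.Agent.H815R2.Had

open MeasureTheory
open scoped Pointwise

section Net

variable {E : Type*} [NormedAddCommGroup E] [NormedSpace ℝ E] [FiniteDimensional ℝ E]
  [MeasurableSpace E] [BorelSpace E] (μ : Measure E) [μ.IsAddHaarMeasure]

theorem sep_card (p : Seminorm ℝ E) (hcont : Continuous p)
    (h0 : μ {y : E | p y ≤ 1} ≠ 0) (hfin : μ {y : E | p y ≤ 1} ≠ ⊤)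
    (ε : ℝ) (hε : 0 < ε) (S : Finset E) (hS : ∀ s ∈ S, p s ≤ 1)
    (hsep : ∀ s ∈ S, ∀ t ∈ S, s ≠ t → ε < p (s - t)) :
    (S.card : ℝ) ≤ (1 + 2 / ε) ^ Module.finrank ℝ E := by
  classical
  set r : ℝ := (ε / 2) / (1 + ε / 2) with hr
  have hr0 : 0 < r := by positivity
  have hm : MeasurableSet {y : E | p y ≤ 1} :=
    (isClosed_le hcont continuous_const).measurableSet
  have hdc := double_count (T := S) μ p hm hcont h0 hfin
    (fun t => (1 + ε / 2)⁻¹ • (t : E)) (fun _ => True) r 1 hr0 zero_le_one
    (by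
      intro t _ y hy
      have h1 : p ((1 + ε / 2)⁻¹ • (t : E)) ≤ (1 + ε / 2)⁻¹ := by
        rw [map_smul_eq_mul, Real.norm_of_nonneg (by positivity)]
        calc (1 + ε / 2)⁻¹ * p (t : E) ≤ (1 + ε / 2)⁻¹ * 1 := by
              gcongr
              exact hS _ t.2
          _ = _ := mul_one _
      calc p y = p ((1 + ε / 2)⁻¹ • (t : E) + (y - (1 + ε / 2)⁻¹ • (t : E))) := by
            congr 1; abel
        _ ≤ p ((1 + ε / 2)⁻¹ • (t : E)) + p (y - (1 + ε / 2)⁻¹ • (t : E)) := map_add_le_add _ _ _
        _ ≤ (1 + ε / 2)⁻¹ + r := add_le_add h1 hy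
        _ = 1 := by rw [hr]; field_simp)
    (by
      intro y
      by_cases hex : ∃ t : S, p (y - (1 + ε / 2)⁻¹ • (t : E)) ≤ r
      · obtain ⟨t, ht⟩ := hex
        have huniq : ∀ t' : S, p (y - (1 + ε / 2)⁻¹ • (t' : E)) ≤ r → t' = t := by
          intro t' ht'
          by_contra hne
          have hne' : (t' : E) ≠ t := fun h => hne (Subtype.ext h)
          have hlt := hsep _ t'.2 _ t.2 hne'
          have : p ((1 + ε / 2)⁻¹ • ((t' : E) - t)) ≤ r + r := by
            have e : (1 + ε / 2)⁻¹ • ((t' : E) - t)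
                = (y - (1 + ε / 2)⁻¹ • (t : E)) - (y - (1 + ε / 2)⁻¹ • (t' : E)) := by
              rw [smul_sub]; abel
            rw [e]
            exact (map_sub_le_add _ _ _).trans (add_le_add ht ht')
          rw [map_smul_eq_mul, Real.norm_of_nonneg (by positivity), inv_mul_le_iff₀ (by positivity)]
            at this
          have h3 : (1 + ε / 2) * (r + r) = ε := by
            rw [hr]; field_simp; ring
          rw [h3] at this
          linarith
        rw [Finset.sum_eq_single t]
        · split_ifs <;> norm_num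
        · intro b _ hb
          rw [if_neg]
          intro h
          exact hb (huniq b h)
        · intro h
          exact absurd (Finset.mem_univ t) h
      · push Not at hex
        rw [Finset.sum_eq_zero]
        · norm_num
        · intro t _
          rw [if_neg (not_le.mpr (hex t))])
  have hinv : (1 + 2 / ε) = r⁻¹ := by
    rw [hr]; field_simp; ring
  rw [hinv, inv_pow, ← one_div, le_div_iff₀ (by positivity)]
  simpa using hdc

theorem exists_net (p : Seminorm ℝ E) (hcont : Continuous p)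
    (h0 : μ {y : E | p y ≤ 1} ≠ 0) (hfin : μ {y : E | p y ≤ 1} ≠ ⊤)
    (ε : ℝ) (hε : 0 < ε) :
    ∃ S : Finset E, (∀ s ∈ S, p s ≤ 1) ∧ (∀ x, p x ≤ 1 → ∃ s ∈ S, p (x - s) ≤ ε) ∧
      (S.card : ℝ) ≤ (1 + 2 / ε) ^ Module.finrank ℝ E := by
  classical
  let P : Finset E → Prop := fun S => (∀ s ∈ S, p s ≤ 1) ∧
    (∀ s ∈ S, ∀ t ∈ S, s ≠ t → ε < p (s - t))
  have hbdd : ∀ S, P S → S.card ≤ ⌊(1 + 2 / ε) ^ Module.finrank ℝ E⌋₊ := by
    intro S hS
    exact Nat.le_floor (sep_card μ p hcont h0 hfin ε hε S hS.1 hS.2)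
  let A : Set ℕ := {n | ∃ S, P S ∧ S.card = n}
  have hAne : A.Nonempty := ⟨0, ∅, ⟨by simp, by simp⟩, rfl⟩
  have hAb : BddAbove A := by
    refine ⟨⌊(1 + 2 / ε) ^ Module.finrank ℝ E⌋₊, ?_⟩
    rintro n ⟨S, hS, rfl⟩
    exact hbdd S hS
  obtain ⟨S, hS, hcard⟩ := Nat.sSup_mem hAne hAb
  refine ⟨S, hS.1, ?_, sep_card μ p hcont h0 hfin ε hε S hS.1 hS.2⟩
  intro x hx
  by_contra hcon
  push Not at hcon
  have hxS : x ∉ S := by
    intro h
    have := hcon x h
    rw [sub_self, map_zero] at this
    linarith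
  have hP : P (insert x S) := by
    constructor
    · intro s hs
      rcases Finset.mem_insert.mp hs with rfl | hs
      · exact hx
      · exact hS.1 s hs
    · intro s hs t ht hne
      rcases Finset.mem_insert.mp hs with h1 | hs <;> rcases Finset.mem_insert.mp ht with h2 | ht
      · exact absurd (h1.trans h2.symm) hne
      · rw [h1]; exact hcon t ht
      · rw [h2, ← map_neg_eq_map p, neg_sub]
        exact hcon s hs
      · exact hS.2 s hs t ht hne
  have hle : (insert x S).card ≤ sSup A := le_csSup hAb ⟨_, hP, rfl⟩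
  rw [Finset.card_insert_of_notMem hxS] at hle
  omega

end Net

/-- Greedy covering. -/
theorem greedy {S E : Type*} [Fintype S] (R : E → S → Prop) (θ : ℝ) (hθ1 : θ ≤ 1)
    (h : ∀ A : Finset S, A.Nonempty →
      ∃ y, θ * A.card ≤ (open Classical in ((A.filter (R y)).card : ℝ)))
    (k : ℕ) :
    ∃ Y : Finset E, Y.card ≤ k ∧
      (open Classical in ((Finset.univ.filter (fun s => ∀ y ∈ Y, ¬ R y s)).card : ℝ))
        ≤ (1 - θ) ^ k * Fintype.card S := by
  classical
  induction k with
  | zero =>
    refine ⟨∅, by simp, ?_⟩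
    simp
  | succ k ih =>
    obtain ⟨Y, hY, hc⟩ := ih
    set A := Finset.univ.filter (fun s => ∀ y ∈ Y, ¬ R y s) with hA
    have hθ : 0 ≤ 1 - θ := by linarith
    by_cases hne : A.Nonempty
    · obtain ⟨y, hy⟩ := h A hne
      refine ⟨insert y Y, (Finset.card_insert_le _ _).trans (by omega), ?_⟩
      have hsub : (Finset.univ.filter (fun s => ∀ z ∈ insert y Y, ¬ R z s))
          = A \ A.filter (R y) := by
        ext s
        simp only [Finset.mem_filter, Finset.mem_univ, true_and, Finset.mem_insert,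
          Finset.mem_sdiff, hA]
        constructor
        · intro hs
          refine ⟨fun z hz => hs z (Or.inr hz), fun hcon => hs y (Or.inl rfl) hcon.2⟩
        · rintro ⟨h1, h2⟩ z hz
          rcases hz with rfl | hz
          · intro hR
            exact h2 ⟨h1, hR⟩
          · exact h1 z hz
      have hcard : ((A \ A.filter (R y)).card : ℝ) = A.card - (A.filter (R y)).card := by
        rw [Finset.card_sdiff_of_subset (Finset.filter_subset _ _),
          Nat.cast_sub (Finset.card_le_card (Finset.filter_subset _ _))]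
      have hfin : ((Finset.univ.filter (fun s => ∀ z ∈ insert y Y, ¬ R z s)).card : ℝ)
          ≤ (1 - θ) ^ (k + 1) * Fintype.card S := by
        rw [hsub, hcard]
        calc (A.card : ℝ) - (A.filter (R y)).card ≤ (1 - θ) * A.card := by linarith
          _ ≤ (1 - θ) * ((1 - θ) ^ k * Fintype.card S) := by gcongr
          _ = _ := by ring
      convert hfin using 3
    · refine ⟨Y, by omega, ?_⟩
      rw [Finset.not_nonempty_iff_eq_empty] at hne
      have : ((Finset.univ.filter (fun s => ∀ y ∈ Y, ¬ R y s)).card : ℝ) = 0 := by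
        rw [← hA, hne]; simp
      rw [this]
      positivity

/-- Greedy covering, final form. -/
theorem greedy_cover {S E : Type*} [Fintype S] (R : E → S → Prop) (θ : ℝ) (hθ0 : 0 < θ)
    (hθ1 : θ ≤ 1)
    (h : ∀ A : Finset S, A.Nonempty →
      ∃ y, θ * A.card ≤ (open Classical in ((A.filter (R y)).card : ℝ)))
    (M : ℝ) (hM : (Fintype.card S : ℝ) ≤ M) (hM1 : 1 ≤ M) :
    ∃ Y : Finset E, (Y.card : ℝ) ≤ Real.log M / θ + 1 ∧ ∀ s, ∃ y ∈ Y, R y s := by
  classical
  set k : ℕ := ⌊Real.log M / θ⌋₊ + 1 with hk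
  obtain ⟨Y, hY, hc⟩ := greedy R θ hθ1 h k
  have hlog : 0 ≤ Real.log M := Real.log_nonneg hM1
  have hkgt : Real.log M / θ < k := by
    rw [hk]; push_cast
    exact Nat.lt_floor_add_one _
  refine ⟨Y, ?_, ?_⟩
  · calc (Y.card : ℝ) ≤ k := by exact_mod_cast hY
      _ = ⌊Real.log M / θ⌋₊ + 1 := by rw [hk]; push_cast; rfl
      _ ≤ Real.log M / θ + 1 := by
          gcongr
          exact Nat.floor_le (by positivity)
  · have hlt : (1 - θ) ^ k * Fintype.card S < 1 := by
      have h1 : (1 - θ) ^ k ≤ Real.exp (-θ * k) := by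
        have : 1 - θ ≤ Real.exp (-θ) := by
          have := Real.add_one_le_exp (-θ)
          linarith
        calc (1 - θ) ^ k ≤ (Real.exp (-θ)) ^ k := by
              gcongr
          _ = Real.exp (-θ * k) := by
              rw [← Real.exp_nat_mul]; ring_nf
      have h2 : Real.exp (-θ * k) < M⁻¹ := by
        rw [← Real.exp_log (show 0 < M⁻¹ by positivity), Real.exp_lt_exp, Real.log_inv]
        rw [div_lt_iff₀ hθ0] at hkgt
        linarith
      calc (1 - θ) ^ k * Fintype.card S ≤ (1 - θ) ^ k * M := by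
            have : 0 ≤ (1 - θ) ^ k := pow_nonneg (by linarith) _
            gcongr
        _ ≤ Real.exp (-θ * k) * M := by gcongr
        _ < M⁻¹ * M := by gcongr
        _ = 1 := inv_mul_cancel₀ (by positivity)
    have h0 : (Finset.univ.filter (fun s => ∀ y ∈ Y, ¬ R y s)).card = 0 := by
      have hc' : ((Finset.univ.filter (fun s => ∀ y ∈ Y, ¬ R y s)).card : ℝ) < 1 := by
        refine lt_of_le_of_lt ?_ hlt
        convert hc using 3
      have : (Finset.univ.filter (fun s => ∀ y ∈ Y, ¬ R y s)).card < 1 := by exact_mod_cast hc'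
      omega
    intro s
    by_contra hcon
    push Not at hcon
    have : s ∈ Finset.univ.filter (fun s => ∀ y ∈ Y, ¬ R y s) := by
      simp only [Finset.mem_filter, Finset.mem_univ, true_and]
      exact hcon
    rw [Finset.card_eq_zero] at h0
    rw [h0] at this
    simp at this

end Pool.Agent.H815R2.Had
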