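import Mathlib
import Pool.Agent.Helper392.Mey.PL

set_option autoImplicit false

/-!
Exponential tails of linear functionals on a symmetric convex body (from Brunn-Minkowski).
-/

namespace Pool.Agent.H815R2.Flat

open MeasureTheory Set
open scoped ENNReal Pointwise

/-- Brunn–Minkowski, midpoint form -/
theorem bm_E {n : ℕ} {A B C : Set (EuclideanSpace ℝ (Fin n))} (hA : MeasurableSet A)
    (hB : MeasurableSet B)
    (hC : MeasurableSet C) (H : ∀ a ∈ A, ∀ b ∈ B, (1 / 2 : ℝ) • (a + b) ∈ C) :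
    volume A * volume B ≤ volume C ^ 2 := by
  have hmp := (EuclideanSpace.volume_preserving_symm_measurableEquiv_toLp (Fin n)).symm
  rw [← hmp.measure_preimage hA.nullMeasurableSet, ← hmp.measure_preimage hB.nullMeasurableSet,
    ← hmp.measure_preimage hC.nullMeasurableSet]
  refine Pool.Agent.Helper392.Mey.PL.bm_pi (hmp.measurable hA) (hmp.measurable hB)
    (hmp.measurable hC) ?_
  intro a ha b hb
  have := H _ ha _ hb
  rw [mem_preimage]
  convert this using 1
  ext i
  simp
  ring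

variable {d : ℕ}

/-- log-concavity of tails gives geometric decay -/
theorem geom (a : ℕ → ℝ) (ha : ∀ k, 0 ≤ a k) (hmono : ∀ k, a (k + 1) ≤ a k)
    (hlc : ∀ k, a k * a (k + 2) ≤ a (k + 1) ^ 2) (h1 : a 1 ≤ a 0 / 4) (k : ℕ) :
    a (k + 1) ≤ a k / 4 := by
  induction k with
  | zero => exact h1
  | succ k ih =>
    rcases (ha k).eq_or_lt with h0 | h0
    · have e1 : a (k + 1) = 0 := le_antisymm (by rw [h0]; exact hmono k) (ha _)
      have e2 : a (k + 1 + 1) = 0 := le_antisymm (by rw [← e1]; exact hmono _) (ha _)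
      rw [e1, e2]; norm_num
    · have h2 := hlc k
      have h3 : a (k + 1) ^ 2 ≤ a (k + 1) * (a k / 4) := by
        rw [sq]
        exact mul_le_mul_of_nonneg_left ih (ha _)
      have h4 : a k * a (k + 2) ≤ a k * (a (k + 1) / 4) := by
        calc a k * a (k + 2) ≤ a (k + 1) * (a k / 4) := h2.trans h3
          _ = a k * (a (k + 1) / 4) := by ring
      exact le_of_mul_le_mul_left h4 h0

theorem tail (p : Seminorm ℝ (EuclideanSpace ℝ (Fin d))) (hcont : Continuous p)
    (hfin : volume {y : EuclideanSpace ℝ (Fin d) | p y ≤ 1} ≠ ⊤)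
    (φ : EuclideanSpace ℝ (Fin d) →L[ℝ] ℝ) (s : ℝ) (hs : 0 < s)
    (hφ : ∫⁻ z in {y : EuclideanSpace ℝ (Fin d) | p y ≤ 1}, ENNReal.ofReal |φ z|
      ≤ ENNReal.ofReal s * volume {y : EuclideanSpace ℝ (Fin d) | p y ≤ 1}) (k : ℕ) :
    volume {z : EuclideanSpace ℝ (Fin d) | p z ≤ 1 ∧ 4 * s * k ≤ |φ z|}
      ≤ (4⁻¹ : ℝ≥0∞) ^ k * volume {y : EuclideanSpace ℝ (Fin d) | p y ≤ 1} := by
  set K : Set (EuclideanSpace ℝ (Fin d)) := {y | p y ≤ 1} with hK
  have hKm : MeasurableSet K := (isClosed_le hcont continuous_const).measurableSet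
  set S : ℕ → Set (EuclideanSpace ℝ (Fin d)) := fun k => {z | p z ≤ 1 ∧ 4 * s * k ≤ φ z} with hS
  have hSm : ∀ k, MeasurableSet (S k) := fun k =>
    ((isClosed_le hcont continuous_const).inter
      (isClosed_le continuous_const φ.continuous)).measurableSet
  have hSK : ∀ k, S k ⊆ K := fun k z hz => hz.1
  have hSfin : ∀ k, volume (S k) ≠ ⊤ := fun k => ne_top_of_le_ne_top hfin (measure_mono (hSK k))
  -- reflection
  have hneg : ∀ k : ℕ, volume {z : EuclideanSpace ℝ (Fin d) | p z ≤ 1 ∧ 4 * s * k ≤ - φ z}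
      = volume (S k) := by
    intro k
    rw [← Measure.measure_neg volume (S k)]
    congr 1
    ext z
    simp only [hS, Set.mem_neg, mem_ofPred_eq, map_neg_eq_map, map_neg]
  have htwo : ∀ k : ℕ, volume {z : EuclideanSpace ℝ (Fin d) | p z ≤ 1 ∧ 4 * s * k ≤ |φ z|}
      ≤ 2 * volume (S k) := by
    intro k
    have hsub : {z : EuclideanSpace ℝ (Fin d) | p z ≤ 1 ∧ 4 * s * k ≤ |φ z|}
        ⊆ S k ∪ {z | p z ≤ 1 ∧ 4 * s * k ≤ - φ z} := by
      rintro z ⟨h1, h2⟩
      rcases le_abs.mp h2 with h | h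
      · exact Or.inl ⟨h1, h⟩
      · exact Or.inr ⟨h1, h⟩
    calc _ ≤ _ := measure_mono hsub
      _ ≤ _ := measure_union_le _ _
      _ = 2 * volume (S k) := by rw [hneg, two_mul]
  -- half
  have hhalf : volume K ≤ 2 * volume (S 0) := by
    refine le_trans (measure_mono ?_) (htwo 0)
    intro z hz
    refine ⟨hz, ?_⟩
    simp
  -- Markov
  have hmark : 8 * volume (S 1) ≤ volume K := by
    have hdisj : Disjoint (S 1) {z | p z ≤ 1 ∧ 4 * s * (1 : ℕ) ≤ - φ z} := by
      rw [Set.disjoint_left]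
      rintro z ⟨_, h1⟩ ⟨_, h2⟩
      push_cast at h1 h2
      linarith
    have hm2 : MeasurableSet {z : EuclideanSpace ℝ (Fin d) | p z ≤ 1 ∧ 4 * s * (1 : ℕ) ≤ - φ z} :=
      ((isClosed_le hcont continuous_const).inter
        (isClosed_le continuous_const φ.continuous.neg)).measurableSet
    have h1 : volume (S 1 ∪ {z | p z ≤ 1 ∧ 4 * s * (1 : ℕ) ≤ - φ z}) = 2 * volume (S 1) := by
      rw [measure_union hdisj hm2, hneg, two_mul]
    have h2 : ENNReal.ofReal (4 * s) * volume (S 1 ∪ {z | p z ≤ 1 ∧ 4 * s * (1 : ℕ) ≤ - φ z})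
        ≤ ENNReal.ofReal s * volume K := by
      refine le_trans ?_ hφ
      rw [← setLIntegral_const]
      calc ∫⁻ _ in (S 1 ∪ {z | p z ≤ 1 ∧ 4 * s * (1 : ℕ) ≤ - φ z}), ENNReal.ofReal (4 * s)
          ≤ ∫⁻ z in (S 1 ∪ {z | p z ≤ 1 ∧ 4 * s * (1 : ℕ) ≤ - φ z}), ENNReal.ofReal |φ z| := by
            refine setLIntegral_mono' ((hSm 1).union hm2) ?_
            rintro z (⟨_, h⟩ | ⟨_, h⟩)
            · apply ENNReal.ofReal_le_ofReal
              push_cast at h
              exact le_trans (by linarith) (le_abs_self _)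
            · apply ENNReal.ofReal_le_ofReal
              push_cast at h
              exact le_trans (by linarith) (neg_le_abs _)
        _ ≤ ∫⁻ z in K, ENNReal.ofReal |φ z| := by
            refine lintegral_mono_set ?_
            rintro z (⟨h, _⟩ | ⟨h, _⟩) <;> exact h
    rw [h1] at h2
    have h3 : ENNReal.ofReal (4 * s) = ENNReal.ofReal s * 4 := by
      rw [mul_comm, ENNReal.ofReal_mul hs.le]
      norm_num
    rw [h3, mul_assoc] at h2
    have h4 := (ENNReal.mul_le_mul_iff_right (ENNReal.ofReal_pos.mpr hs).ne'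
      ENNReal.ofReal_ne_top).mp h2
    refine le_trans (le_of_eq ?_) h4
    rw [← mul_assoc]
    norm_num
  -- real sequence
  set a : ℕ → ℝ := fun k => (volume (S k)).toReal with ha
  have ha0 : ∀ k, 0 ≤ a k := fun k => ENNReal.toReal_nonneg
  have hmono : ∀ k, a (k + 1) ≤ a k := by
    intro k
    refine ENNReal.toReal_mono (hSfin k) (measure_mono ?_)
    rintro z ⟨h1, h2⟩
    refine ⟨h1, le_trans ?_ h2⟩
    push_cast
    nlinarith
  have hlc : ∀ k, a k * a (k + 2) ≤ a (k + 1) ^ 2 := by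
    intro k
    have := bm_E (hSm k) (hSm (k + 2)) (hSm (k + 1)) (by
      rintro x ⟨hx1, hx2⟩ y ⟨hy1, hy2⟩
      constructor
      · rw [map_smul_eq_mul]
        have := map_add_le_add p x y
        have h3 : ‖(1 / 2 : ℝ)‖ = 1 / 2 := by norm_num
        rw [h3]
        linarith
      · rw [map_smul, map_add, smul_eq_mul]
        push_cast at hx2 hy2 ⊢
        linarith)
    have h2 := ENNReal.toReal_mono (by
      exact ENNReal.pow_ne_top (hSfin _)) this
    rwa [ENNReal.toReal_mul, ENNReal.toReal_pow] at h2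
  have h1 : a 1 ≤ a 0 / 4 := by
    have e1 : 8 * a 1 ≤ (volume K).toReal := by
      have := ENNReal.toReal_mono hfin hmark
      rw [ENNReal.toReal_mul] at this
      simpa using this
    have e2 : (volume K).toReal ≤ 2 * a 0 := by
      have := ENNReal.toReal_mono (ENNReal.mul_ne_top (by norm_num) (hSfin 0)) hhalf
      rw [ENNReal.toReal_mul] at this
      simpa using this
    linarith
  have hg := geom a ha0 hmono hlc h1
  have hgk : ∀ k, a (k + 1) ≤ (1 / 4) ^ k * a 1 := by
    intro k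
    induction k with
    | zero => simp
    | succ k ih =>
      calc a (k + 1 + 1) ≤ a (k + 1) / 4 := hg _
        _ ≤ ((1 / 4) ^ k * a 1) / 4 := by gcongr
        _ = _ := by ring
  rcases k with _ | k
  · rw [pow_zero, one_mul]
    exact measure_mono fun z hz => hz.1
  · refine (htwo (k + 1)).trans ?_
    rw [← ENNReal.toReal_le_toReal (ENNReal.mul_ne_top (by norm_num) (hSfin _))
      (ENNReal.mul_ne_top (ENNReal.pow_ne_top (by norm_num)) hfin)]
    rw [ENNReal.toReal_mul, ENNReal.toReal_mul, ENNReal.toReal_pow]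
    have e1 : 8 * a 1 ≤ (volume K).toReal := by
      have := ENNReal.toReal_mono hfin hmark
      rw [ENNReal.toReal_mul] at this
      simpa using this
    have e3 : ((4⁻¹ : ℝ≥0∞)).toReal = 1 / 4 := by
      rw [ENNReal.toReal_inv]; norm_num
    have e4 : ((2 : ℝ≥0∞)).toReal = 2 := by norm_num
    rw [e3, e4]
    calc 2 * (volume (S (k + 1))).toReal ≤ 2 * ((1 / 4) ^ k * a 1) := by
          have := hgk k
          gcongr
      _ = (1 / 4) ^ (k + 1) * (8 * a 1) := by ring
      _ ≤ (1 / 4) ^ (k + 1) * (volume K).toReal := by gcongr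

theorem expMoment (p : Seminorm ℝ (EuclideanSpace ℝ (Fin d))) (hcont : Continuous p)
    (hfin : volume {y : EuclideanSpace ℝ (Fin d) | p y ≤ 1} ≠ ⊤)
    (φ : EuclideanSpace ℝ (Fin d) →L[ℝ] ℝ) (s : ℝ) (hs : 0 < s)
    (hφ : ∫⁻ z in {y : EuclideanSpace ℝ (Fin d) | p y ≤ 1}, ENNReal.ofReal |φ z|
      ≤ ENNReal.ofReal s * volume {y : EuclideanSpace ℝ (Fin d) | p y ≤ 1}) :
    ∫⁻ z in {y : EuclideanSpace ℝ (Fin d) | p y ≤ 1},
      ENNReal.ofReal (Real.exp (Real.log 2 / (4 * s) * |φ z|))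
      ≤ 3 * volume {y : EuclideanSpace ℝ (Fin d) | p y ≤ 1} := by
  set K : Set (EuclideanSpace ℝ (Fin d)) := {y | p y ≤ 1} with hK
  have hKm : MeasurableSet K := (isClosed_le hcont continuous_const).measurableSet
  set T : ℕ → Set (EuclideanSpace ℝ (Fin d)) := fun k => {z | p z ≤ 1 ∧ 4 * s * k ≤ |φ z|} with hT
  have hTm : ∀ k, MeasurableSet (T k) := fun k =>
    ((isClosed_le hcont continuous_const).inter
      (isClosed_le continuous_const (continuous_abs.comp φ.continuous))).measurableSet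
  have hpt : ∀ z ∈ K, ENNReal.ofReal (Real.exp (Real.log 2 / (4 * s) * |φ z|))
      ≤ 1 + ∑' k : ℕ, (2 : ℝ≥0∞) ^ k * (T k).indicator 1 z := by
    intro z hz
    set x : ℝ := |φ z| / (4 * s) with hx
    have hx0 : 0 ≤ x := by positivity
    set j := ⌊x⌋₊ with hj
    have hjx : (j : ℝ) ≤ x := Nat.floor_le hx0
    have hxj : x < j + 1 := Nat.lt_floor_add_one x
    have e1 : Real.exp (Real.log 2 / (4 * s) * |φ z|) ≤ 2 ^ (j + 1) := by
      have : Real.log 2 / (4 * s) * |φ z| = Real.log 2 * x := by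
        rw [hx]; ring
      rw [this, ← Real.rpow_natCast, Real.rpow_def_of_pos (by norm_num : (0 : ℝ) < 2)]
      apply Real.exp_le_exp.mpr
      push_cast
      have := Real.log_pos (by norm_num : (1 : ℝ) < 2)
      nlinarith
    have e2 : ∀ n : ℕ, (2 : ℝ≥0∞) ^ (n + 1) = 1 + ∑ k ∈ Finset.range (n + 1), 2 ^ k := by
      intro n
      induction n with
      | zero => norm_num
      | succ n ih =>
        rw [Finset.sum_range_succ, ← add_assoc, ← ih]
        ring
    calc ENNReal.ofReal (Real.exp (Real.log 2 / (4 * s) * |φ z|))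
        ≤ ENNReal.ofReal (2 ^ (j + 1)) := ENNReal.ofReal_le_ofReal e1
      _ = (2 : ℝ≥0∞) ^ (j + 1) := by
          rw [ENNReal.ofReal_pow (by norm_num)]; norm_num
      _ = 1 + ∑ k ∈ Finset.range (j + 1), 2 ^ k := e2 j
      _ = 1 + ∑ k ∈ Finset.range (j + 1), 2 ^ k * (T k).indicator 1 z := by
          congr 1
          refine Finset.sum_congr rfl fun k hk => ?_
          have hkj : (k : ℝ) ≤ j := by
            have := Finset.mem_range.mp hk
            exact_mod_cast (by omega : k ≤ j)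
          have hmem : z ∈ T k := by
            refine ⟨hz, ?_⟩
            have : (k : ℝ) ≤ x := hkj.trans hjx
            rw [hx, le_div_iff₀ (by positivity)] at this
            linarith
          rw [indicator_of_mem hmem]
          simp
      _ ≤ 1 + ∑' k : ℕ, (2 : ℝ≥0∞) ^ k * (T k).indicator 1 z := by
          gcongr
          exact ENNReal.sum_le_tsum _
  calc ∫⁻ z in K, ENNReal.ofReal (Real.exp (Real.log 2 / (4 * s) * |φ z|))
      ≤ ∫⁻ z in K, (1 + ∑' k : ℕ, (2 : ℝ≥0∞) ^ k * (T k).indicator 1 z) :=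
        setLIntegral_mono' hKm hpt
    _ = (∫⁻ z in K, 1) + ∫⁻ z in K, ∑' k : ℕ, (2 : ℝ≥0∞) ^ k * (T k).indicator 1 z :=
        lintegral_add_left measurable_const _
    _ = volume K + ∑' k : ℕ, ∫⁻ z in K, (2 : ℝ≥0∞) ^ k * (T k).indicator 1 z := by
        rw [lintegral_tsum]
        · simp
        · intro k
          exact ((measurable_one.indicator (hTm k)).const_mul _).aemeasurable
    _ ≤ volume K + ∑' k : ℕ, (2 : ℝ≥0∞)⁻¹ ^ k * volume K := by
        gcongr with k
        rw [lintegral_const_mul _ (measurable_one.indicator (hTm k)),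
          lintegral_indicator_one (hTm k), Measure.restrict_apply (hTm k)]
        have h1 : T k ∩ K ⊆ T k := inter_subset_left
        calc (2 : ℝ≥0∞) ^ k * volume (T k ∩ K) ≤ 2 ^ k * volume (T k) := by
              gcongr
          _ ≤ 2 ^ k * ((4⁻¹ : ℝ≥0∞) ^ k * volume K) := by
              gcongr
              exact tail p hcont hfin φ s hs hφ k
          _ = (2 : ℝ≥0∞)⁻¹ ^ k * volume K := by
              rw [← mul_assoc, ← mul_pow]
              congr 2
              rw [show (4 : ℝ≥0∞) = 2 * 2 by norm_num, ENNReal.mul_inv (by norm_num) (by norm_num),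
                ← mul_assoc, ENNReal.mul_inv_cancel (by norm_num) (by norm_num), one_mul]
    _ = 3 * volume K := by
        rw [ENNReal.tsum_mul_right, ENNReal.tsum_geometric, ENNReal.one_sub_inv_two, inv_inv]
        rw [show (3 : ℝ≥0∞) = 1 + 2 by norm_num, add_mul, one_mul]

end Pool.Agent.H815R2.Flat
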