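import Mathlib
import Pool.Agent.H815R2.FlatTail
import Pool.Agent.H815R2.HadVol

set_option autoImplicit false

/-!
Transfer lemma, and the averaged bound for linear functionals over a spread-out family of points.
-/

namespace Pool.Agent.H815R2.Flat

open MeasureTheory Set
open scoped ENNReal Pointwise

variable {d : ℕ}

theorem lint_smul (F : EuclideanSpace ℝ (Fin d) → ℝ≥0∞) (hF : Measurable F) (R : ℝ) (hR : 0 < R) :
    ∫⁻ z, F (R • z) = ENNReal.ofReal ((R ^ d)⁻¹) * ∫⁻ y, F y := by
  have h1 := Measure.map_addHaar_smul (volume : Measure (EuclideanSpace ℝ (Fin d))) hR.ne'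
  rw [finrank_euclideanSpace_fin, abs_of_nonneg (by positivity)] at h1
  rw [← smul_eq_mul, ← lintegral_smul_measure, ← h1, lintegral_map hF (measurable_const_smul R)]

theorem setLint_smul (p : Seminorm ℝ (EuclideanSpace ℝ (Fin d))) (hcont : Continuous p)
    (F : EuclideanSpace ℝ (Fin d) → ℝ≥0∞) (hF : Measurable F) (R : ℝ) (hR : 0 < R) :
    ∫⁻ y in {y : EuclideanSpace ℝ (Fin d) | p y ≤ R}, F y
      = ENNReal.ofReal (R ^ d) * ∫⁻ z in {z : EuclideanSpace ℝ (Fin d) | p z ≤ 1}, F (R • z) := by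
  have hm : MeasurableSet {y : EuclideanSpace ℝ (Fin d) | p y ≤ R} :=
    (isClosed_le hcont continuous_const).measurableSet
  have hm1 : MeasurableSet {y : EuclideanSpace ℝ (Fin d) | p y ≤ 1} :=
    (isClosed_le hcont continuous_const).measurableSet
  have h := lint_smul (({y : EuclideanSpace ℝ (Fin d) | p y ≤ R}).indicator F)
    (hF.indicator hm) R hR
  rw [lintegral_indicator hm] at h
  have e1 : (fun z : EuclideanSpace ℝ (Fin d) =>
      ({y : EuclideanSpace ℝ (Fin d) | p y ≤ R}).indicator F (R • z))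
      = ({z : EuclideanSpace ℝ (Fin d) | p z ≤ 1}).indicator (fun z => F (R • z)) := by
    ext z
    by_cases hz : p z ≤ 1
    · rw [indicator_of_mem (show z ∈ {z : EuclideanSpace ℝ (Fin d) | p z ≤ 1} from hz),
        indicator_of_mem]
      show p (R • z) ≤ R
      rw [map_smul_eq_mul, Real.norm_of_nonneg hR.le]
      nlinarith
    · rw [indicator_of_notMem (show z ∉ {z : EuclideanSpace ℝ (Fin d) | p z ≤ 1} from hz),
        indicator_of_notMem]
      show ¬ p (R • z) ≤ R
      rw [map_smul_eq_mul, Real.norm_of_nonneg hR.le, not_le]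
      push Not at hz
      nlinarith
  rw [e1, lintegral_indicator hm1] at h
  rw [h, ← mul_assoc, ← ENNReal.ofReal_mul (by positivity),
    mul_inv_cancel₀ (by positivity), ENNReal.ofReal_one, one_mul]

theorem transfer {ι : Type*} [Fintype ι] (p : Seminorm ℝ (EuclideanSpace ℝ (Fin d)))
    (hcont : Continuous p)
    (u : ι → EuclideanSpace ℝ (Fin d)) (hu : ∀ i, p (u i) ≤ 1) (r q : ℝ) (hr1 : r ≤ 1)
    (hq : ∀ y : EuclideanSpace ℝ (Fin d),
      (∑ i : ι, if p (u i - y) ≤ r then (1 : ℝ) else 0) ≤ q)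
    (f : EuclideanSpace ℝ (Fin d) → ℝ≥0∞) (hf : Measurable f) :
    ∑ i, ∫⁻ z in {z : EuclideanSpace ℝ (Fin d) | p z ≤ r}, f (u i + z)
      ≤ ENNReal.ofReal q * ∫⁻ y in {y : EuclideanSpace ℝ (Fin d) | p y ≤ 2}, f y := by
  classical
  have hm : MeasurableSet {y : EuclideanSpace ℝ (Fin d) | p y ≤ r} :=
    (isClosed_le hcont continuous_const).measurableSet
  have hm2 : MeasurableSet {y : EuclideanSpace ℝ (Fin d) | p y ≤ 2} :=
    (isClosed_le hcont continuous_const).measurableSet
  have hmi : ∀ i, MeasurableSet {y : EuclideanSpace ℝ (Fin d) | p (y - u i) ≤ r} := fun i =>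
    (isClosed_le (hcont.comp (continuous_id.sub continuous_const)) continuous_const).measurableSet
  have h1 : ∀ i, ∫⁻ z in {z : EuclideanSpace ℝ (Fin d) | p z ≤ r}, f (u i + z)
      = ∫⁻ y, ({y : EuclideanSpace ℝ (Fin d) | p (y - u i) ≤ r}).indicator f y := by
    intro i
    rw [← lintegral_indicator hm,
      ← lintegral_add_left_eq_self
        (({y : EuclideanSpace ℝ (Fin d) | p (y - u i) ≤ r}).indicator f) (u i)]
    congr 1
    ext z
    by_cases hz : p z ≤ r
    · rw [indicator_of_mem (show z ∈ {z : EuclideanSpace ℝ (Fin d) | p z ≤ r} from hz),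
        indicator_of_mem]
      show p (u i + z - u i) ≤ r
      rwa [add_sub_cancel_left]
    · rw [indicator_of_notMem (show z ∉ {z : EuclideanSpace ℝ (Fin d) | p z ≤ r} from hz),
        indicator_of_notMem]
      show ¬ p (u i + z - u i) ≤ r
      rwa [add_sub_cancel_left]
  rw [Finset.sum_congr rfl (fun i _ => h1 i), ← lintegral_finsetSum _ (fun i _ => hf.indicator (hmi i)),
    ← lintegral_const_mul _ hf, ← lintegral_indicator hm2]
  refine lintegral_mono fun y => ?_
  have h2 : ∑ i, ({y : EuclideanSpace ℝ (Fin d) | p (y - u i) ≤ r}).indicator f y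
      = ENNReal.ofReal (∑ i : ι, if p (u i - y) ≤ r then (1 : ℝ) else 0) * f y := by
    rw [ENNReal.ofReal_sum_of_nonneg (fun i _ => by split_ifs <;> norm_num), Finset.sum_mul]
    refine Finset.sum_congr rfl fun i _ => ?_
    have e : p (u i - y) = p (y - u i) := by rw [← map_neg_eq_map p, neg_sub]
    by_cases hz : p (y - u i) ≤ r
    · rw [indicator_of_mem (show y ∈ {y : EuclideanSpace ℝ (Fin d) | p (y - u i) ≤ r} from hz),
        if_pos (by rw [e]; exact hz)]
      simp
    · rw [indicator_of_notMem (show y ∉ {y : EuclideanSpace ℝ (Fin d) | p (y - u i) ≤ r} from hz),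
        if_neg (by rw [e]; exact hz)]
      simp
  rw [h2]
  by_cases hy : p y ≤ 2
  · rw [indicator_of_mem (show y ∈ {y : EuclideanSpace ℝ (Fin d) | p y ≤ 2} from hy)]
    gcongr
    exact hq y
  · have h0 : (∑ i : ι, if p (u i - y) ≤ r then (1 : ℝ) else 0) = 0 := by
      refine Finset.sum_eq_zero fun i _ => ?_
      rw [if_neg]
      intro h
      apply hy
      calc p y = p (u i - (u i - y)) := by congr 1; abel
        _ ≤ p (u i) + p (u i - y) := map_sub_le_add _ _ _
        _ ≤ 1 + r := add_le_add (hu i) h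
        _ ≤ 2 := by linarith
    rw [h0]
    simp

theorem vol_ball' (p : Seminorm ℝ (EuclideanSpace ℝ (Fin d))) (r : ℝ) (hr : 0 < r) :
    volume {y : EuclideanSpace ℝ (Fin d) | p y ≤ r}
      = ENNReal.ofReal (r ^ d) * volume {y : EuclideanSpace ℝ (Fin d) | p y ≤ 1} := by
  have := Pool.Agent.H815R2.Had.vol_ball (volume : Measure (EuclideanSpace ℝ (Fin d))) p 0 r hr
  simpa using this

/-- The averaged bound for a linear functional. -/
theorem avg_func {ι : Type*} [Fintype ι] [Nonempty ι] (p : Seminorm ℝ (EuclideanSpace ℝ (Fin d)))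
    (hcont : Continuous p)
    (h0 : volume {y : EuclideanSpace ℝ (Fin d) | p y ≤ 1} ≠ 0)
    (hfin : volume {y : EuclideanSpace ℝ (Fin d) | p y ≤ 1} ≠ ⊤)
    (u : ι → EuclideanSpace ℝ (Fin d)) (hu : ∀ i, p (u i) ≤ 1) (r q D : ℝ) (hr0 : 0 < r)
    (hr1 : r ≤ 1)
    (hq : ∀ y : EuclideanSpace ℝ (Fin d),
      (∑ i : ι, if p (u i - y) ≤ r then (1 : ℝ) else 0) ≤ q)
    (hD : q * 2 ^ d ≤ D * Fintype.card ι * r ^ d)
    (φ : EuclideanSpace ℝ (Fin d) →L[ℝ] ℝ) (s : ℝ) (hs : 0 < s)
    (hφ : ∫⁻ z in {y : EuclideanSpace ℝ (Fin d) | p y ≤ 1}, ENNReal.ofReal |φ z|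
      ≤ ENNReal.ofReal s * volume {y : EuclideanSpace ℝ (Fin d) | p y ≤ 1}) :
    ∑ i, |φ (u i)| ≤ Fintype.card ι * (8 * s / Real.log 2 * Real.log (3 * D)) := by
  classical
  set κ : ℝ := Real.log 2 / (8 * s) with hκ
  have hlog2 := Real.log_pos (by norm_num : (1 : ℝ) < 2)
  have hκ0 : 0 < κ := by positivity
  have hm : (0 : ℝ) < Fintype.card ι := by exact_mod_cast Fintype.card_pos
  have hq0 : 0 ≤ q := by
    refine le_trans ?_ (hq 0)
    exact Finset.sum_nonneg fun i _ => by split_ifs <;> norm_num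
  set Ψ : EuclideanSpace ℝ (Fin d) → ℝ≥0∞ := fun y => ENNReal.ofReal (Real.exp (κ * |φ y|)) with hΨ
  have hΨm : Measurable Ψ := by
    apply Measurable.ennreal_ofReal
    exact (Real.continuous_exp.comp (continuous_const.mul
      (continuous_abs.comp φ.continuous))).measurable
  have hmr : MeasurableSet {y : EuclideanSpace ℝ (Fin d) | p y ≤ r} :=
    (isClosed_le hcont continuous_const).measurableSet
  -- Jensen in z
  have hJ : ∀ i, Ψ (u i) * volume {z : EuclideanSpace ℝ (Fin d) | p z ≤ r}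
      ≤ ∫⁻ z in {z : EuclideanSpace ℝ (Fin d) | p z ≤ r}, Ψ (u i + z) := by
    intro i
    have hneg : ∫⁻ z in {z : EuclideanSpace ℝ (Fin d) | p z ≤ r}, Ψ (u i + -z)
        = ∫⁻ z in {z : EuclideanSpace ℝ (Fin d) | p z ≤ r}, Ψ (u i + z) := by
      rw [← lintegral_indicator hmr, ← lintegral_indicator hmr,
        ← lintegral_neg_eq_self (μ := (volume : Measure (EuclideanSpace ℝ (Fin d))))
          (fun z => ({z : EuclideanSpace ℝ (Fin d) | p z ≤ r}).indicator (fun z => Ψ (u i + z)) z)]
      congr 1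
      ext z
      by_cases hz : p z ≤ r
      · rw [indicator_of_mem (show z ∈ {z : EuclideanSpace ℝ (Fin d) | p z ≤ r} from hz),
          indicator_of_mem]
        show p (-z) ≤ r
        rwa [map_neg_eq_map]
      · rw [indicator_of_notMem (show z ∉ {z : EuclideanSpace ℝ (Fin d) | p z ≤ r} from hz),
          indicator_of_notMem]
        show ¬ p (-z) ≤ r
        rwa [map_neg_eq_map]
    have h2 : 2 * (Ψ (u i) * volume {z : EuclideanSpace ℝ (Fin d) | p z ≤ r})
        ≤ 2 * ∫⁻ z in {z : EuclideanSpace ℝ (Fin d) | p z ≤ r}, Ψ (u i + z) := by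
      calc 2 * (Ψ (u i) * volume {z : EuclideanSpace ℝ (Fin d) | p z ≤ r})
          = ∫⁻ _ in {z : EuclideanSpace ℝ (Fin d) | p z ≤ r}, 2 * Ψ (u i) := by
            rw [setLIntegral_const]; ring
        _ ≤ ∫⁻ z in {z : EuclideanSpace ℝ (Fin d) | p z ≤ r}, (Ψ (u i + z) + Ψ (u i + -z)) := by
            refine lintegral_mono fun z => ?_
            have e1 : (2 : ℝ≥0∞) * Ψ (u i) = ENNReal.ofReal (2 * Real.exp (κ * |φ (u i)|)) := by
              rw [ENNReal.ofReal_mul (by norm_num)]; norm_num [hΨ]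
            show (2 : ℝ≥0∞) * Ψ (u i) ≤ Ψ (u i + z) + Ψ (u i + -z)
            rw [e1, hΨ]
            simp only
            rw [← ENNReal.ofReal_add (Real.exp_pos _).le (Real.exp_pos _).le]
            apply ENNReal.ofReal_le_ofReal
            set a := κ * |φ (u i + z)| with ha
            set b := κ * |φ (u i + -z)| with hb
            have hab : κ * |φ (u i)| ≤ (a + b) / 2 := by
              have h3 : |2 * φ (u i)| ≤ |φ (u i + z)| + |φ (u i + -z)| := by
                have : 2 * φ (u i) = φ (u i + z) + φ (u i + -z) := by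
                  rw [map_add, map_add, map_neg]; ring
                rw [this]
                exact abs_add_le _ _
              rw [abs_mul, abs_of_pos (by norm_num : (0 : ℝ) < 2)] at h3
              rw [ha, hb]
              nlinarith
            have h4 : Real.exp (κ * |φ (u i)|) ≤ Real.exp ((a + b) / 2) := Real.exp_le_exp.mpr hab
            have h5 : 2 * Real.exp ((a + b) / 2) ≤ Real.exp a + Real.exp b := by
              have e2 : Real.exp a = Real.exp (a / 2) ^ 2 := by
                rw [← Real.exp_nat_mul]; congr 1; push_cast; ring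
              have e3 : Real.exp b = Real.exp (b / 2) ^ 2 := by
                rw [← Real.exp_nat_mul]; congr 1; push_cast; ring
              have e4 : Real.exp ((a + b) / 2) = Real.exp (a / 2) * Real.exp (b / 2) := by
                rw [← Real.exp_add]; congr 1; ring
              rw [e2, e3, e4]
              nlinarith [sq_nonneg (Real.exp (a / 2) - Real.exp (b / 2))]
            linarith
        _ = (∫⁻ z in {z : EuclideanSpace ℝ (Fin d) | p z ≤ r}, Ψ (u i + z))
            + ∫⁻ z in {z : EuclideanSpace ℝ (Fin d) | p z ≤ r}, Ψ (u i + -z) := by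
            exact lintegral_add_left (hΨm.comp (measurable_const_add _)) _
        _ = _ := by rw [hneg, two_mul]
    exact (ENNReal.mul_le_mul_iff_right (by norm_num) (by norm_num)).mp h2
  have htr := transfer p hcont u hu r q hr1 hq Ψ hΨm
  have hsum : (∑ i, Ψ (u i)) * volume {z : EuclideanSpace ℝ (Fin d) | p z ≤ r}
      ≤ ENNReal.ofReal q * (ENNReal.ofReal (2 ^ d)
        * (3 * volume {y : EuclideanSpace ℝ (Fin d) | p y ≤ 1})) := by
    rw [Finset.sum_mul]
    refine (Finset.sum_le_sum fun i _ => hJ i).trans (htr.trans ?_)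
    gcongr
    rw [setLint_smul p hcont Ψ hΨm 2 (by norm_num)]
    gcongr
    refine le_trans (le_of_eq ?_) (expMoment p hcont hfin φ s hs hφ)
    congr 1
    ext z
    simp only [hΨ]
    congr 2
    rw [map_smul, smul_eq_mul, abs_mul, abs_of_pos (by norm_num : (0 : ℝ) < 2), hκ]
    field_simp
    ring
  rw [vol_ball' p r hr0] at hsum
  have hsum2 : (∑ i, Ψ (u i)) * ENNReal.ofReal (r ^ d)
      ≤ ENNReal.ofReal q * (ENNReal.ofReal (2 ^ d) * 3) := by
    rw [← ENNReal.mul_le_mul_iff_left h0 hfin]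
    calc _ = _ := by rw [mul_assoc]
      _ ≤ _ := hsum
      _ = _ := by ring
  have hS : ∑ i, Ψ (u i) = ENNReal.ofReal (∑ i, Real.exp (κ * |φ (u i)|)) := by
    rw [ENNReal.ofReal_sum_of_nonneg (fun i _ => (Real.exp_pos _).le)]
  rw [hS, ← ENNReal.ofReal_mul (Finset.sum_nonneg fun i _ => (Real.exp_pos _).le),
    show (3 : ℝ≥0∞) = ENNReal.ofReal 3 by norm_num, ← ENNReal.ofReal_mul (by positivity),
    ← ENNReal.ofReal_mul hq0, ENNReal.ofReal_le_ofReal_iff (by positivity)] at hsum2
  have hrd : 0 < r ^ d := by positivity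
  have hsum3 : ∑ i, Real.exp (κ * |φ (u i)|) ≤ 3 * D * Fintype.card ι := by
    have : (∑ i, Real.exp (κ * |φ (u i)|)) * r ^ d ≤ (3 * D * Fintype.card ι) * r ^ d := by
      calc _ ≤ _ := hsum2
        _ = 3 * (q * 2 ^ d) := by ring
        _ ≤ 3 * (D * Fintype.card ι * r ^ d) := by gcongr
        _ = _ := by ring
    exact le_of_mul_le_mul_right this hrd
  -- Jensen
  have hJ2 : Real.exp (κ * ((∑ i, |φ (u i)|) / Fintype.card ι)) ≤ 3 * D := by
    have h6 := convexOn_exp.map_sum_le (t := (Finset.univ : Finset ι))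
      (w := fun _ => (Fintype.card ι : ℝ)⁻¹) (p := fun i => κ * |φ (u i)|)
      (fun i _ => by positivity) (by simp [hm.ne']) (fun i _ => Set.mem_univ _)
    simp only [smul_eq_mul] at h6
    rw [← Finset.mul_sum, ← Finset.mul_sum, ← Finset.mul_sum] at h6
    calc Real.exp (κ * ((∑ i, |φ (u i)|) / Fintype.card ι))
        = Real.exp ((Fintype.card ι : ℝ)⁻¹ * (κ * ∑ i, |φ (u i)|)) := by
          congr 1; field_simp
      _ ≤ (Fintype.card ι : ℝ)⁻¹ * ∑ i, Real.exp (κ * |φ (u i)|) := h6
      _ ≤ (Fintype.card ι : ℝ)⁻¹ * (3 * D * Fintype.card ι) := by gcongr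
      _ = 3 * D := by field_simp
  have h3D : 0 < 3 * D := lt_of_lt_of_le (Real.exp_pos _) hJ2
  have h7 : κ * ((∑ i, |φ (u i)|) / Fintype.card ι) ≤ Real.log (3 * D) := by
    rw [← Real.log_exp (κ * ((∑ i, |φ (u i)|) / Fintype.card ι))]
    exact Real.log_le_log (Real.exp_pos _) hJ2
  have h8 : (∑ i, |φ (u i)|) / Fintype.card ι ≤ 8 * s / Real.log 2 * Real.log (3 * D) := by
    rw [← le_div_iff₀' hκ0] at h7
    refine h7.trans (le_of_eq ?_)
    rw [hκ]
    field_simp
  rw [div_le_iff₀ hm] at h8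
  linarith

end Pool.Agent.H815R2.Flat
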