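import Mathlib
import Pool.Agent.H815R2.FlatCount

set_option autoImplicit false

/-!
Derivatives of a seminorm and the escape inequality.
-/

namespace Pool.Agent.H815R2.Flat

open MeasureTheory Set
open scoped ENNReal Pointwise NNReal

variable {d : ℕ}

theorem exists_lip (p : Seminorm ℝ (EuclideanSpace ℝ (Fin d))) (hcont : Continuous p) :
    ∃ C : ℝ≥0, LipschitzWith C p := by
  obtain ⟨C, hC, h⟩ := Seminorm.bound_of_continuous_normedSpace p hcont
  refine ⟨⟨C, hC.le⟩, LipschitzWith.of_dist_le_mul fun x y => ?_⟩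
  rw [Real.dist_eq, dist_eq_norm]
  exact (abs_sub_map_le_sub p x y).trans (h _)

theorem ae_diff (p : Seminorm ℝ (EuclideanSpace ℝ (Fin d))) (hcont : Continuous p) :
    ∀ᵐ z : EuclideanSpace ℝ (Fin d), DifferentiableAt ℝ p z := by
  obtain ⟨C, hC⟩ := exists_lip p hcont
  exact hC.ae_differentiableAt

theorem fderiv_le (p : Seminorm ℝ (EuclideanSpace ℝ (Fin d))) (w v : EuclideanSpace ℝ (Fin d))
    (h : DifferentiableAt ℝ p w) : fderiv ℝ p w v ≤ p (w + v) - p w := by
  have hc : ConvexOn ℝ univ (fun s : ℝ => p (w + s • v)) := by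
    refine ⟨convex_univ, ?_⟩
    intro a _ b _ s t hs ht hst
    have e : w + (s • a + t • b) • v = s • (w + a • v) + t • (w + b • v) := by
      have : w = (s + t) • w := by rw [hst, one_smul]
      conv_lhs => rw [this]
      simp only [smul_eq_mul, smul_add, smul_smul, add_smul]
      abel
    calc p (w + (s • a + t • b) • v) = p (s • (w + a • v) + t • (w + b • v)) := by rw [e]
      _ ≤ p (s • (w + a • v)) + p (t • (w + b • v)) := map_add_le_add _ _ _
      _ = s • p (w + a • v) + t • p (w + b • v) := by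
        rw [map_smul_eq_mul, map_smul_eq_mul, Real.norm_of_nonneg hs, Real.norm_of_nonneg ht,
          smul_eq_mul, smul_eq_mul]
  have hd : HasDerivAt (fun s : ℝ => p (w + s • v)) (fderiv ℝ p w v) 0 := by
    have h1 : HasDerivAt (fun s : ℝ => w + s • v) v 0 := by
      have := ((hasDerivAt_id (0 : ℝ)).smul_const v).const_add w
      simpa using this
    have h2 : HasFDerivAt p (fderiv ℝ p w) (w + (0 : ℝ) • v) := by
      rw [zero_smul, add_zero]
      exact h.hasFDerivAt
    exact h2.comp_hasDerivAt (0 : ℝ) h1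
  have h3 := hc.le_slope_of_hasDerivAt (mem_univ (0 : ℝ)) (mem_univ (1 : ℝ)) zero_lt_one hd
  rw [slope_def_field] at h3
  simpa using h3

theorem fderiv_abs_le (p : Seminorm ℝ (EuclideanSpace ℝ (Fin d)))
    (w v : EuclideanSpace ℝ (Fin d)) : |fderiv ℝ p w v| ≤ p v := by
  by_cases h : DifferentiableAt ℝ p w
  · have h1 := fderiv_le p w v h
    have h2 := fderiv_le p w (-v) h
    have h3 := map_add_le_add p w v
    have h4 := map_add_le_add p w (-v)
    rw [map_neg_eq_map] at h4
    rw [map_neg] at h2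
    rw [abs_le]
    constructor <;> linarith
  · rw [fderiv_zero_of_not_differentiableAt h]
    simp

theorem euler (p : Seminorm ℝ (EuclideanSpace ℝ (Fin d))) (w : EuclideanSpace ℝ (Fin d))
    (h : DifferentiableAt ℝ p w) : fderiv ℝ p w w = p w := by
  have h1 := fderiv_le p w w h
  have h2 := fderiv_le p w (-w) h
  rw [map_neg, add_neg_cancel, map_zero] at h2
  have h3 := map_add_le_add p w w
  linarith

theorem diff_scale (p : Seminorm ℝ (EuclideanSpace ℝ (Fin d))) (z : EuclideanSpace ℝ (Fin d))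
    (R : ℝ) (hR : 0 < R) (L : EuclideanSpace ℝ (Fin d) →L[ℝ] ℝ) (h : HasFDerivAt p L z) :
    HasFDerivAt p L (R • z) := by
  have h1 : HasFDerivAt (fun w : EuclideanSpace ℝ (Fin d) => R⁻¹ • w)
      (R⁻¹ • ContinuousLinearMap.id ℝ (EuclideanSpace ℝ (Fin d))) (R • z) :=
    (hasFDerivAt_id _).const_smul R⁻¹
  have h2 : HasFDerivAt p L (R⁻¹ • (R • z)) := by
    rwa [smul_smul, inv_mul_cancel₀ hR.ne', one_smul]
  have h3 := (h2.comp (R • z) h1).const_smul R
  have e1 : (R • (⇑p ∘ fun w : EuclideanSpace ℝ (Fin d) => R⁻¹ • w)) = ⇑p := by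
    ext w
    simp only [Pi.smul_apply, Function.comp, smul_eq_mul, map_smul_eq_mul]
    rw [Real.norm_of_nonneg (by positivity), ← mul_assoc, mul_inv_cancel₀ hR.ne', one_mul]
  have e2 : R • (L.comp (R⁻¹ • ContinuousLinearMap.id ℝ (EuclideanSpace ℝ (Fin d)))) = L := by
    ext w
    simp [← mul_assoc, mul_inv_cancel₀ hR.ne']
  rw [e2] at h3
  rw [← e1]
  exact h3

theorem fderiv_scale (p : Seminorm ℝ (EuclideanSpace ℝ (Fin d))) (z : EuclideanSpace ℝ (Fin d))
    (R : ℝ) (hR : 0 < R) : fderiv ℝ p (R • z) = fderiv ℝ p z := by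
  by_cases h : DifferentiableAt ℝ p z
  · exact (diff_scale p z R hR _ h.hasFDerivAt).fderiv
  · have h2 : ¬ DifferentiableAt ℝ p (R • z) := by
      intro h3
      apply h
      have := diff_scale p (R • z) R⁻¹ (by positivity) _ h3.hasFDerivAt
      rw [smul_smul, inv_mul_cancel₀ hR.ne', one_smul] at this
      exact this.differentiableAt
    rw [fderiv_zero_of_not_differentiableAt h, fderiv_zero_of_not_differentiableAt h2]

/-- The cut-off function. -/
noncomputable def hcut (τ a : ℝ) : ℝ := min 1 (max 0 ((a - 1) / τ))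

theorem hcut_low (τ a : ℝ) (hτ : 0 < τ) (ha : a ≤ 1) : hcut τ a = 0 := by
  unfold hcut
  have : (a - 1) / τ ≤ 0 := div_nonpos_of_nonpos_of_nonneg (by linarith) hτ.le
  rw [max_eq_left this]
  norm_num

theorem hcut_high (τ a : ℝ) (hτ : 0 < τ) (ha : 1 + τ ≤ a) : hcut τ a = 1 := by
  unfold hcut
  have : 1 ≤ (a - 1) / τ := by rw [le_div_iff₀ hτ]; linarith
  rw [max_eq_right (by linarith), min_eq_left this]

theorem hcut_sub (τ a b : ℝ) (hτ : 0 < τ) (hab : b ≤ a) : hcut τ a - hcut τ b ≤ (a - b) / τ := by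
  unfold hcut
  have h1 : (a - 1) / τ = (b - 1) / τ + (a - b) / τ := by rw [← add_div]; ring_nf
  have h2 : 0 ≤ (a - b) / τ := div_nonneg (by linarith) hτ.le
  rw [h1]
  generalize (b - 1) / τ = B at *
  generalize (a - b) / τ = C at *
  rcases le_total 0 (B + C) with h3 | h3 <;> rcases le_total 0 B with h4 | h4 <;>
    rcases le_total 1 (B + C) with h5 | h5 <;> rcases le_total 1 B with h6 | h6 <;>
    simp only [max_def, min_def] <;> split_ifs <;> linarith

theorem hcut_mono (τ a b : ℝ) (hτ : 0 < τ) (hab : b ≤ a) : hcut τ b ≤ hcut τ a := by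
  unfold hcut
  gcongr

theorem hcut_continuous (τ : ℝ) : Continuous (hcut τ) := by
  unfold hcut
  exact continuous_const.min (continuous_const.max ((continuous_id.sub continuous_const).div_const _))

/-- pointwise increment bound -/
theorem incr (p : Seminorm ℝ (EuclideanSpace ℝ (Fin d))) (w x : EuclideanSpace ℝ (Fin d))
    (hx : p x ≤ 1) (ε τ : ℝ) (hε : 0 < ε) (hτ : 0 < τ) (h : DifferentiableAt ℝ p w) :
    ENNReal.ofReal (hcut τ (p w) - hcut τ (p (w - ε • x)))
      ≤ ({w : EuclideanSpace ℝ (Fin d) | p w ≤ 1 + τ + ε}).indicator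
        (fun w => ENNReal.ofReal (ε / τ) * ENNReal.ofReal |fderiv ℝ p w x|) w := by
  have hg : p w - p (w - ε • x) ≤ ε * fderiv ℝ p w x := by
    have := fderiv_le p w (-(ε • x)) h
    rw [map_neg, map_smul, smul_eq_mul, ← sub_eq_add_neg] at this
    linarith
  have hle : p w ≤ p (w - ε • x) + ε := by
    calc p w = p ((w - ε • x) + ε • x) := by congr 1; abel
      _ ≤ p (w - ε • x) + p (ε • x) := map_add_le_add _ _ _
      _ = p (w - ε • x) + ε * p x := by rw [map_smul_eq_mul, Real.norm_of_nonneg hε.le]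
      _ ≤ p (w - ε • x) + ε * 1 := by gcongr
      _ = _ := by ring
  by_cases hw : p w ≤ 1 + τ + ε
  · rw [indicator_of_mem (show w ∈ {w : EuclideanSpace ℝ (Fin d) | p w ≤ 1 + τ + ε} from hw),
      ← ENNReal.ofReal_mul (by positivity)]
    apply ENNReal.ofReal_le_ofReal
    rcases le_total (p (w - ε • x)) (p w) with h1 | h1
    · calc hcut τ (p w) - hcut τ (p (w - ε • x)) ≤ (p w - p (w - ε • x)) / τ := hcut_sub _ _ _ hτ h1
        _ ≤ (ε * |fderiv ℝ p w x|) / τ := by
            gcongr
            exact hg.trans (by gcongr; exact le_abs_self _)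
        _ = _ := by ring
    · have := hcut_mono τ _ _ hτ h1
      have h2 : 0 ≤ ε / τ * |fderiv ℝ p w x| := by positivity
      linarith
  · push Not at hw
    have h1 : hcut τ (p (w - ε • x)) = 1 := hcut_high _ _ hτ (by linarith)
    have h2 : hcut τ (p w) = 1 := hcut_high _ _ hτ (by linarith)
    rw [h1, h2]
    simp

/-- Escape inequality. -/
theorem escape (p : Seminorm ℝ (EuclideanSpace ℝ (Fin d))) (hcont : Continuous p)
    (x : EuclideanSpace ℝ (Fin d)) (hx : p x ≤ 1) (t τ ε : ℝ) (hτ : 0 < τ) (hε : 0 < ε)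
    (M : ℕ) (hM : (M : ℝ) * ε = t) :
    volume {z : EuclideanSpace ℝ (Fin d) | p z ≤ 1 ∧ 1 + τ ≤ p (z + t • x)}
      ≤ ENNReal.ofReal (t / τ * (1 + τ + ε) ^ d) *
        ∫⁻ z in {z : EuclideanSpace ℝ (Fin d) | p z ≤ 1}, ENNReal.ofReal |fderiv ℝ p z x| := by
  set I := ∫⁻ z in {z : EuclideanSpace ℝ (Fin d) | p z ≤ 1}, ENNReal.ofReal |fderiv ℝ p z x| with hI
  have hmeas : Measurable (fun z : EuclideanSpace ℝ (Fin d) => ENNReal.ofReal |fderiv ℝ p z x|) := by
    apply Measurable.ennreal_ofReal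
    exact (measurable_fderiv_apply_const ℝ p x).abs
  set S : Set (EuclideanSpace ℝ (Fin d)) := {z | p z ≤ 1 ∧ 1 + τ ≤ p (z + t • x)} with hS
  have hSm : MeasurableSet S :=
    ((isClosed_le hcont continuous_const).inter
      (isClosed_le continuous_const (hcont.comp (continuous_id.add continuous_const)))).measurableSet
  have hcm : Continuous fun z : EuclideanSpace ℝ (Fin d) => hcut τ (p z) :=
    (hcut_continuous τ).comp hcont
  -- telescoping
  have hpt : ∀ z, S.indicator (1 : EuclideanSpace ℝ (Fin d) → ℝ≥0∞) z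
      ≤ ∑ k ∈ Finset.range M, ENNReal.ofReal (hcut τ (p (z + ((k + 1 : ℕ) * ε) • x))
        - hcut τ (p (z + ((k : ℕ) * ε) • x))) := by
    intro z
    by_cases hz : z ∈ S
    · rw [indicator_of_mem hz, Pi.one_apply]
      have h1 : ∑ k ∈ Finset.range M, (hcut τ (p (z + ((k + 1 : ℕ) * ε) • x))
          - hcut τ (p (z + ((k : ℕ) * ε) • x))) = 1 := by
        rw [Finset.sum_range_sub (fun k : ℕ => hcut τ (p (z + ((k : ℕ) * ε) • x)))]
        rw [hM, hcut_high _ _ hτ hz.2]
        have : p (z + (((0 : ℕ) : ℝ) * ε) • x) ≤ 1 := by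
          simpa using hz.1
        rw [hcut_low _ _ hτ this, sub_zero]
      calc (1 : ℝ≥0∞) = ENNReal.ofReal (∑ k ∈ Finset.range M,
            (hcut τ (p (z + ((k + 1 : ℕ) * ε) • x)) - hcut τ (p (z + ((k : ℕ) * ε) • x)))) := by
            rw [h1, ENNReal.ofReal_one]
        _ ≤ _ := by
            rw [← ENNReal.toReal_le_toReal ENNReal.ofReal_ne_top
              (ENNReal.sum_ne_top.mpr fun _ _ => ENNReal.ofReal_ne_top),
              ENNReal.toReal_sum (fun _ _ => ENNReal.ofReal_ne_top), h1]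
            rw [ENNReal.toReal_ofReal zero_le_one, ← h1]
            refine Finset.sum_le_sum fun k _ => ?_
            rw [ENNReal.toReal_ofReal']
            exact le_max_left _ _
    · rw [indicator_of_notMem hz]
      exact zero_le
  have hstep : ∀ k : ℕ, ∫⁻ z, ENNReal.ofReal (hcut τ (p (z + ((k + 1 : ℕ) * ε) • x))
        - hcut τ (p (z + ((k : ℕ) * ε) • x)))
      ≤ ENNReal.ofReal (ε / τ * (1 + τ + ε) ^ d) * I := by
    intro k
    have e1 : (fun z : EuclideanSpace ℝ (Fin d) =>
        ENNReal.ofReal (hcut τ (p (z + ((k + 1 : ℕ) * ε) • x))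
        - hcut τ (p (z + ((k : ℕ) * ε) • x))))
        = fun z => (fun w => ENNReal.ofReal (hcut τ (p w) - hcut τ (p (w - ε • x))))
          (z + ((k + 1 : ℕ) * ε) • x) := by
      ext z
      simp only
      congr 4
      push_cast
      rw [add_sub_assoc, ← sub_smul]
      congr 2
      ring
    rw [e1, lintegral_add_right_eq_self
      (fun w => ENNReal.ofReal (hcut τ (p w) - hcut τ (p (w - ε • x))))]
    have hm3 : MeasurableSet {w : EuclideanSpace ℝ (Fin d) | p w ≤ 1 + τ + ε} :=
      (isClosed_le hcont continuous_const).measurableSet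
    calc ∫⁻ w, ENNReal.ofReal (hcut τ (p w) - hcut τ (p (w - ε • x)))
        ≤ ∫⁻ w, ({w : EuclideanSpace ℝ (Fin d) | p w ≤ 1 + τ + ε}).indicator
          (fun w => ENNReal.ofReal (ε / τ) * ENNReal.ofReal |fderiv ℝ p w x|) w := by
          refine lintegral_mono_ae ?_
          filter_upwards [ae_diff p hcont] with w hw
          exact incr p w x hx ε τ hε hτ hw
      _ = ENNReal.ofReal (ε / τ) * ∫⁻ w in {w : EuclideanSpace ℝ (Fin d) | p w ≤ 1 + τ + ε},
            ENNReal.ofReal |fderiv ℝ p w x| := by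
          rw [lintegral_indicator hm3, lintegral_const_mul _ hmeas]
      _ = ENNReal.ofReal (ε / τ) * (ENNReal.ofReal ((1 + τ + ε) ^ d) * I) := by
          rw [setLint_smul p hcont _ hmeas (1 + τ + ε) (by positivity)]
          congr 2
          rw [hI]
          congr 1
          ext z
          rw [fderiv_scale p z _ (by positivity)]
      _ = _ := by rw [← mul_assoc, ← ENNReal.ofReal_mul (by positivity)]
  calc volume S = ∫⁻ z, S.indicator 1 z := (lintegral_indicator_one hSm).symm
    _ ≤ ∫⁻ z, ∑ k ∈ Finset.range M, ENNReal.ofReal (hcut τ (p (z + ((k + 1 : ℕ) * ε) • x))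
        - hcut τ (p (z + ((k : ℕ) * ε) • x))) := lintegral_mono hpt
    _ = ∑ k ∈ Finset.range M, ∫⁻ z, ENNReal.ofReal (hcut τ (p (z + ((k + 1 : ℕ) * ε) • x))
        - hcut τ (p (z + ((k : ℕ) * ε) • x))) := by
        rw [lintegral_finsetSum]
        intro k _
        apply Measurable.ennreal_ofReal
        apply Continuous.measurable
        exact (hcm.comp (continuous_id.add continuous_const)).sub
          (hcm.comp (continuous_id.add continuous_const))
    _ ≤ ∑ k ∈ Finset.range M, ENNReal.ofReal (ε / τ * (1 + τ + ε) ^ d) * I :=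
        Finset.sum_le_sum fun k _ => hstep k
    _ = ENNReal.ofReal (t / τ * (1 + τ + ε) ^ d) * I := by
        rw [Finset.sum_const, Finset.card_range, nsmul_eq_mul, ← mul_assoc,
          ← ENNReal.ofReal_natCast, ← ENNReal.ofReal_mul (by positivity)]
        congr 2
        rw [← hM]
        ring

end Pool.Agent.H815R2.Flat
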