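import Mathlib
import Pool.Agent.H815R2.FlatEscape

set_option autoImplicit false

/-!
The core contradiction.
-/

namespace Pool.Agent.H815R2.Flat

open MeasureTheory Set
open scoped ENNReal Pointwise NNReal

variable {d : ℕ}

theorem measurable_joint (p : Seminorm ℝ (EuclideanSpace ℝ (Fin d))) :
    Measurable (fun x : EuclideanSpace ℝ (Fin d) × EuclideanSpace ℝ (Fin d) =>
      fderiv ℝ p x.1 x.2) := by
  have h : (fun x : EuclideanSpace ℝ (Fin d) × EuclideanSpace ℝ (Fin d) => fderiv ℝ p x.1 x.2)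
      = fun x => ∑ i, x.2 i * fderiv ℝ p x.1 (EuclideanSpace.single i 1) := by
    ext x
    have hx : x.2 = ∑ i, x.2 i • EuclideanSpace.single i (1 : ℝ) := by
      ext j
      simp [Pi.single_apply]
    conv_lhs => rw [hx]
    rw [map_sum]
    refine Finset.sum_congr rfl fun i _ => ?_
    rw [map_smul, smul_eq_mul]
  rw [h]
  refine Finset.measurable_sum _ fun i _ => ?_
  refine Measurable.mul ?_ ?_
  · have : Continuous fun x : EuclideanSpace ℝ (Fin d) × EuclideanSpace ℝ (Fin d) => x.2 i := by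
      fun_prop
    exact this.measurable
  · exact (measurable_fderiv_apply_const ℝ p _).comp measurable_fst

/-- inner integral -/
noncomputable def inn (p : Seminorm ℝ (EuclideanSpace ℝ (Fin d)))
    (z : EuclideanSpace ℝ (Fin d)) : ℝ≥0∞ :=
  ∫⁻ z' in {y : EuclideanSpace ℝ (Fin d) | p y ≤ 1}, ENNReal.ofReal |fderiv ℝ p z z'|

theorem inn_le (p : Seminorm ℝ (EuclideanSpace ℝ (Fin d))) (hcont : Continuous p)
    (z : EuclideanSpace ℝ (Fin d)) :
    inn p z ≤ volume {y : EuclideanSpace ℝ (Fin d) | p y ≤ 1} := by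
  have hm1 : MeasurableSet {y : EuclideanSpace ℝ (Fin d) | p y ≤ 1} :=
    (isClosed_le hcont continuous_const).measurableSet
  calc inn p z ≤ ∫⁻ _ in {y : EuclideanSpace ℝ (Fin d) | p y ≤ 1}, 1 := by
        refine setLIntegral_mono' hm1 fun z' hz' => ?_
        rw [← ENNReal.ofReal_one]
        exact ENNReal.ofReal_le_ofReal ((fderiv_abs_le p z z').trans hz')
    _ = _ := by simp

theorem inn_lower (p : Seminorm ℝ (EuclideanSpace ℝ (Fin d))) (hcont : Continuous p)
    (h0 : volume {y : EuclideanSpace ℝ (Fin d) | p y ≤ 1} ≠ 0)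
    (hfin : volume {y : EuclideanSpace ℝ (Fin d) | p y ≤ 1} ≠ ⊤)
    (z : EuclideanSpace ℝ (Fin d)) (hz : DifferentiableAt ℝ p z) (hz0 : 0 < p z) :
    ENNReal.ofReal (1 / (8 * (d + 2))) * volume {y : EuclideanSpace ℝ (Fin d) | p y ≤ 1}
      ≤ inn p z := by
  by_contra hcon
  push Not at hcon
  have hlog2 := Real.log_pos (by norm_num : (1 : ℝ) < 2)
  have h1 := avg_func (ι := Unit) p hcont h0 hfin (fun _ => (p z)⁻¹ • z)
    (by
      intro _
      rw [map_smul_eq_mul, Real.norm_of_nonneg (by positivity), inv_mul_cancel₀ hz0.ne'])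
    1 1 (2 ^ d) one_pos le_rfl
    (by
      intro y
      simp only [Finset.univ_unique, Finset.sum_singleton]
      split_ifs <;> norm_num)
    (by simp)
    (fderiv ℝ p z) (1 / (8 * (d + 2))) (by positivity) hcon.le
  have e1 : fderiv ℝ p z ((p z)⁻¹ • z) = 1 := by
    rw [map_smul, euler p z hz, smul_eq_mul, inv_mul_cancel₀ hz0.ne']
  simp only [Finset.univ_unique, Finset.sum_singleton, e1, abs_one, Fintype.card_unit,
    Nat.cast_one, one_mul] at h1
  rw [Real.log_mul (by norm_num) (by positivity), Real.log_pow] at h1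
  have h3 : Real.log 3 < 2 * Real.log 2 := by
    have : (2 : ℝ) * Real.log 2 = Real.log 4 := by
      rw [show (4 : ℝ) = 2 ^ 2 by norm_num, Real.log_pow]; norm_num
    rw [this]
    exact Real.log_lt_log (by norm_num) (by norm_num)
  have h4 : 8 * (1 / (8 * ((d : ℝ) + 2))) / Real.log 2 * (Real.log 3 + d * Real.log 2)
      = (Real.log 3 + d * Real.log 2) / ((d + 2) * Real.log 2) := by
    field_simp
  rw [h4, le_div_iff₀ (by positivity)] at h1
  nlinarith

theorem total_lower (hd : 2 ≤ d) (p : Seminorm ℝ (EuclideanSpace ℝ (Fin d)))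
    (hcont : Continuous p)
    (h0 : volume {y : EuclideanSpace ℝ (Fin d) | p y ≤ 1} ≠ 0)
    (hfin : volume {y : EuclideanSpace ℝ (Fin d) | p y ≤ 1} ≠ ⊤) (ρ : ℝ) (hρ0 : 0 ≤ ρ)
    (hF : ∫⁻ z in {y : EuclideanSpace ℝ (Fin d) | p y ≤ 1}, inn p z
      ≤ ENNReal.ofReal ρ * (volume {y : EuclideanSpace ℝ (Fin d) | p y ≤ 1}
        * volume {y : EuclideanSpace ℝ (Fin d) | p y ≤ 1})) :
    3 / (32 * ((d : ℝ) + 2)) ≤ ρ := by
  set V := volume {y : EuclideanSpace ℝ (Fin d) | p y ≤ 1} with hV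
  have hm1 : MeasurableSet {y : EuclideanSpace ℝ (Fin d) | p y ≤ 1} :=
    (isClosed_le hcont continuous_const).measurableSet
  have hmh : MeasurableSet {y : EuclideanSpace ℝ (Fin d) | p y ≤ 1 / 2} :=
    (isClosed_le hcont continuous_const).measurableSet
  set S : Set (EuclideanSpace ℝ (Fin d)) := {y | p y ≤ 1} \ {y | p y ≤ 1 / 2} with hS
  have hSm : MeasurableSet S := hm1.diff hmh
  have hSvol : ENNReal.ofReal (3 / 4) * V ≤ volume S := by
    have h1 : volume {y : EuclideanSpace ℝ (Fin d) | p y ≤ 1 / 2} ≤ ENNReal.ofReal (1 / 4) * V := by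
      rw [vol_ball' p (1 / 2) (by norm_num)]
      gcongr
      calc (1 / 2 : ℝ) ^ d ≤ (1 / 2) ^ 2 := pow_le_pow_of_le_one (by norm_num) (by norm_num) hd
        _ = 1 / 4 := by norm_num
    have h2 : V ≤ volume S + volume {y : EuclideanSpace ℝ (Fin d) | p y ≤ 1 / 2} := by
      refine le_trans (measure_mono ?_) (measure_union_le _ _)
      intro y hy
      by_cases h : p y ≤ 1 / 2
      · exact Or.inr h
      · exact Or.inl ⟨hy, h⟩
    have h3 : ENNReal.ofReal (3 / 4) * V + ENNReal.ofReal (1 / 4) * V = V := by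
      rw [← add_mul, ← ENNReal.ofReal_add (by norm_num) (by norm_num)]
      norm_num
    have h4 : ENNReal.ofReal (3 / 4) * V + ENNReal.ofReal (1 / 4) * V
        ≤ volume S + ENNReal.ofReal (1 / 4) * V := by
      rw [h3]
      exact h2.trans (by gcongr)
    exact (ENNReal.add_le_add_iff_right (ENNReal.mul_ne_top ENNReal.ofReal_ne_top hfin)).mp h4
  have h5 : ENNReal.ofReal (3 / (32 * ((d : ℝ) + 2))) * (V * V)
      ≤ ENNReal.ofReal ρ * (V * V) := by
    refine le_trans ?_ hF
    calc ENNReal.ofReal (3 / (32 * ((d : ℝ) + 2))) * (V * V)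
        = (ENNReal.ofReal (1 / (8 * (d + 2))) * V) * (ENNReal.ofReal (3 / 4) * V) := by
          have : (3 / (32 * ((d : ℝ) + 2))) = (1 / (8 * (d + 2))) * (3 / 4) := by
            field_simp; norm_num
          rw [this, ENNReal.ofReal_mul (by positivity)]
          ring
      _ ≤ (ENNReal.ofReal (1 / (8 * (d + 2))) * V) * volume S := by gcongr
      _ = ∫⁻ _ in S, ENNReal.ofReal (1 / (8 * (d + 2))) * V := by rw [setLIntegral_const]
      _ ≤ ∫⁻ z in S, inn p z := by
          refine setLIntegral_mono_ae' hSm ?_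
          filter_upwards [ae_diff p hcont] with z hz hzS
          refine inn_lower p hcont h0 hfin z hz ?_
          have : ¬ p z ≤ 1 / 2 := hzS.2
          push Not at this
          linarith
      _ ≤ ∫⁻ z in {y : EuclideanSpace ℝ (Fin d) | p y ≤ 1}, inn p z :=
          lintegral_mono_set sdiff_subset
  have hVV0 : V * V ≠ 0 := mul_ne_zero h0 h0
  have hVVt : V * V ≠ ⊤ := ENNReal.mul_ne_top hfin hfin
  have h6 := (ENNReal.mul_le_mul_iff_left hVV0 hVVt).mp h5
  exact (ENNReal.ofReal_le_ofReal_iff hρ0).mp h6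

/-- averaged derivative bound at a point -/
theorem avg_point {ι : Type*} [Fintype ι] [Nonempty ι] (p : Seminorm ℝ (EuclideanSpace ℝ (Fin d)))
    (hcont : Continuous p)
    (h0 : volume {y : EuclideanSpace ℝ (Fin d) | p y ≤ 1} ≠ 0)
    (hfin : volume {y : EuclideanSpace ℝ (Fin d) | p y ≤ 1} ≠ ⊤)
    (u : ι → EuclideanSpace ℝ (Fin d)) (hu : ∀ i, p (u i) ≤ 1) (r q D : ℝ) (hr0 : 0 < r)
    (hr1 : r ≤ 1)
    (hq : ∀ y : EuclideanSpace ℝ (Fin d),
      (∑ i : ι, if p (u i - y) ≤ r then (1 : ℝ) else 0) ≤ q)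
    (hD : q * 2 ^ d ≤ D * Fintype.card ι * r ^ d) (hlD : 0 < Real.log (3 * D))
    (z : EuclideanSpace ℝ (Fin d)) :
    (∑ i, ENNReal.ofReal |fderiv ℝ p z (u i)|) * volume {y : EuclideanSpace ℝ (Fin d) | p y ≤ 1}
      ≤ ENNReal.ofReal (Fintype.card ι * (8 / Real.log 2 * Real.log (3 * D))) * inn p z := by
  set V := volume {y : EuclideanSpace ℝ (Fin d) | p y ≤ 1} with hV
  have hlog2 := Real.log_pos (by norm_num : (1 : ℝ) < 2)
  have hm : (0 : ℝ) < Fintype.card ι := by exact_mod_cast Fintype.card_pos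
  have hinn := inn_le p hcont z
  have hinnt : inn p z ≠ ⊤ := ne_top_of_le_ne_top hfin hinn
  have hVr : 0 < V.toReal := ENNReal.toReal_pos h0 hfin
  set C : ℝ := Fintype.card ι * (8 / Real.log 2 * Real.log (3 * D)) with hC
  have hC0 : 0 < C := by positivity
  set s₀ : ℝ := (inn p z).toReal / V.toReal with hs₀
  have hs₀0 : 0 ≤ s₀ := by positivity
  have key : ∑ i, |fderiv ℝ p z (u i)| ≤ C * s₀ := by
    by_contra hcon
    push Not at hcon
    set T := ∑ i, |fderiv ℝ p z (u i)| with hT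
    set s : ℝ := (T / C + s₀) / 2 with hs
    have h1 : s₀ < T / C := by
      rw [lt_div_iff₀ hC0]; linarith
    have h2 : s₀ < s := by rw [hs]; linarith
    have h3 : s < T / C := by rw [hs]; linarith
    have h4 := avg_func p hcont h0 hfin u hu r q D hr0 hr1 hq hD (fderiv ℝ p z) s
      (by linarith) (by
        show inn p z ≤ ENNReal.ofReal s * V
        rw [← ENNReal.toReal_le_toReal hinnt (ENNReal.mul_ne_top ENNReal.ofReal_ne_top hfin),
          ENNReal.toReal_mul, ENNReal.toReal_ofReal (by linarith)]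
        have : (inn p z).toReal = s₀ * V.toReal := by
          rw [hs₀]; field_simp
        rw [this]
        gcongr)
    have h5 : (Fintype.card ι : ℝ) * (8 * s / Real.log 2 * Real.log (3 * D)) = C * s := by
      rw [hC]; ring
    rw [h5] at h4
    rw [lt_div_iff₀ hC0] at h3
    linarith
  rw [← ENNReal.ofReal_sum_of_nonneg (fun i _ => abs_nonneg _),
    ← ENNReal.toReal_le_toReal (ENNReal.mul_ne_top ENNReal.ofReal_ne_top hfin)
      (ENNReal.mul_ne_top ENNReal.ofReal_ne_top hinnt), ENNReal.toReal_mul, ENNReal.toReal_mul,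
    ENNReal.toReal_ofReal (Finset.sum_nonneg fun i _ => abs_nonneg _), ENNReal.toReal_ofReal hC0.le]
  have : (inn p z).toReal = s₀ * V.toReal := by
    rw [hs₀]; field_simp
  rw [this, ← mul_assoc]
  gcongr

/-- total escape bound -/
theorem esc_total {ι : Type*} [Fintype ι] [Nonempty ι]
    (p : Seminorm ℝ (EuclideanSpace ℝ (Fin d)))
    (hcont : Continuous p)
    (h0 : volume {y : EuclideanSpace ℝ (Fin d) | p y ≤ 1} ≠ 0)
    (hfin : volume {y : EuclideanSpace ℝ (Fin d) | p y ≤ 1} ≠ ⊤)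
    (u : ι → EuclideanSpace ℝ (Fin d)) (hu : ∀ i, p (u i) ≤ 1) (r q D : ℝ) (hr0 : 0 < r)
    (hr1 : r ≤ 1)
    (hq : ∀ y : EuclideanSpace ℝ (Fin d),
      (∑ i : ι, if p (u i - y) ≤ r then (1 : ℝ) else 0) ≤ q)
    (hD : q * 2 ^ d ≤ D * Fintype.card ι * r ^ d) (hlD : 0 < Real.log (3 * D))
    (ρ : ℝ) (hρ0 : 0 ≤ ρ)
    (hF : ∫⁻ z in {y : EuclideanSpace ℝ (Fin d) | p y ≤ 1}, inn p z
      ≤ ENNReal.ofReal ρ * (volume {y : EuclideanSpace ℝ (Fin d) | p y ≤ 1}
        * volume {y : EuclideanSpace ℝ (Fin d) | p y ≤ 1}))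
    (t τ ε : ℝ) (hτ : 0 < τ) (hε : 0 < ε) (M : ℕ) (hM : (M : ℝ) * ε = t) :
    ∑ i, volume {z : EuclideanSpace ℝ (Fin d) | p z ≤ 1 ∧ 1 + τ ≤ p (z + t • u i)}
      ≤ ENNReal.ofReal (t / τ * (1 + τ + ε) ^ d
          * (Fintype.card ι * (8 / Real.log 2 * Real.log (3 * D))) * ρ)
        * volume {y : EuclideanSpace ℝ (Fin d) | p y ≤ 1} := by
  set V := volume {y : EuclideanSpace ℝ (Fin d) | p y ≤ 1} with hV
  have hlog2 := Real.log_pos (by norm_num : (1 : ℝ) < 2)
  have ht0 : 0 ≤ t := by rw [← hM]; positivity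
  rw [← ENNReal.mul_le_mul_iff_left h0 hfin]
  calc (∑ i, volume {z : EuclideanSpace ℝ (Fin d) | p z ≤ 1 ∧ 1 + τ ≤ p (z + t • u i)}) * V
      ≤ (∑ i, ENNReal.ofReal (t / τ * (1 + τ + ε) ^ d) *
        ∫⁻ z in {z : EuclideanSpace ℝ (Fin d) | p z ≤ 1},
          ENNReal.ofReal |fderiv ℝ p z (u i)|) * V := by
        gcongr with i _
        exact escape p hcont (u i) (hu i) t τ ε hτ hε M hM
    _ = ENNReal.ofReal (t / τ * (1 + τ + ε) ^ d) *
        ∫⁻ z in {z : EuclideanSpace ℝ (Fin d) | p z ≤ 1},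
          (∑ i, ENNReal.ofReal |fderiv ℝ p z (u i)|) * V := by
        rw [← Finset.mul_sum, mul_assoc, lintegral_mul_const' _ _ hfin, lintegral_finsetSum]
        intro i _
        exact (measurable_fderiv_apply_const ℝ p (u i)).abs.ennreal_ofReal
    _ ≤ ENNReal.ofReal (t / τ * (1 + τ + ε) ^ d) *
        ∫⁻ z in {z : EuclideanSpace ℝ (Fin d) | p z ≤ 1},
          ENNReal.ofReal (Fintype.card ι * (8 / Real.log 2 * Real.log (3 * D))) * inn p z := by
        refine mul_le_mul' le_rfl (lintegral_mono fun z => ?_)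
        exact avg_point p hcont h0 hfin u hu r q D hr0 hr1 hq hD hlD z
    _ = ENNReal.ofReal (t / τ * (1 + τ + ε) ^ d) *
        (ENNReal.ofReal (Fintype.card ι * (8 / Real.log 2 * Real.log (3 * D))) *
        ∫⁻ z in {z : EuclideanSpace ℝ (Fin d) | p z ≤ 1}, inn p z) := by
        rw [lintegral_const_mul' _ _ ENNReal.ofReal_ne_top]
    _ ≤ ENNReal.ofReal (t / τ * (1 + τ + ε) ^ d) *
        (ENNReal.ofReal (Fintype.card ι * (8 / Real.log 2 * Real.log (3 * D))) *
        (ENNReal.ofReal ρ * (V * V))) := by gcongr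
    _ = _ := by
        have hh : ENNReal.ofReal (t / τ * (1 + τ + ε) ^ d
            * (Fintype.card ι * (8 / Real.log 2 * Real.log (3 * D))) * ρ)
            = ENNReal.ofReal (t / τ * (1 + τ + ε) ^ d)
            * ENNReal.ofReal (Fintype.card ι * (8 / Real.log 2 * Real.log (3 * D)))
            * ENNReal.ofReal ρ := by
          rw [ENNReal.ofReal_mul (by positivity), ENNReal.ofReal_mul (by positivity)]
        rw [hh]
        ring

/-- total non-escape bound -/
theorem stay_total {ι : Type*} [Fintype ι] [Nonempty ι]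
    (p : Seminorm ℝ (EuclideanSpace ℝ (Fin d)))
    (hcont : Continuous p)
    (h0 : volume {y : EuclideanSpace ℝ (Fin d) | p y ≤ 1} ≠ 0)
    (hfin : volume {y : EuclideanSpace ℝ (Fin d) | p y ≤ 1} ≠ ⊤)
    (u : ι → EuclideanSpace ℝ (Fin d)) (hu : ∀ i, p (u i) ≤ 1) (r q D : ℝ) (hr0 : 0 < r)
    (hr1 : r ≤ 1)
    (hq : ∀ y : EuclideanSpace ℝ (Fin d),
      (∑ i : ι, if p (u i - y) ≤ r then (1 : ℝ) else 0) ≤ q)
    (hD : q * 2 ^ d ≤ D * Fintype.card ι * r ^ d)
    (t τ v : ℝ) (ht1 : t ≤ 1) (htv : t = τ + v) :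
    ∑ i, volume {z : EuclideanSpace ℝ (Fin d) | p z ≤ 1 ∧ p (z + t • u i) ≤ 1 + τ}
      ≤ ENNReal.ofReal (D * Fintype.card ι * Real.exp (- (r * v / 2)) ^ d)
        * volume {y : EuclideanSpace ℝ (Fin d) | p y ≤ 1} := by
  classical
  set V := volume {y : EuclideanSpace ℝ (Fin d) | p y ≤ 1} with hV
  have hm : (0 : ℝ) < Fintype.card ι := by exact_mod_cast Fintype.card_pos
  have hq0 : 0 ≤ q := by
    refine le_trans ?_ (hq 0)
    exact Finset.sum_nonneg fun i _ => by split_ifs <;> norm_num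
  have hD0 : 0 ≤ D := by
    by_contra h
    push Not at h
    have h1 : D * Fintype.card ι * r ^ d < 0 := by
      have : 0 < Fintype.card ι * r ^ d := by positivity
      nlinarith
    have h2 : 0 ≤ q * 2 ^ d := by positivity
    linarith
  set R : ℝ := 2 * Real.exp (- (r * v / 2)) with hR
  have hR0 : 0 < R := by positivity
  have hRge : 1 + r * (1 - v) ≤ R := by
    have := Real.add_one_le_exp (- (r * v / 2))
    rw [hR]
    nlinarith
  have hmR : MeasurableSet {y : EuclideanSpace ℝ (Fin d) | p y ≤ R} :=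
    (isClosed_le hcont continuous_const).measurableSet
  have hsub : ∀ i, {z : EuclideanSpace ℝ (Fin d) | p z ≤ 1 ∧ p (z + t • u i) ≤ 1 + τ}
      ⊆ {z : EuclideanSpace ℝ (Fin d) | p z ≤ 1 ∧ p (u i + r • z) ≤ R} := by
    rintro i z ⟨hz1, hz2⟩
    refine ⟨hz1, le_trans ?_ hRge⟩
    have e : u i + r • z = r • (z + t • u i) + (1 - r * t) • u i := by
      rw [smul_add, smul_smul, sub_smul, one_smul]
      abel
    have hrt : 0 ≤ 1 - r * t := by nlinarith
    calc p (u i + r • z) = p (r • (z + t • u i) + (1 - r * t) • u i) := by rw [e]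
      _ ≤ p (r • (z + t • u i)) + p ((1 - r * t) • u i) := map_add_le_add _ _ _
      _ = r * p (z + t • u i) + (1 - r * t) * p (u i) := by
          rw [map_smul_eq_mul, map_smul_eq_mul, Real.norm_of_nonneg hr0.le,
            Real.norm_of_nonneg hrt]
      _ ≤ r * (1 + τ) + (1 - r * t) * 1 := by
          gcongr
          exact hu i
      _ = 1 + r * (1 - v) := by rw [htv]; ring
  set f : EuclideanSpace ℝ (Fin d) → ℝ≥0∞ :=
    ({y : EuclideanSpace ℝ (Fin d) | p y ≤ R}).indicator 1 with hf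
  have hfm : Measurable f := measurable_one.indicator hmR
  have h1 : ∀ i, ENNReal.ofReal (r ^ d) *
      volume {z : EuclideanSpace ℝ (Fin d) | p z ≤ 1 ∧ p (u i + r • z) ≤ R}
      = ∫⁻ z in {z : EuclideanSpace ℝ (Fin d) | p z ≤ r}, f (u i + z) := by
    intro i
    rw [setLint_smul p hcont (fun z => f (u i + z)) (hfm.comp (measurable_const_add _)) r hr0]
    congr 1
    have hm1 : MeasurableSet {y : EuclideanSpace ℝ (Fin d) | p y ≤ 1} :=
      (isClosed_le hcont continuous_const).measurableSet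
    have hm2 : MeasurableSet {z : EuclideanSpace ℝ (Fin d) | p (u i + r • z) ≤ R} :=
      (isClosed_le (hcont.comp (continuous_const.add (continuous_const_smul r)))
        continuous_const).measurableSet
    have e : (fun z : EuclideanSpace ℝ (Fin d) => f (u i + r • z))
        = ({z : EuclideanSpace ℝ (Fin d) | p (u i + r • z) ≤ R}).indicator 1 := by
      ext z
      rw [hf]
      by_cases h : p (u i + r • z) ≤ R
      · rw [indicator_of_mem (show u i + r • z ∈ {y : EuclideanSpace ℝ (Fin d) | p y ≤ R} from h),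
          indicator_of_mem (show z ∈ {z : EuclideanSpace ℝ (Fin d) | p (u i + r • z) ≤ R} from h)]
        rfl
      · rw [indicator_of_notMem (show u i + r • z ∉ {y : EuclideanSpace ℝ (Fin d) | p y ≤ R} from h),
          indicator_of_notMem
            (show z ∉ {z : EuclideanSpace ℝ (Fin d) | p (u i + r • z) ≤ R} from h)]
    rw [e, lintegral_indicator_one hm2, Measure.restrict_apply hm2]
    congr 1
    ext z
    simp only [mem_inter_iff, mem_ofPred_eq]
    exact and_comm
  have hrd : (0 : ℝ) < r ^ d := by positivity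
  have hrd0 : ENNReal.ofReal (r ^ d) ≠ 0 := (ENNReal.ofReal_pos.mpr hrd).ne'
  rw [← ENNReal.mul_le_mul_iff_right hrd0 ENNReal.ofReal_ne_top]
  calc ENNReal.ofReal (r ^ d) *
        ∑ i, volume {z : EuclideanSpace ℝ (Fin d) | p z ≤ 1 ∧ p (z + t • u i) ≤ 1 + τ}
      ≤ ENNReal.ofReal (r ^ d) *
        ∑ i, volume {z : EuclideanSpace ℝ (Fin d) | p z ≤ 1 ∧ p (u i + r • z) ≤ R} := by
        refine mul_le_mul' le_rfl (Finset.sum_le_sum fun i _ => ?_)
        exact measure_mono (hsub i)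
    _ = ∑ i, ∫⁻ z in {z : EuclideanSpace ℝ (Fin d) | p z ≤ r}, f (u i + z) := by
        rw [Finset.mul_sum]
        exact Finset.sum_congr rfl fun i _ => h1 i
    _ ≤ ENNReal.ofReal q * ∫⁻ y in {y : EuclideanSpace ℝ (Fin d) | p y ≤ 2}, f y :=
        transfer p hcont u hu r q hr1 hq f hfm
    _ ≤ ENNReal.ofReal q * ∫⁻ y, f y := by
        gcongr
        exact Measure.restrict_le_self
    _ = ENNReal.ofReal q * (ENNReal.ofReal (R ^ d) * V) := by
        rw [hf, lintegral_indicator_one hmR, vol_ball' p R hR0]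
    _ = ENNReal.ofReal (q * 2 ^ d * Real.exp (- (r * v / 2)) ^ d) * V := by
        rw [← mul_assoc, ← ENNReal.ofReal_mul hq0, hR, mul_pow]
        congr 2
        ring
    _ ≤ ENNReal.ofReal (D * Fintype.card ι * r ^ d * Real.exp (- (r * v / 2)) ^ d) * V := by
        gcongr
    _ = _ := by
        rw [← mul_assoc, ← ENNReal.ofReal_mul hrd.le]
        congr 2
        ring

end Pool.Agent.H815R2.Flat
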