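import Mathlib
import Pool.Agent.H815R2.FlatCore
import Pool.Agent.H815R2.HadCover

set_option autoImplicit false

/-!
The covering bound in terms of the flatness functional.
-/

namespace Pool.Agent.H815R2.Flat

open MeasureTheory Set
open scoped ENNReal Pointwise NNReal

variable {d : ℕ}

theorem exp_le_303 (d : ℕ) (hd : 1 ≤ d) : (1 + 11 / 10 / (d : ℝ)) ^ d ≤ 3.03 := by
  have hd' : (0 : ℝ) < d := by exact_mod_cast hd
  have h1 : 1 + 11 / 10 / (d : ℝ) ≤ Real.exp (11 / 10 / d) := by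
    have := Real.add_one_le_exp (11 / 10 / (d : ℝ))
    linarith
  have h2 : (1 + 11 / 10 / (d : ℝ)) ^ d ≤ Real.exp (11 / 10) := by
    calc (1 + 11 / 10 / (d : ℝ)) ^ d ≤ (Real.exp (11 / 10 / d)) ^ d := by gcongr
      _ = Real.exp (11 / 10) := by
        rw [← Real.exp_nat_mul]; congr 1; field_simp
  have h3 : Real.exp (11 / 10) = Real.exp 1 * Real.exp (1 / 10) := by
    rw [← Real.exp_add]; norm_num
  have h4 : Real.exp (1 / 10) ≤ 10 / 9 := by
    have h5 := Real.add_one_le_exp (-(1 / 10 : ℝ))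
    rw [Real.exp_neg] at h5
    have h6 : 0 < Real.exp (1 / 10) := Real.exp_pos _
    have h7 : (9 / 10 : ℝ) ≤ (Real.exp (1 / 10))⁻¹ := by linarith
    rw [le_inv_comm₀ (by norm_num) h6] at h7
    linarith
  have h5 := Real.exp_one_lt_d9
  have h6 := Real.exp_pos 1
  rw [h3] at h2
  nlinarith [Real.exp_pos (1 / 10 : ℝ)]

theorem num_bound (d : ℕ) (hd14 : (14 : ℝ) ≤ d) (lam ρ τ ε t m : ℝ) (hlam1 : 1 ≤ lam)
    (hρ0 : 0 ≤ ρ) (hm : 0 < m) (hτ : τ = 1 / (d : ℝ)) (hε0 : 0 < ε) (hεle : ε ≤ 1 / (10 * d))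
    (ht : t = τ + 2 * lam / (d - 1)) (h169 : 169 * lam ^ 2 * ρ ≤ 1) :
    t / τ * (1 + τ + ε) ^ d * (m * (8 / Real.log 2 * lam)) * ρ ≤ 0.66 * m := by
  have hdm1 : (0 : ℝ) < d - 1 := by linarith
  have hd0 : (0 : ℝ) < d := by linarith
  have hτ0 : 0 < τ := by rw [hτ]; positivity
  have hlog2 : 0.6931471803 < Real.log 2 := Real.log_two_gt_d9
  have hlog2' : 0 < Real.log 2 := by linarith
  have hl2 : 8 / Real.log 2 ≤ 11.5416 := by
    rw [div_le_iff₀ (by linarith)]
    nlinarith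
  have hpow : (1 + τ + ε) ^ d ≤ 3.03 := by
    have hd1 : 1 ≤ d := by
      have : (1 : ℝ) ≤ d := by linarith
      exact_mod_cast this
    refine le_trans ?_ (exp_le_303 d hd1)
    have : τ + ε ≤ 11 / 10 / (d : ℝ) := by
      have e1 : 11 / 10 / (d : ℝ) = 1 / d + 1 / (10 * d) := by
        field_simp; norm_num
      rw [e1, hτ]
      linarith
    exact pow_le_pow_left₀ (by positivity) (by linarith) _
  have htτ : t / τ ≤ lam * (41 / 13) := by
    have e1 : t / τ = 1 + 2 * lam * (d / (d - 1)) := by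
      rw [ht, hτ]
      have : (d : ℝ) ≠ 0 := by linarith
      field_simp
    have e2 : (d : ℝ) / (d - 1) ≤ 14 / 13 := by
      rw [div_le_div_iff₀ hdm1 (by norm_num)]
      linarith
    rw [e1]
    nlinarith
  have ht0 : 0 ≤ t / τ := by
    rw [ht]
    have : 0 < 2 * lam / ((d : ℝ) - 1) := by
      have : 0 < lam := by linarith
      positivity
    positivity
  have hlam0 : 0 < lam := by linarith
  calc t / τ * (1 + τ + ε) ^ d * (m * (8 / Real.log 2 * lam)) * ρ
      ≤ (lam * (41 / 13)) * 3.03 * (m * (11.5416 * lam)) * ρ := by gcongr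
    _ = (41 / 13 * 3.03 * 11.5416 / 169) * m * (169 * lam ^ 2 * ρ) := by ring
    _ ≤ (41 / 13 * 3.03 * 11.5416 / 169) * m * 1 := by gcongr
    _ ≤ 0.66 * m := by
        rw [mul_one]
        exact mul_le_mul_of_nonneg_right (by norm_num) hm.le

/-- the core contradiction -/
theorem core {ι : Type*} [Fintype ι] [Nonempty ι] (hd : 2 ≤ d)
    (p : Seminorm ℝ (EuclideanSpace ℝ (Fin d)))
    (hcont : Continuous p)
    (h0 : volume {y : EuclideanSpace ℝ (Fin d) | p y ≤ 1} ≠ 0)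
    (hfin : volume {y : EuclideanSpace ℝ (Fin d) | p y ≤ 1} ≠ ⊤)
    (ρ lam : ℝ) (hρ0 : 0 ≤ ρ) (hlam : 0 < lam) (h169 : 169 * lam ^ 2 * ρ ≤ 1)
    (hF : ∫⁻ z in {y : EuclideanSpace ℝ (Fin d) | p y ≤ 1}, inn p z
      ≤ ENNReal.ofReal ρ * (volume {y : EuclideanSpace ℝ (Fin d) | p y ≤ 1}
        * volume {y : EuclideanSpace ℝ (Fin d) | p y ≤ 1}))
    (u : ι → EuclideanSpace ℝ (Fin d)) (hu : ∀ i, p (u i) ≤ 1) (θ : ℝ)
    (hθ : θ = Real.exp lam / 3 * ((1 - 1 / (d : ℝ)) / 2) ^ d)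
    (hq : ∀ y : EuclideanSpace ℝ (Fin d),
      (∑ i : ι, if p (u i - y) ≤ 1 - 1 / (d : ℝ) then (1 : ℝ) else 0) ≤ θ * Fintype.card ι) :
    False := by
  classical
  set V := volume {y : EuclideanSpace ℝ (Fin d) | p y ≤ 1} with hV
  have hd' : (2 : ℝ) ≤ d := by exact_mod_cast hd
  set r : ℝ := 1 - 1 / (d : ℝ) with hr
  have hdi : 1 / (d : ℝ) ≤ 1 / 2 := one_div_le_one_div_of_le (by norm_num) hd'
  have hdi0 : 0 < 1 / (d : ℝ) := by positivity
  have hr0 : 0 < r := by rw [hr]; linarith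
  have hr1 : r ≤ 1 := by rw [hr]; linarith
  set D : ℝ := Real.exp lam / 3 with hD
  have hD0 : 0 < D := by positivity
  have hm : (0 : ℝ) < Fintype.card ι := by exact_mod_cast Fintype.card_pos
  have hqD : θ * Fintype.card ι * 2 ^ d = D * Fintype.card ι * r ^ d := by
    rw [hθ, div_pow]
    field_simp
  have hlog : Real.log (3 * D) = lam := by
    rw [hD]
    rw [show 3 * (Real.exp lam / 3) = Real.exp lam by ring, Real.log_exp]
  -- D ≥ 1
  have hD1 : 1 ≤ D := by
    have h1 := transfer p hcont u hu r _ hr1 hq (fun _ => 1) measurable_const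
    simp only [lintegral_const, Measure.restrict_apply MeasurableSet.univ, univ_inter, one_mul,
      Finset.sum_const, nsmul_eq_mul, Finset.card_univ] at h1
    rw [vol_ball' p r hr0, vol_ball' p 2 (by norm_num), ← mul_assoc, ← mul_assoc,
      ENNReal.mul_le_mul_iff_left h0 hfin, ← ENNReal.ofReal_natCast,
      ← ENNReal.ofReal_mul (by positivity),
      ← ENNReal.ofReal_mul (by rw [hθ]; positivity),
      ENNReal.ofReal_le_ofReal_iff (by rw [hθ]; positivity), hqD] at h1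
    have h2 : 0 < (Fintype.card ι : ℝ) * r ^ d := by positivity
    have h3 : 1 * ((Fintype.card ι : ℝ) * r ^ d) ≤ D * ((Fintype.card ι : ℝ) * r ^ d) := by
      linarith
    exact le_of_mul_le_mul_right h3 h2
  have hlam1 : 1 ≤ lam := by
    by_contra hcon
    push Not at hcon
    have h1 : Real.exp lam < Real.exp 1 := Real.exp_lt_exp.mpr hcon
    have h2 := Real.exp_one_lt_d9
    rw [hD, le_div_iff₀ (by norm_num)] at hD1
    linarith
  -- numerics on `d`
  have hρlow := total_lower hd p hcont h0 hfin ρ hρ0 hF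
  have hlamsq : lam ^ 2 ≤ 32 * ((d : ℝ) + 2) / 507 := by
    have h1 : 169 * lam ^ 2 * (3 / (32 * ((d : ℝ) + 2))) ≤ 1 := by
      refine le_trans ?_ h169
      gcongr
    rw [← mul_div_assoc, div_le_one (by positivity)] at h1
    rw [le_div_iff₀ (by norm_num)]
    linarith
  have hd14 : (14 : ℝ) ≤ d := by
    have h1 : (1 : ℝ) ≤ 32 * ((d : ℝ) + 2) / 507 := by nlinarith
    rw [le_div_iff₀ (by norm_num)] at h1
    have h2 : (13 : ℝ) < d := by linarith
    have h3 : 13 < d := by exact_mod_cast h2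
    exact_mod_cast (by omega : 14 ≤ d)
  have hlamd : lam ≤ d / 4 := by
    have h1 : lam ^ 2 ≤ (d / 4 : ℝ) ^ 2 := by
      refine hlamsq.trans ?_
      rw [div_le_iff₀ (by norm_num)]
      nlinarith
    exact (pow_le_pow_iff_left₀ hlam.le (by positivity) two_ne_zero).mp h1
  -- parameters
  have hdm1 : (0 : ℝ) < d - 1 := by linarith
  set v : ℝ := 2 * lam / (d - 1) with hv
  have hv0 : 0 < v := by positivity
  set τ : ℝ := 1 / (d : ℝ) with hτ
  have hτ0 : 0 < τ := hdi0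
  set t : ℝ := τ + v with ht
  have ht0 : 0 < t := by positivity
  have hvle : v ≤ 7 / 13 := by
    rw [hv, div_le_iff₀ hdm1]
    nlinarith
  have hτle : τ ≤ 1 / 14 := by
    rw [hτ]
    exact one_div_le_one_div_of_le (by norm_num) hd14
  have ht1 : t ≤ 1 := by rw [ht]; linarith
  set M : ℕ := ⌈10 * t * d⌉₊ with hM
  have hMpos : 0 < M := Nat.ceil_pos.mpr (by positivity)
  have hM0 : (0 : ℝ) < M := by exact_mod_cast hMpos
  have hMge : 10 * t * d ≤ M := Nat.le_ceil _
  set ε : ℝ := t / M with hε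
  have hε0 : 0 < ε := by positivity
  have hεle : ε ≤ 1 / (10 * d) := by
    rw [hε, div_le_div_iff₀ hM0 (by positivity)]
    linarith
  have hMε : (M : ℝ) * ε = t := by
    rw [hε]; field_simp
  have hesc := esc_total p hcont h0 hfin u hu r _ D hr0 hr1 hq hqD.le
    (by rw [hlog]; exact hlam) ρ hρ0 hF t τ ε hτ0 hε0 M hMε
  have hstay := stay_total p hcont h0 hfin u hu r _ D hr0 hr1 hq hqD.le t τ v ht1 ht
  rw [hlog] at hesc
  -- combine
  have hcomb : (Fintype.card ι : ℝ≥0∞) * V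
      ≤ (∑ i, volume {z : EuclideanSpace ℝ (Fin d) | p z ≤ 1 ∧ 1 + τ ≤ p (z + t • u i)})
        + ∑ i, volume {z : EuclideanSpace ℝ (Fin d) | p z ≤ 1 ∧ p (z + t • u i) ≤ 1 + τ} := by
    rw [← Finset.sum_add_distrib]
    calc (Fintype.card ι : ℝ≥0∞) * V = ∑ _i : ι, V := by
          rw [Finset.sum_const, nsmul_eq_mul, Finset.card_univ]
      _ ≤ _ := by
          refine Finset.sum_le_sum fun i _ => ?_
          refine le_trans (measure_mono ?_) (measure_union_le _ _)
          intro z hz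
          rcases le_total (1 + τ) (p (z + t • u i)) with h | h
          · exact Or.inl ⟨hz, h⟩
          · exact Or.inr ⟨hz, h⟩
  have hC2 : Real.exp (-(r * v / 2)) ^ d = Real.exp (-lam) := by
    rw [← Real.exp_nat_mul]
    congr 1
    have e1 : (d : ℝ) * r = d - 1 := by
      rw [hr, hτ]
      field_simp
    have e2 : ((d : ℝ) - 1) * v = 2 * lam := by
      rw [hv]
      field_simp
    calc (d : ℝ) * -(r * v / 2) = -(((d : ℝ) * r) * v / 2) := by ring
      _ = - lam := by rw [e1, e2]; ring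
  have hC2' : D * Fintype.card ι * Real.exp (-(r * v / 2)) ^ d = Fintype.card ι * (1 / 3) := by
    rw [hC2, hD, Real.exp_neg]
    have := Real.exp_pos lam
    field_simp
  rw [hC2'] at hstay
  have hfinal := hcomb.trans (add_le_add hesc hstay)
  rw [← add_mul, ENNReal.mul_le_mul_iff_left h0 hfin] at hfinal
  have hA0 : 0 ≤ t / τ * (1 + τ + ε) ^ d * ((Fintype.card ι : ℝ) * (8 / Real.log 2 * lam)) * ρ := by
    have := Real.log_pos (by norm_num : (1 : ℝ) < 2)
    positivity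
  rw [← ENNReal.ofReal_add hA0 (by positivity), ← ENNReal.ofReal_natCast,
    ENNReal.ofReal_le_ofReal_iff (by positivity)] at hfinal
  have hnum := num_bound d hd14 lam ρ τ ε t (Fintype.card ι) hlam1 hρ0 hm hτ hε0 hεle
    (by rw [ht, hv]) h169
  have : (Fintype.card ι : ℝ) ≤ 0.66 * Fintype.card ι + Fintype.card ι * (1 / 3) := by
    refine hfinal.trans ?_
    exact add_le_add hnum le_rfl
  linarith

theorem quarter_le (d : ℕ) (hd : 2 ≤ d) : (1 / 4 : ℝ) ≤ (1 - 1 / (d : ℝ)) ^ d := by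
  have hd' : (2 : ℝ) ≤ d := by exact_mod_cast hd
  have hdi : 1 / (d : ℝ) ≤ 1 / 2 := one_div_le_one_div_of_le (by norm_num) hd'
  have hpos : 0 ≤ 1 - 1 / (d : ℝ) := by linarith
  have h1 := one_add_mul_self_le_rpow_one_add (s := -(1 / (d : ℝ))) (by linarith)
    (p := (d : ℝ) / 2) (by linarith)
  have e1 : 1 + (d : ℝ) / 2 * -(1 / (d : ℝ)) = 1 / 2 := by
    field_simp
    ring
  rw [e1, ← sub_eq_add_neg] at h1
  have h2 : (1 - 1 / (d : ℝ)) ^ d = ((1 - 1 / (d : ℝ)) ^ ((d : ℝ) / 2)) ^ 2 := by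
    rw [← Real.rpow_natCast, ← Real.rpow_natCast, ← Real.rpow_mul hpos]
    congr 1
    push_cast
    ring
  rw [h2]
  nlinarith

/-- Covering bound in terms of the flatness functional. -/
theorem cover_flat (hd : 2 ≤ d)
    (p : Seminorm ℝ (EuclideanSpace ℝ (Fin d)))
    (hcont : Continuous p)
    (h0 : volume {y : EuclideanSpace ℝ (Fin d) | p y ≤ 1} ≠ 0)
    (hfin : volume {y : EuclideanSpace ℝ (Fin d) | p y ≤ 1} ≠ ⊤)
    (ρ lam : ℝ) (hρ0 : 0 ≤ ρ) (hlam : 0 < lam) (h169 : 169 * lam ^ 2 * ρ ≤ 1)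
    (hF : ∫⁻ z in {y : EuclideanSpace ℝ (Fin d) | p y ≤ 1}, inn p z
      ≤ ENNReal.ofReal ρ * (volume {y : EuclideanSpace ℝ (Fin d) | p y ≤ 1}
        * volume {y : EuclideanSpace ℝ (Fin d) | p y ≤ 1})) :
    ∃ Y : Finset (EuclideanSpace ℝ (Fin d)),
      (Y.card : ℝ) ≤ 1 + 12 * d * Real.log (4 * d + 1) * 2 ^ d * Real.exp (-lam) ∧
      ∀ x, p x ≤ 1 → ∃ y ∈ Y, p (x - y) < 1 := by
  classical
  have hd' : (2 : ℝ) ≤ d := by exact_mod_cast hd
  have hdi : 1 / (d : ℝ) ≤ 1 / 2 := one_div_le_one_div_of_le (by norm_num) hd'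
  have hdi0 : 0 < 1 / (d : ℝ) := by positivity
  set η : ℝ := 1 / (d : ℝ) with hη
  set θ : ℝ := Real.exp lam / 3 * ((1 - η) / 2) ^ d with hθ
  have hθ0 : 0 < θ := by
    have : 0 < 1 - η := by linarith
    positivity
  have hθ1 : θ ≤ 1 := by
    by_contra hcon
    push Not at hcon
    refine core (ι := Unit) hd p hcont h0 hfin ρ lam hρ0 hlam h169 hF (fun _ => 0) (by simp) θ hθ ?_
    intro y
    simp only [Finset.univ_unique, Finset.sum_singleton, Fintype.card_unit, Nat.cast_one, mul_one]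
    split_ifs <;> linarith
  obtain ⟨S, hS1, hS2, hS3⟩ := Pool.Agent.H815R2.Had.exists_net volume p hcont h0 hfin (η / 2)
    (by positivity)
  rw [finrank_euclideanSpace_fin] at hS3
  have hM : (1 + 2 / (η / 2)) = 4 * d + 1 := by
    rw [hη]
    field_simp
    ring
  rw [hM] at hS3
  obtain ⟨Y, hY1, hY2⟩ := Pool.Agent.H815R2.Had.greedy_cover (S := S)
    (E := EuclideanSpace ℝ (Fin d)) (fun y s => p ((s : EuclideanSpace ℝ (Fin d)) - y) ≤ 1 - η) θ
    hθ0 hθ1 (by
      intro A hA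
      have : Nonempty A := hA.to_subtype
      by_contra hcon
      push Not at hcon
      refine core (ι := A) hd p hcont h0 hfin ρ lam hρ0 hlam h169 hF
        (fun a => ((a : S) : EuclideanSpace ℝ (Fin d))) (fun a => hS1 _ (a : S).2) θ hθ ?_
      intro y
      have h1 := hcon y
      rw [Fintype.card_coe]
      refine le_trans (le_of_eq ?_) h1.le
      rw [Finset.card_filter]
      push_cast
      rw [← Finset.sum_coe_sort A])
    ((4 * d + 1) ^ d) (by rw [Fintype.card_coe]; exact hS3)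
    (one_le_pow₀ (by linarith))
  refine ⟨Y, hY1.trans ?_, ?_⟩
  · rw [Real.log_pow]
    have hq := quarter_le d hd
    rw [← hη] at hq
    have hlogpos : 0 ≤ Real.log (4 * d + 1) := Real.log_nonneg (by linarith)
    have h1 : 1 / θ ≤ 12 * 2 ^ d * Real.exp (-lam) := by
      rw [hθ, div_pow, Real.exp_neg]
      have he := Real.exp_pos lam
      have hpow : 0 < (1 - η) ^ d := by linarith
      rw [div_le_iff₀ (by positivity)]
      have : 12 * 2 ^ d * (Real.exp lam)⁻¹ * (Real.exp lam / 3 * ((1 - η) ^ d / 2 ^ d))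
          = 4 * (1 - η) ^ d := by
        field_simp
        ring
      rw [this]
      linarith
    calc (d : ℝ) * Real.log (4 * d + 1) / θ + 1
        = (d : ℝ) * Real.log (4 * d + 1) * (1 / θ) + 1 := by ring
      _ ≤ (d : ℝ) * Real.log (4 * d + 1) * (12 * 2 ^ d * Real.exp (-lam)) + 1 := by gcongr
      _ = _ := by ring
  · intro x hx
    obtain ⟨s, hs, hxs⟩ := hS2 x hx
    obtain ⟨y, hy, hsy⟩ := hY2 ⟨s, hs⟩
    refine ⟨y, hy, ?_⟩
    calc p (x - y) = p ((x - s) + (s - y)) := by congr 1; abel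
      _ ≤ p (x - s) + p (s - y) := map_add_le_add _ _ _
      _ ≤ η / 2 + (1 - η) := add_le_add hxs hsy
      _ < 1 := by linarith

end Pool.Agent.H815R2.Flat
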