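import Mathlib
import Pool.Agent.H815R2.FlatCount
import Pool.Agent.H815R2.HadCover

set_option autoImplicit false

/-!
Thin supporting slabs: drop, stay, count and escape lemmas.
-/

namespace Pool.Agent.H815R2.Thin

open MeasureTheory Set
open scoped ENNReal Pointwise NNReal
open Pool.Agent.H815R2.Flat

variable {d : ℕ}

/-- log-concavity gives geometric decay at rate `κ` -/
theorem geomK (a : ℕ → ℝ) (κ : ℝ) (hκ : 0 ≤ κ) (ha : ∀ k, 0 ≤ a k) (hmono : ∀ k, a (k + 1) ≤ a k)
    (hlc : ∀ k, a k * a (k + 2) ≤ a (k + 1) ^ 2) (h1 : a 1 ≤ κ * a 0) (k : ℕ) :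
    a k ≤ κ ^ k * a 0 := by
  have hstep : ∀ k, a (k + 1) ≤ κ * a k := by
    intro k
    induction k with
    | zero => exact h1
    | succ k ih =>
      rcases (ha k).eq_or_lt with h0 | h0
      · have e1 : a (k + 1) = 0 := le_antisymm (by rw [h0]; exact hmono k) (ha _)
        have e2 : a (k + 1 + 1) = 0 := le_antisymm (by rw [← e1]; exact hmono _) (ha _)
        rw [e1, e2]; simp
      · have h2 := hlc k
        have h3 : a (k + 1) ^ 2 ≤ a (k + 1) * (κ * a k) := by
          rw [sq]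
          exact mul_le_mul_of_nonneg_left ih (ha _)
        have h4 : a k * a (k + 2) ≤ a k * (κ * a (k + 1)) := by
          calc a k * a (k + 2) ≤ a (k + 1) * (κ * a k) := h2.trans h3
            _ = a k * (κ * a (k + 1)) := by ring
        exact le_of_mul_le_mul_left h4 h0
  induction k with
  | zero => simp
  | succ k ih =>
    calc a (k + 1) ≤ κ * a k := hstep k
      _ ≤ κ * (κ ^ k * a 0) := by gcongr
      _ = κ ^ (k + 1) * a 0 := by ring

theorem vol_cone (p P : Seminorm ℝ (EuclideanSpace ℝ (Fin d))) (r : ℝ) (hr : 0 < r) :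
    volume {z : EuclideanSpace ℝ (Fin d) | p z ≤ r ∧ p z ≤ P z}
      = ENNReal.ofReal (r ^ d) * volume {z : EuclideanSpace ℝ (Fin d) | p z ≤ 1 ∧ p z ≤ P z} := by
  have e : {z : EuclideanSpace ℝ (Fin d) | p z ≤ r ∧ p z ≤ P z}
      = r • {z : EuclideanSpace ℝ (Fin d) | p z ≤ 1 ∧ p z ≤ P z} := by
    ext z
    rw [Set.mem_smul_set_iff_inv_smul_mem₀ hr.ne', mem_ofPred_eq, mem_ofPred_eq, map_smul_eq_mul,
      map_smul_eq_mul, Real.norm_of_nonneg (by positivity)]
    have hr' : 0 < r⁻¹ := by positivity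
    rw [mul_le_mul_iff_right₀ hr', inv_mul_le_iff₀ hr, mul_one]
  rw [e, Measure.addHaar_smul, finrank_euclideanSpace_fin, abs_of_pos (by positivity)]

section Drop

variable (p P : Seminorm ℝ (EuclideanSpace ℝ (Fin d)))

theorem cone_diff (hd : 1 < d) (hcont : Continuous p) (hP : Continuous P)
    (hfin : volume {y : EuclideanSpace ℝ (Fin d) | p y ≤ 1} ≠ ⊤) :
    volume ({z : EuclideanSpace ℝ (Fin d) | p z ≤ 1 ∧ p z ≤ P z} \ {z | p z ≤ 1 - 1 / (d : ℝ)})
      = ENNReal.ofReal (1 - (1 - 1 / (d : ℝ)) ^ d)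
        * volume {z : EuclideanSpace ℝ (Fin d) | p z ≤ 1 ∧ p z ≤ P z} := by
  have hd' : (1 : ℝ) < d := by exact_mod_cast hd
  have hr0 : 0 < 1 - 1 / (d : ℝ) := by
    rw [sub_pos, div_lt_one (by linarith)]; exact hd'
  have hr1 : 1 - 1 / (d : ℝ) ≤ 1 := by
    have : 0 < 1 / (d : ℝ) := by positivity
    linarith
  set r := 1 - 1 / (d : ℝ) with hr
  set S : Set (EuclideanSpace ℝ (Fin d)) := {z | p z ≤ 1 ∧ p z ≤ P z} with hS
  have hSm : MeasurableSet S := ((isClosed_le hcont continuous_const).inter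
    (isClosed_le hcont hP)).measurableSet
  have hBm : MeasurableSet {z : EuclideanSpace ℝ (Fin d) | p z ≤ r} :=
    (isClosed_le hcont continuous_const).measurableSet
  have hSfin : volume S ≠ ⊤ := ne_top_of_le_ne_top hfin (measure_mono fun z hz => hz.1)
  have e : S ∩ {z | p z ≤ r} = {z : EuclideanSpace ℝ (Fin d) | p z ≤ r ∧ p z ≤ P z} := by
    ext z
    constructor
    · rintro ⟨h1, h2⟩
      exact ⟨h2, h1.2⟩
    · rintro ⟨h1, h2⟩
      exact ⟨⟨h1.trans hr1, h2⟩, h1⟩
  have h1 := measure_inter_add_sdiff (μ := (volume : Measure (EuclideanSpace ℝ (Fin d)))) S hBm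
  rw [e, vol_cone p P r hr0] at h1
  have hrd : r ^ d ≤ 1 := pow_le_one₀ hr0.le hr1
  have h2 : ENNReal.ofReal (r ^ d) * volume S + ENNReal.ofReal (1 - r ^ d) * volume S
      = volume S := by
    rw [← add_mul, ← ENNReal.ofReal_add (by positivity) (by linarith)]
    rw [add_sub_cancel, ENNReal.ofReal_one, one_mul]
  have h3 := h1.trans h2.symm
  exact (ENNReal.add_right_inj (ENNReal.mul_ne_top ENNReal.ofReal_ne_top hSfin)).mp h3

theorem drop (hd : 1 < d) (hcont : Continuous p) (hP : Continuous P)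
    (hPp : ∀ x, P x ≤ p x)
    (hfin : volume {y : EuclideanSpace ℝ (Fin d) | p y ≤ 1} ≠ ⊤)
    (β : ℝ) (hβ0 : 0 ≤ β) (hβ1 : β ≤ 1)
    (hS : ENNReal.ofReal β * volume {y : EuclideanSpace ℝ (Fin d) | p y ≤ 1}
      ≤ volume {z : EuclideanSpace ℝ (Fin d) | p z ≤ 1 ∧ p z ≤ P z}) (k : ℕ) :
    volume {z : EuclideanSpace ℝ (Fin d) | p z ≤ 1 ∧ P z ≤ 1 - k / d}
      ≤ ENNReal.ofReal ((1 - β * (1 - (1 - 1 / (d : ℝ)) ^ d)) ^ k)
        * volume {y : EuclideanSpace ℝ (Fin d) | p y ≤ 1} := by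
  have hd' : (1 : ℝ) < d := by exact_mod_cast hd
  have hd0 : (0 : ℝ) < d := by linarith
  have hr0 : 0 < 1 - 1 / (d : ℝ) := by
    rw [sub_pos, div_lt_one (by linarith)]; exact hd'
  have hr1 : 1 - 1 / (d : ℝ) ≤ 1 := by
    have : 0 < 1 / (d : ℝ) := by positivity
    linarith
  have hrd : (1 - 1 / (d : ℝ)) ^ d ≤ 1 := pow_le_one₀ hr0.le hr1
  have hrd0 : 0 < (1 - 1 / (d : ℝ)) ^ d := by positivity
  set κ : ℝ := 1 - β * (1 - (1 - 1 / (d : ℝ)) ^ d) with hκ
  have hκ0 : 0 ≤ κ := by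
    have : β * (1 - (1 - 1 / (d : ℝ)) ^ d) ≤ 1 * 1 := by gcongr; linarith
    rw [hκ]; linarith
  set V := volume {y : EuclideanSpace ℝ (Fin d) | p y ≤ 1} with hV
  set A : ℕ → Set (EuclideanSpace ℝ (Fin d)) := fun k => {z | p z ≤ 1 ∧ P z ≤ 1 - k / d} with hA
  have hAm : ∀ k, MeasurableSet (A k) := fun k =>
    ((isClosed_le hcont continuous_const).inter
      (isClosed_le hP continuous_const)).measurableSet
  have hAfin : ∀ k, volume (A k) ≠ ⊤ := fun k =>
    ne_top_of_le_ne_top hfin (measure_mono fun z hz => hz.1)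
  have hA0 : A 0 = {y | p y ≤ 1} := by
    ext z
    simp only [hA, mem_ofPred_eq, Nat.cast_zero, zero_div, sub_zero]
    exact ⟨fun h => h.1, fun h => ⟨h, (hPp z).trans h⟩⟩
  set a : ℕ → ℝ := fun k => (volume (A k)).toReal with ha
  have hmono : ∀ k, a (k + 1) ≤ a k := by
    intro k
    refine ENNReal.toReal_mono (hAfin k) (measure_mono ?_)
    rintro z ⟨h1, h2⟩
    refine ⟨h1, h2.trans ?_⟩
    push_cast
    gcongr
    linarith
  have hlc : ∀ k, a k * a (k + 2) ≤ a (k + 1) ^ 2 := by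
    intro k
    have := bm_E (hAm k) (hAm (k + 2)) (hAm (k + 1)) (by
      rintro x ⟨hx1, hx2⟩ y ⟨hy1, hy2⟩
      have h3 : ‖(1 / 2 : ℝ)‖ = 1 / 2 := by norm_num
      constructor
      · rw [map_smul_eq_mul]
        have := map_add_le_add p x y
        rw [h3]
        linarith
      · rw [map_smul_eq_mul]
        have := map_add_le_add P x y
        rw [h3]
        push_cast at hx2 hy2 ⊢
        have e : (1 : ℝ) - (k + 1) / d = 1 / 2 * ((1 - k / d) + (1 - (k + 2) / d)) := by
          field_simp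
          ring
        rw [e]
        gcongr
        linarith)
    have h2 := ENNReal.toReal_mono (by
      exact ENNReal.pow_ne_top (hAfin _)) this
    rwa [ENNReal.toReal_mul, ENNReal.toReal_pow] at h2
  have h1 : a 1 ≤ κ * a 0 := by
    have hdiff := cone_diff p P hd hcont hP hfin
    set S : Set (EuclideanSpace ℝ (Fin d)) := {z | p z ≤ 1 ∧ p z ≤ P z} with hS'
    have hSm : MeasurableSet S := ((isClosed_le hcont continuous_const).inter
      (isClosed_le hcont hP)).measurableSet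
    have hBm : MeasurableSet {z : EuclideanSpace ℝ (Fin d) | p z ≤ 1 - 1 / (d : ℝ)} :=
      (isClosed_le hcont continuous_const).measurableSet
    have hdisj : Disjoint (A 1) (S \ {z | p z ≤ 1 - 1 / (d : ℝ)}) := by
      rw [Set.disjoint_left]
      rintro z ⟨_, h1⟩ ⟨h2, h3⟩
      apply h3
      push_cast at h1
      exact h2.2.trans h1
    have h4 : volume (A 1) + volume (S \ {z | p z ≤ 1 - 1 / (d : ℝ)}) ≤ V := by
      rw [← measure_union hdisj (hSm.diff hBm)]
      refine measure_mono ?_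
      rintro z (h | h)
      · exact h.1
      · exact h.1.1
    rw [hdiff] at h4
    have h5 : volume (A 1) + ENNReal.ofReal (1 - (1 - 1 / (d : ℝ)) ^ d) * (ENNReal.ofReal β * V)
        ≤ V := by
      refine le_trans ?_ h4
      gcongr
    have h6 := ENNReal.toReal_mono hfin h5
    rw [ENNReal.toReal_add (hAfin 1) (ENNReal.mul_ne_top ENNReal.ofReal_ne_top
      (ENNReal.mul_ne_top ENNReal.ofReal_ne_top hfin)), ENNReal.toReal_mul, ENNReal.toReal_mul,
      ENNReal.toReal_ofReal (by linarith), ENNReal.toReal_ofReal hβ0] at h6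
    have h7 : a 0 = V.toReal := by
      rw [ha]
      simp only
      rw [hA0]
    rw [h7, hκ]
    have h8 : a 1 = (volume (A 1)).toReal := rfl
    rw [h8]
    linarith
  have hg := geomK a κ hκ0 (fun k => ENNReal.toReal_nonneg) hmono hlc h1 k
  rw [← ENNReal.toReal_le_toReal (hAfin k) (ENNReal.mul_ne_top ENNReal.ofReal_ne_top hfin),
    ENNReal.toReal_mul, ENNReal.toReal_ofReal (by positivity)]
  have h7 : a 0 = V.toReal := by
    rw [ha]
    simp only
    rw [hA0]
  rw [h7] at hg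
  exact hg

end Drop

section Family

variable {ι : Type*} [Fintype ι]

theorem set_ind (A B : Set (EuclideanSpace ℝ (Fin d))) (hB : MeasurableSet B) :
    ∫⁻ z in A, B.indicator (1 : EuclideanSpace ℝ (Fin d) → ℝ≥0∞) z = volume (B ∩ A) := by
  rw [lintegral_indicator_one hB, Measure.restrict_apply hB]

/-- transfer for symmetric homogeneous sets -/
theorem transfer_set (p : Seminorm ℝ (EuclideanSpace ℝ (Fin d)))
    (hcont : Continuous p)
    (u : ι → EuclideanSpace ℝ (Fin d)) (hu : ∀ i, p (u i) ≤ 1) (r q D : ℝ)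
    (hr1 : r ≤ 1)
    (hq : ∀ y : EuclideanSpace ℝ (Fin d),
      (∑ i : ι, if p (u i - y) ≤ r then (1 : ℝ) else 0) ≤ q)
    (hD : q * 2 ^ d ≤ D * Fintype.card ι * r ^ d)
    (B : Set (EuclideanSpace ℝ (Fin d))) (hB : MeasurableSet B) :
    ∑ i, volume {z : EuclideanSpace ℝ (Fin d) | p z ≤ r ∧ u i + z ∈ B}
      ≤ ENNReal.ofReal (D * Fintype.card ι * r ^ d)
        * volume {z : EuclideanSpace ℝ (Fin d) | p z ≤ 1 ∧ (2 : ℝ) • z ∈ B} := by
  have hq0 : 0 ≤ q := by
    refine le_trans ?_ (hq 0)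
    exact Finset.sum_nonneg fun i _ => by split_ifs <;> norm_num
  have hf : Measurable (B.indicator (1 : EuclideanSpace ℝ (Fin d) → ℝ≥0∞)) :=
    measurable_one.indicator hB
  have h1 := transfer p hcont u hu r q hr1 hq _ hf
  have h2 : ∀ i, ∫⁻ z in {z : EuclideanSpace ℝ (Fin d) | p z ≤ r},
      B.indicator (1 : EuclideanSpace ℝ (Fin d) → ℝ≥0∞) (u i + z)
      = volume {z : EuclideanSpace ℝ (Fin d) | p z ≤ r ∧ u i + z ∈ B} := by
    intro i
    have e : (fun z : EuclideanSpace ℝ (Fin d) =>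
        B.indicator (1 : EuclideanSpace ℝ (Fin d) → ℝ≥0∞) (u i + z))
        = ((fun z => u i + z) ⁻¹' B).indicator 1 := by
      ext z
      rfl
    rw [e, set_ind _ _ (hB.preimage (measurable_const_add _))]
    congr 1
    ext z
    simp only [mem_inter_iff, mem_preimage, mem_ofPred_eq]
    exact and_comm
  have h3 : ∫⁻ y in {y : EuclideanSpace ℝ (Fin d) | p y ≤ 2},
      B.indicator (1 : EuclideanSpace ℝ (Fin d) → ℝ≥0∞) y
      = ENNReal.ofReal (2 ^ d)
        * volume {z : EuclideanSpace ℝ (Fin d) | p z ≤ 1 ∧ (2 : ℝ) • z ∈ B} := by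
    rw [setLint_smul p hcont _ hf 2 (by norm_num)]
    congr 1
    have e : (fun z : EuclideanSpace ℝ (Fin d) =>
        B.indicator (1 : EuclideanSpace ℝ (Fin d) → ℝ≥0∞) ((2 : ℝ) • z))
        = ((fun z : EuclideanSpace ℝ (Fin d) => (2 : ℝ) • z) ⁻¹' B).indicator 1 := by
      ext z
      rfl
    rw [e, set_ind _ _ (hB.preimage (measurable_const_smul _))]
    congr 1
    ext z
    simp only [mem_inter_iff, mem_preimage, mem_ofPred_eq]
    exact and_comm
  rw [Finset.sum_congr rfl (fun i _ => h2 i), h3, ← mul_assoc, ← ENNReal.ofReal_mul hq0] at h1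
  refine h1.trans ?_
  gcongr

/-- at least half of the ball of radius `r` around `a` lies in the slab -/
theorem half_slab (p : Seminorm ℝ (EuclideanSpace ℝ (Fin d)))
    (φ : EuclideanSpace ℝ (Fin d) →L[ℝ] ℝ) (a : EuclideanSpace ℝ (Fin d)) (r c : ℝ)
    (ha : c ≤ |φ a|) :
    volume {z : EuclideanSpace ℝ (Fin d) | p z ≤ r}
      ≤ 2 * volume {z : EuclideanSpace ℝ (Fin d) | p z ≤ r ∧ c ≤ |φ (a + z)|} := by
  set A : Set (EuclideanSpace ℝ (Fin d)) := {z | p z ≤ r ∧ c ≤ |φ (a + z)|} with hA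
  have h1 : volume (-A) = volume A := Measure.measure_neg volume A
  rw [two_mul]
  nth_rewrite 2 [← h1]
  refine le_trans (measure_mono ?_) (measure_union_le _ _)
  intro z hz
  by_contra hcon
  rw [mem_union, not_or] at hcon
  obtain ⟨h2, h3⟩ := hcon
  have h4 : |φ (a + z)| < c := by
    by_contra h
    exact h2 ⟨hz, not_lt.mp h⟩
  have h5 : |φ (a + -z)| < c := by
    by_contra h
    apply h3
    rw [Set.mem_neg]
    exact ⟨by rw [map_neg_eq_map]; exact hz, not_lt.mp h⟩
  have h6 : |2 * φ a| ≤ |φ (a + z)| + |φ (a + -z)| := by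
    have : 2 * φ a = φ (a + z) + φ (a + -z) := by
      rw [map_add, map_add, map_neg]; ring
    rw [this]
    exact abs_add_le _ _
  rw [abs_mul, abs_of_pos (by norm_num : (0 : ℝ) < 2)] at h6
  linarith

/-- few points of a spread-out family lie in a thin slab -/
theorem count2 (p : Seminorm ℝ (EuclideanSpace ℝ (Fin d)))
    (hcont : Continuous p)
    (h0 : volume {y : EuclideanSpace ℝ (Fin d) | p y ≤ 1} ≠ 0)
    (hfin : volume {y : EuclideanSpace ℝ (Fin d) | p y ≤ 1} ≠ ⊤)
    (u : ι → EuclideanSpace ℝ (Fin d)) (hu : ∀ i, p (u i) ≤ 1) (r q D : ℝ) (hr0 : 0 < r)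
    (hr1 : r ≤ 1)
    (hq : ∀ y : EuclideanSpace ℝ (Fin d),
      (∑ i : ι, if p (u i - y) ≤ r then (1 : ℝ) else 0) ≤ q)
    (hD0 : 0 ≤ D)
    (hD : q * 2 ^ d ≤ D * Fintype.card ι * r ^ d)
    (φ : EuclideanSpace ℝ (Fin d) →L[ℝ] ℝ) (τ : ℝ) (hτ : 0 ≤ τ)
    (hφ : volume {z : EuclideanSpace ℝ (Fin d) | p z ≤ 1 ∧ 1 / 4 ≤ |φ z|}
      ≤ ENNReal.ofReal τ * volume {y : EuclideanSpace ℝ (Fin d) | p y ≤ 1}) :
    (∑ i, if 1 / 2 ≤ |φ (u i)| then (1 : ℝ) else 0) ≤ 2 * D * τ * Fintype.card ι := by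
  classical
  set V := volume {y : EuclideanSpace ℝ (Fin d) | p y ≤ 1} with hV
  have hBm : MeasurableSet {y : EuclideanSpace ℝ (Fin d) | 1 / 2 ≤ |φ y|} :=
    (isClosed_le continuous_const (continuous_abs.comp φ.continuous)).measurableSet
  have h1 := transfer_set p hcont u hu r q D hr1 hq hD _ hBm
  have e1 : {z : EuclideanSpace ℝ (Fin d) | p z ≤ 1 ∧
      (2 : ℝ) • z ∈ {y : EuclideanSpace ℝ (Fin d) | 1 / 2 ≤ |φ y|}}
      = {z : EuclideanSpace ℝ (Fin d) | p z ≤ 1 ∧ 1 / 4 ≤ |φ z|} := by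
    ext z
    simp only [mem_ofPred_eq, map_smul, smul_eq_mul, abs_mul,
      abs_of_pos (by norm_num : (0 : ℝ) < 2)]
    constructor
    · rintro ⟨h, h'⟩; exact ⟨h, by linarith⟩
    · rintro ⟨h, h'⟩; exact ⟨h, by linarith⟩
  rw [e1] at h1
  have h2 : ∑ i, ENNReal.ofReal (if 1 / 2 ≤ |φ (u i)| then (1 : ℝ) else 0)
      * (ENNReal.ofReal (r ^ d) * V)
      ≤ 2 * ∑ i, volume {z : EuclideanSpace ℝ (Fin d) | p z ≤ r ∧
        u i + z ∈ {y : EuclideanSpace ℝ (Fin d) | 1 / 2 ≤ |φ y|}} := by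
    rw [Finset.mul_sum]
    refine Finset.sum_le_sum fun i _ => ?_
    split_ifs with h
    · rw [ENNReal.ofReal_one, one_mul, ← vol_ball' p r hr0]
      exact half_slab p φ (u i) r (1 / 2) h
    · simp
  have h3 : ENNReal.ofReal (∑ i, if 1 / 2 ≤ |φ (u i)| then (1 : ℝ) else 0)
      * (ENNReal.ofReal (r ^ d) * V)
      ≤ ENNReal.ofReal (2 * D * τ * Fintype.card ι) * (ENNReal.ofReal (r ^ d) * V) := by
    rw [ENNReal.ofReal_sum_of_nonneg (fun i _ => by split_ifs <;> norm_num), Finset.sum_mul]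
    calc _ ≤ _ := h2
      _ ≤ 2 * (ENNReal.ofReal (D * Fintype.card ι * r ^ d) * (ENNReal.ofReal τ * V)) := by
          gcongr
          exact h1.trans (by gcongr)
      _ = _ := by
          have hh : ENNReal.ofReal (2 * D * τ * Fintype.card ι) * (ENNReal.ofReal (r ^ d) * V)
              = ENNReal.ofReal (2 * D * τ * Fintype.card ι * r ^ d) * V := by
            rw [← mul_assoc, ← ENNReal.ofReal_mul (by positivity)]
          rw [hh, show (2 : ℝ≥0∞) = ENNReal.ofReal 2 by norm_num, ← mul_assoc, ← mul_assoc,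
            ← ENNReal.ofReal_mul (by norm_num), ← ENNReal.ofReal_mul (by positivity)]
          congr 2
          ring
  have hrV0 : ENNReal.ofReal (r ^ d) * V ≠ 0 :=
    mul_ne_zero (ENNReal.ofReal_pos.mpr (by positivity)).ne' h0
  have hrVt : ENNReal.ofReal (r ^ d) * V ≠ ⊤ := ENNReal.mul_ne_top ENNReal.ofReal_ne_top hfin
  rw [ENNReal.mul_le_mul_iff_left hrV0 hrVt, ENNReal.ofReal_le_ofReal_iff (by positivity)] at h3
  exact h3

/-- total escape bound -/
theorem escape2 (p P : Seminorm ℝ (EuclideanSpace ℝ (Fin d)))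
    (hcont : Continuous p) (hP : Continuous P) (hPp : ∀ x, P x ≤ p x)
    (h0 : volume {y : EuclideanSpace ℝ (Fin d) | p y ≤ 1} ≠ 0)
    (hfin : volume {y : EuclideanSpace ℝ (Fin d) | p y ≤ 1} ≠ ⊤)
    (u : ι → EuclideanSpace ℝ (Fin d)) (hu : ∀ i, p (u i) ≤ 1) (q D : ℝ)
    (hd : 1 < d)
    (hq : ∀ y : EuclideanSpace ℝ (Fin d),
      (∑ i : ι, if p (u i - y) ≤ 1 - 1 / (d : ℝ) then (1 : ℝ) else 0) ≤ q)
    (hD0 : 0 ≤ D)
    (hD : q * 2 ^ d ≤ D * Fintype.card ι * (1 - 1 / (d : ℝ)) ^ d)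
    (τ : ℝ) (hτ : 0 ≤ τ)
    (hmax : ∀ x : EuclideanSpace ℝ (Fin d), ∀ η : ℝ, 0 < η →
      ∃ φ : EuclideanSpace ℝ (Fin d) →L[ℝ] ℝ, (∀ y, |φ y| ≤ p y) ∧ P x - η ≤ |φ x| ∧
        volume {z : EuclideanSpace ℝ (Fin d) | p z ≤ 1 ∧ 1 / 4 ≤ |φ z|}
          ≤ ENNReal.ofReal τ * volume {y : EuclideanSpace ℝ (Fin d) | p y ≤ 1})
    (k : ℕ) (hk : 0 < k) (hkd : 4 * (k : ℝ) / d ≤ 1) :
    ∑ i, volume {z : EuclideanSpace ℝ (Fin d) | p z ≤ 1 - 1 / (d : ℝ) ∧
        2 * (1 - k / d) < P (u i + z)}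
      ≤ ENNReal.ofReal (2 * D * τ * Fintype.card ι * (1 + 4 * (k : ℝ) / d) ^ d)
        * volume {y : EuclideanSpace ℝ (Fin d) | p y ≤ 1} := by
  classical
  have hd' : (1 : ℝ) < d := by exact_mod_cast hd
  have hd0 : (0 : ℝ) < d := by linarith
  have hk' : (0 : ℝ) < k := by exact_mod_cast hk
  have hr0 : 0 < 1 - 1 / (d : ℝ) := by
    rw [sub_pos, div_lt_one (by linarith)]; exact hd'
  have hr1 : 1 - 1 / (d : ℝ) ≤ 1 := by
    have : 0 < 1 / (d : ℝ) := by positivity
    linarith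
  set r := 1 - 1 / (d : ℝ) with hr
  set t : ℝ := 4 * (k : ℝ) / d with ht
  have ht0 : 0 < t := by positivity
  set C : ℝ := 2 * D * τ * Fintype.card ι with hC
  have hC0 : 0 ≤ C := by positivity
  set G : ι → Set (EuclideanSpace ℝ (Fin d)) := fun i =>
    {z | p z ≤ r ∧ 2 * (1 - k / d) < P (u i + z)} with hG
  have hGm : ∀ i, MeasurableSet (G i) := fun i =>
    (isClosed_le hcont continuous_const).measurableSet.inter
      (isOpen_lt continuous_const (hP.comp (continuous_const.add continuous_id))).measurableSet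
  set W : ι → Set (EuclideanSpace ℝ (Fin d)) := fun i =>
    (fun w => w + (-(t • u i))) ⁻¹' G i with hW
  have hWm : ∀ i, MeasurableSet (W i) := fun i => (hGm i).preimage (measurable_add_const _)
  have hvol : ∀ i, volume (G i) = volume (W i) := fun i =>
    (measure_preimage_add_right volume (-(t • u i)) (G i)).symm
  have hBm : MeasurableSet {w : EuclideanSpace ℝ (Fin d) | p w ≤ 1 + t} :=
    (isClosed_le hcont continuous_const).measurableSet
  have hpt : ∀ w, ∑ i, (W i).indicator (1 : EuclideanSpace ℝ (Fin d) → ℝ≥0∞) w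
      ≤ ({w : EuclideanSpace ℝ (Fin d) | p w ≤ 1 + t}).indicator (fun _ => ENNReal.ofReal C) w := by
    intro w
    by_cases hex : ∃ i, w ∈ W i
    · obtain ⟨i₀, hi₀⟩ := hex
      have hpw : p w ≤ 1 + t := by
        have h1 : p (w + -(t • u i₀)) ≤ r := hi₀.1
        calc p w = p ((w + -(t • u i₀)) + t • u i₀) := by congr 1; abel
          _ ≤ p (w + -(t • u i₀)) + p (t • u i₀) := map_add_le_add _ _ _
          _ = p (w + -(t • u i₀)) + t * p (u i₀) := by
            rw [map_smul_eq_mul, Real.norm_of_nonneg ht0.le]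
          _ ≤ r + t * 1 := by gcongr; exact hu i₀
          _ ≤ 1 + t := by linarith
      rw [indicator_of_mem (show w ∈ {w : EuclideanSpace ℝ (Fin d) | p w ≤ 1 + t} from hpw)]
      obtain ⟨φ, hφ1, hφ2, hφ3⟩ := hmax w (1 / d) (by positivity)
      have hcount := count2 p hcont h0 hfin u hu r q D hr0 hr1 hq hD0 hD φ τ hτ hφ3
      refine le_trans ?_ (ENNReal.ofReal_le_ofReal hcount)
      rw [ENNReal.ofReal_sum_of_nonneg (fun i _ => by split_ifs <;> norm_num)]
      refine Finset.sum_le_sum fun i _ => ?_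
      by_cases hi : w ∈ W i
      · rw [indicator_of_mem hi, if_pos]
        · simp
        · have h1 : p (w + -(t • u i)) ≤ r := hi.1
          have h2 : 2 * (1 - k / d) < P (u i + (w + -(t • u i))) := hi.2
          have h3 : P (u i + (w + -(t • u i))) ≤ P w + (1 - t) := by
            have e : u i + (w + -(t • u i)) = w + (1 - t) • u i := by
              rw [sub_smul, one_smul]; abel
            calc P (u i + (w + -(t • u i))) = P (w + (1 - t) • u i) := by rw [e]
              _ ≤ P w + P ((1 - t) • u i) := map_add_le_add _ _ _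
              _ = P w + (1 - t) * P (u i) := by
                rw [map_smul_eq_mul, Real.norm_of_nonneg (by linarith)]
              _ ≤ P w + (1 - t) * 1 :=
                add_le_add le_rfl (mul_le_mul_of_nonneg_left ((hPp _).trans (hu i)) (by linarith))
              _ = _ := by ring
          have h4 : |φ w| ≤ r + t * |φ (u i)| := by
            have e : w = (w + -(t • u i)) + t • u i := by abel
            calc |φ w| = |φ ((w + -(t • u i)) + t • u i)| := by rw [← e]
              _ = |φ (w + -(t • u i)) + t * φ (u i)| := by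
                rw [map_add, map_smul, smul_eq_mul]
              _ ≤ |φ (w + -(t • u i))| + |t * φ (u i)| := abs_add_le _ _
              _ = |φ (w + -(t • u i))| + t * |φ (u i)| := by
                rw [abs_mul, abs_of_pos ht0]
              _ ≤ _ := by
                gcongr
                exact (hφ1 _).trans h1
          have h5 : 1 + t / 2 < P w := by
            have : 2 * (1 - (k : ℝ) / d) = 2 - t / 2 := by rw [ht]; ring
            linarith
          have h6 : t * (1 / 2) ≤ t * |φ (u i)| := by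
            rw [hr] at h4
            linarith
          exact le_of_mul_le_mul_left h6 ht0
      · rw [indicator_of_notMem hi]
        exact zero_le
    · push Not at hex
      rw [Finset.sum_eq_zero (fun i _ => indicator_of_notMem (hex i) _)]
      exact zero_le
  calc ∑ i, volume (G i) = ∑ i, ∫⁻ w, (W i).indicator 1 w := by
        refine Finset.sum_congr rfl fun i _ => ?_
        rw [hvol, lintegral_indicator_one (hWm i)]
    _ = ∫⁻ w, ∑ i, (W i).indicator 1 w := by
        rw [lintegral_finsetSum]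
        intro i _
        exact measurable_one.indicator (hWm i)
    _ ≤ ∫⁻ w, ({w : EuclideanSpace ℝ (Fin d) | p w ≤ 1 + t}).indicator
          (fun _ => ENNReal.ofReal C) w := lintegral_mono hpt
    _ = ENNReal.ofReal C * volume {w : EuclideanSpace ℝ (Fin d) | p w ≤ 1 + t} := by
        rw [lintegral_indicator hBm, setLIntegral_const]
    _ = _ := by
        rw [vol_ball' p (1 + t) (by linarith), ← mul_assoc, ← ENNReal.ofReal_mul hC0]

end Family

end Pool.Agent.H815R2.Thin
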