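import Mathlib
import Pool.Agent.H815R2.FlatThin
import Pool.Agent.H815R2.FlatMain

set_option autoImplicit false

/-!
The core contradiction and the covering bound for bodies with thin supporting slabs.
-/

namespace Pool.Agent.H815R2.Thin

open MeasureTheory Set
open scoped ENNReal Pointwise NNReal
open Pool.Agent.H815R2.Flat

variable {d : ℕ}

theorem rd_le (d : ℕ) (hd : 2 ≤ d) : (1 - 1 / (d : ℝ)) ^ d ≤ 0.368 := by
  have hd' : (2 : ℝ) ≤ d := by exact_mod_cast hd
  have hdi : 1 / (d : ℝ) ≤ 1 / 2 := one_div_le_one_div_of_le (by norm_num) hd'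
  have h1 : 1 - 1 / (d : ℝ) ≤ Real.exp (-(1 / d)) := by
    have := Real.add_one_le_exp (-(1 / (d : ℝ)))
    linarith
  have h2 : (1 - 1 / (d : ℝ)) ^ d ≤ Real.exp (-1) := by
    calc (1 - 1 / (d : ℝ)) ^ d ≤ (Real.exp (-(1 / d))) ^ d :=
          pow_le_pow_left₀ (by linarith) h1 _
      _ = Real.exp (-1) := by
        rw [← Real.exp_nat_mul]; congr 1; field_simp
  refine h2.trans ?_
  have h3 := Real.exp_neg_one_lt_d9
  linarith

theorem num_a (β lam κ : ℝ) (k : ℕ) (hβ0 : 0 < β) (hlam : 1 ≤ lam)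
    (hκ0 : 0 ≤ κ) (hκ : κ ≤ 1 - β * 0.632) (hk : 2.2 * (lam / β) ≤ k) :
    Real.exp lam / 3 * κ ^ k ≤ 0.24 := by
  have h1 : κ ≤ Real.exp (-(0.632 * β)) := by
    have := Real.add_one_le_exp (-(0.632 * β))
    linarith
  have h2 : κ ^ k ≤ Real.exp (-(1.39 * lam)) := by
    calc κ ^ k ≤ (Real.exp (-(0.632 * β))) ^ k := pow_le_pow_left₀ hκ0 h1 _
      _ = Real.exp (-(0.632 * β * k)) := by
        rw [← Real.exp_nat_mul]; congr 1; ring
      _ ≤ Real.exp (-(1.39 * lam)) := by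
        apply Real.exp_le_exp.mpr
        have e : β * (2.2 * (lam / β)) = 2.2 * lam := by field_simp
        have : β * (2.2 * (lam / β)) ≤ β * k := by gcongr
        rw [e] at this
        linarith
  have h3 : Real.exp lam * Real.exp (-(1.39 * lam)) ≤ 1 / 1.39 := by
    rw [← Real.exp_add]
    have e : lam + -(1.39 * lam) = -(0.39 * lam) := by ring
    rw [e, Real.exp_neg, ← one_div]
    apply one_div_le_one_div_of_le (by norm_num)
    have := Real.add_one_le_exp (0.39 * lam)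
    linarith
  calc Real.exp lam / 3 * κ ^ k ≤ Real.exp lam / 3 * Real.exp (-(1.39 * lam)) := by gcongr
    _ = (Real.exp lam * Real.exp (-(1.39 * lam))) / 3 := by ring
    _ ≤ (1 / 1.39) / 3 := by gcongr
    _ ≤ 0.24 := by norm_num

theorem num_b (x lam τ : ℝ) (k : ℕ) (hlam : 1 ≤ lam) (hx : lam ≤ x)
    (hk : (k : ℝ) ≤ 2.2 * x + 1) (hτ : τ ≤ Real.exp (-(16 * x))) :
    8 * (Real.exp lam / 3) * τ * Real.exp (4 * k) ≤ 0.31 := by
  have h1 : Real.exp lam * Real.exp (-(16 * x)) * Real.exp (4 * k) ≤ Real.exp (-2.2) := by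
    rw [← Real.exp_add, ← Real.exp_add]
    apply Real.exp_le_exp.mpr
    linarith
  have h2 : Real.exp (-2.2) ≤ 0.116 := by
    have e : (-2.2 : ℝ) = -1 + -1 + -0.2 := by norm_num
    rw [e, Real.exp_add, Real.exp_add]
    have h3 := Real.exp_neg_one_lt_d9
    have h4 : Real.exp (-0.2) ≤ 1 / 1.2 := by
      rw [Real.exp_neg, ← one_div]
      apply one_div_le_one_div_of_le (by norm_num)
      have := Real.add_one_le_exp (0.2 : ℝ)
      linarith
    have h5 := Real.exp_pos (-1 : ℝ)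
    have h6 := Real.exp_pos (-0.2 : ℝ)
    calc Real.exp (-1) * Real.exp (-1) * Real.exp (-0.2)
        ≤ 0.368 * 0.368 * (1 / 1.2) := by
          gcongr
          · linarith
          · linarith
      _ ≤ 0.116 := by norm_num
  calc 8 * (Real.exp lam / 3) * τ * Real.exp (4 * k)
      ≤ 8 * (Real.exp lam / 3) * Real.exp (-(16 * x)) * Real.exp (4 * k) := by gcongr
    _ = 8 / 3 * (Real.exp lam * Real.exp (-(16 * x)) * Real.exp (4 * k)) := by ring
    _ ≤ 8 / 3 * 0.116 := by gcongr; exact h1.trans h2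
    _ ≤ 0.31 := by norm_num

/-- The core contradiction. -/
theorem core2 {ι : Type*} [Fintype ι] [Nonempty ι] (hd : 2 ≤ d)
    (p P : Seminorm ℝ (EuclideanSpace ℝ (Fin d)))
    (hcont : Continuous p) (hP : Continuous P) (hPp : ∀ x, P x ≤ p x)
    (h0 : volume {y : EuclideanSpace ℝ (Fin d) | p y ≤ 1} ≠ 0)
    (hfin : volume {y : EuclideanSpace ℝ (Fin d) | p y ≤ 1} ≠ ⊤)
    (β τ lam : ℝ) (hβ0 : 0 < β) (hβ1 : β ≤ 1) (hτ : 0 ≤ τ)
    (hτ2 : τ ≤ Real.exp (-(16 * (lam / β))))
    (hS : ENNReal.ofReal β * volume {y : EuclideanSpace ℝ (Fin d) | p y ≤ 1}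
      ≤ volume {z : EuclideanSpace ℝ (Fin d) | p z ≤ 1 ∧ p z ≤ P z})
    (hmax : ∀ x : EuclideanSpace ℝ (Fin d), ∀ η : ℝ, 0 < η →
      ∃ φ : EuclideanSpace ℝ (Fin d) →L[ℝ] ℝ, (∀ y, |φ y| ≤ p y) ∧ P x - η ≤ |φ x| ∧
        volume {z : EuclideanSpace ℝ (Fin d) | p z ≤ 1 ∧ 1 / 4 ≤ |φ z|}
          ≤ ENNReal.ofReal τ * volume {y : EuclideanSpace ℝ (Fin d) | p y ≤ 1})
    (u : ι → EuclideanSpace ℝ (Fin d)) (hu : ∀ i, p (u i) ≤ 1) (θ : ℝ)
    (hθ : θ = Real.exp lam / 3 * ((1 - 1 / (d : ℝ)) / 2) ^ d)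
    (hq : ∀ y : EuclideanSpace ℝ (Fin d),
      (∑ i : ι, if p (u i - y) ≤ 1 - 1 / (d : ℝ) then (1 : ℝ) else 0) ≤ θ * Fintype.card ι) :
    False := by
  classical
  set V := volume {y : EuclideanSpace ℝ (Fin d) | p y ≤ 1} with hV
  have hd' : (2 : ℝ) ≤ d := by exact_mod_cast hd
  have hd1 : 1 < d := by omega
  have hrdle := rd_le d hd
  have hrdge := quarter_le d hd
  set r : ℝ := 1 - 1 / (d : ℝ) with hr
  have hdi : 1 / (d : ℝ) ≤ 1 / 2 := one_div_le_one_div_of_le (by norm_num) hd'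
  have hdi0 : 0 < 1 / (d : ℝ) := by positivity
  have hr0 : 0 < r := by rw [hr]; linarith
  have hr1 : r ≤ 1 := by rw [hr]; linarith
  set D : ℝ := Real.exp lam / 3 with hD
  have hD0 : 0 < D := by positivity
  have hm : (0 : ℝ) < Fintype.card ι := by exact_mod_cast Fintype.card_pos
  have hqD : θ * Fintype.card ι * 2 ^ d = D * Fintype.card ι * r ^ d := by
    rw [hθ, div_pow]
    field_simp
  -- D ≥ 1
  have hD1 : 1 ≤ D := by
    have h1 := transfer p hcont u hu r _ hr1 hq (fun _ => 1) measurable_const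
    simp only [lintegral_const, Measure.restrict_apply MeasurableSet.univ, univ_inter, one_mul,
      Finset.sum_const, nsmul_eq_mul, Finset.card_univ] at h1
    rw [vol_ball' p r hr0, vol_ball' p 2 (by norm_num), ← mul_assoc, ← mul_assoc,
      ENNReal.mul_le_mul_iff_left h0 hfin, ← ENNReal.ofReal_natCast,
      ← ENNReal.ofReal_mul (by positivity),
      ← ENNReal.ofReal_mul (by rw [hθ]; positivity),
      ENNReal.ofReal_le_ofReal_iff (by rw [hθ]; positivity), hqD] at h1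
    have h2 : 0 < (Fintype.card ι : ℝ) * r ^ d := by positivity
    have h3 : 1 * ((Fintype.card ι : ℝ) * r ^ d) ≤ D * ((Fintype.card ι : ℝ) * r ^ d) := by
      linarith
    exact le_of_mul_le_mul_right h3 h2
  have hlam1 : 1 ≤ lam := by
    by_contra hcon
    push Not at hcon
    have h1 : Real.exp lam < Real.exp 1 := Real.exp_lt_exp.mpr hcon
    have h2 := Real.exp_one_lt_d9
    rw [hD, le_div_iff₀ (by norm_num)] at hD1
    linarith
  set x : ℝ := lam / β with hx
  have hxlam : lam ≤ x := by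
    rw [hx, le_div_iff₀ hβ0]
    nlinarith
  -- a point supported by a thin functional
  have hlow : 1 ≤ 2 * 2 ^ d * τ := by
    have hne : ({z : EuclideanSpace ℝ (Fin d) | p z ≤ 1 ∧ p z ≤ P z} \ {z | p z ≤ r}).Nonempty := by
      apply MeasureTheory.nonempty_of_measure_ne_zero (μ := volume)
      rw [cone_diff p P hd1 hcont hP hfin]
      apply mul_ne_zero
      · apply (ENNReal.ofReal_pos.mpr _).ne'
        linarith
      · intro h
        rw [h] at hS
        have : ENNReal.ofReal β * V ≠ 0 := mul_ne_zero (ENNReal.ofReal_pos.mpr hβ0).ne' h0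
        exact this (le_antisymm hS zero_le)
    obtain ⟨z, ⟨hz1, hz2⟩, hz3⟩ := hne
    have hz4 : 0 < p z := by
      by_contra h
      apply hz3
      show p z ≤ r
      linarith
    set a := (p z)⁻¹ • z with ha
    have hpa : p a = 1 := by
      rw [ha, map_smul_eq_mul, Real.norm_of_nonneg (by positivity), inv_mul_cancel₀ hz4.ne']
    have hPa : 1 ≤ P a := by
      rw [ha, map_smul_eq_mul, Real.norm_of_nonneg (by positivity)]
      rw [le_inv_mul_iff₀ hz4, mul_one]
      exact hz2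
    obtain ⟨φ, -, hφ2, hφ3⟩ := hmax a (1 / 2) (by norm_num)
    have h1 := count2 (ι := Unit) p hcont h0 hfin (fun _ => a) (fun _ => hpa.le) 1 1 (2 ^ d)
      one_pos le_rfl
      (by
        intro y
        simp only [Finset.univ_unique, Finset.sum_singleton]
        split_ifs <;> norm_num)
      (by positivity) (by simp) φ τ hτ hφ3
    simp only [Finset.univ_unique, Finset.sum_singleton, Fintype.card_unit, Nat.cast_one,
      mul_one] at h1
    rwa [if_pos (by linarith)] at h1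
  have h16 : 16 * x ≤ (d + 1) * 0.6932 := by
    have h1 : 1 ≤ 2 * 2 ^ d * Real.exp (-(16 * x)) := by
      refine hlow.trans ?_
      gcongr
    have h2 : Real.exp (16 * x) ≤ 2 ^ (d + 1) := by
      rw [Real.exp_neg] at h1
      have h3 := Real.exp_pos (16 * x)
      have h4 : 1 * Real.exp (16 * x) ≤ 2 * 2 ^ d * (Real.exp (16 * x))⁻¹ * Real.exp (16 * x) := by
        gcongr
      rw [mul_assoc, inv_mul_cancel₀ h3.ne', mul_one, one_mul] at h4
      rw [pow_succ]
      linarith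
    have h3 : 16 * x ≤ Real.log (2 ^ (d + 1)) := by
      rw [Real.le_log_iff_exp_le (by positivity)]
      exact h2
    rw [Real.log_pow] at h3
    push_cast at h3
    refine h3.trans ?_
    have := Real.log_two_lt_d9
    gcongr
    linarith
  -- parameters
  have hx1 : 1 ≤ x := hlam1.trans hxlam
  set k : ℕ := ⌈2.2 * x⌉₊ with hk
  have hk0 : 0 < k := Nat.ceil_pos.mpr (by linarith)
  have hkge : 2.2 * x ≤ k := Nat.le_ceil _
  have hkle : (k : ℝ) ≤ 2.2 * x + 1 := (Nat.ceil_lt_add_one (by linarith)).le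
  have hkd : 4 * (k : ℝ) / d ≤ 1 := by
    rw [div_le_one (by linarith)]
    linarith
  set κ : ℝ := 1 - β * (1 - r ^ d) with hκ
  have hκ0 : 0 ≤ κ := by
    have : β * (1 - r ^ d) ≤ 1 * 1 := by
      gcongr
      · linarith
      · have : 0 < r ^ d := by positivity
        linarith
    rw [hκ]; linarith
  have hκle : κ ≤ 1 - β * 0.632 := by
    rw [hκ]
    have : β * 0.632 ≤ β * (1 - r ^ d) := by
      gcongr
      linarith
    linarith
  have hA := drop p P hd1 hcont hP hPp hfin β hβ0.le hβ1 hS k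
  have hmB : MeasurableSet {y : EuclideanSpace ℝ (Fin d) | P y ≤ 2 * (1 - k / d)} :=
    (isClosed_le hP continuous_const).measurableSet
  have hstay := transfer_set p hcont u hu r _ D hr1 hq hqD.le _ hmB
  have e1 : {z : EuclideanSpace ℝ (Fin d) | p z ≤ 1 ∧
      (2 : ℝ) • z ∈ {y : EuclideanSpace ℝ (Fin d) | P y ≤ 2 * (1 - k / d)}}
      = {z : EuclideanSpace ℝ (Fin d) | p z ≤ 1 ∧ P z ≤ 1 - k / d} := by
    ext z
    simp only [mem_ofPred_eq, map_smul_eq_mul]
    rw [Real.norm_of_nonneg (by norm_num : (0 : ℝ) ≤ 2),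
      mul_le_mul_iff_right₀ (by norm_num : (0 : ℝ) < 2)]
  rw [e1] at hstay
  have hesc := escape2 p P hcont hP hPp h0 hfin u hu _ D hd1 hq hD0.le hqD.le τ hτ hmax k hk0 hkd
  -- combine
  have hcomb : (Fintype.card ι : ℝ≥0∞) * (ENNReal.ofReal (r ^ d) * V)
      ≤ (∑ i, volume {z : EuclideanSpace ℝ (Fin d) | p z ≤ r ∧
          u i + z ∈ {y : EuclideanSpace ℝ (Fin d) | P y ≤ 2 * (1 - k / d)}})
        + ∑ i, volume {z : EuclideanSpace ℝ (Fin d) | p z ≤ r ∧
          2 * (1 - k / d) < P (u i + z)} := by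
    rw [← Finset.sum_add_distrib, ← vol_ball' p r hr0]
    calc (Fintype.card ι : ℝ≥0∞) * volume {z : EuclideanSpace ℝ (Fin d) | p z ≤ r}
        = ∑ _i : ι, volume {z : EuclideanSpace ℝ (Fin d) | p z ≤ r} := by
          rw [Finset.sum_const, nsmul_eq_mul, Finset.card_univ]
      _ ≤ _ := by
          refine Finset.sum_le_sum fun i _ => ?_
          refine le_trans (measure_mono ?_) (measure_union_le _ _)
          intro z hz
          rcases le_or_gt (P (u i + z)) (2 * (1 - k / d)) with h | h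
          · exact Or.inl ⟨hz, h⟩
          · exact Or.inr ⟨hz, h⟩
  have htot : ENNReal.ofReal (Fintype.card ι * r ^ d) * V
      ≤ ENNReal.ofReal (D * Fintype.card ι * r ^ d * κ ^ k
        + 2 * D * τ * Fintype.card ι * (1 + 4 * (k : ℝ) / d) ^ d) * V := by
    rw [ENNReal.ofReal_add (by positivity) (by positivity), add_mul]
    calc ENNReal.ofReal (Fintype.card ι * r ^ d) * V
        = (Fintype.card ι : ℝ≥0∞) * (ENNReal.ofReal (r ^ d) * V) := by
          rw [ENNReal.ofReal_mul hm.le, ENNReal.ofReal_natCast, mul_assoc]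
      _ ≤ _ := hcomb
      _ ≤ ENNReal.ofReal (D * Fintype.card ι * r ^ d) * (ENNReal.ofReal (κ ^ k) * V)
          + ENNReal.ofReal (2 * D * τ * Fintype.card ι * (1 + 4 * (k : ℝ) / d) ^ d) * V :=
          add_le_add (hstay.trans (mul_le_mul' le_rfl hA)) hesc
      _ = _ := by
          rw [← mul_assoc, ← ENNReal.ofReal_mul (by positivity)]
  rw [ENNReal.mul_le_mul_iff_left h0 hfin, ENNReal.ofReal_le_ofReal_iff (by positivity)] at htot
  have hexp : (1 + 4 * (k : ℝ) / d) ^ d ≤ Real.exp (4 * k) := by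
    have h1 : 1 + 4 * (k : ℝ) / d ≤ Real.exp (4 * k / d) := by
      have := Real.add_one_le_exp (4 * (k : ℝ) / d)
      linarith
    calc (1 + 4 * (k : ℝ) / d) ^ d ≤ (Real.exp (4 * k / d)) ^ d := by gcongr
      _ = Real.exp (4 * k) := by
        rw [← Real.exp_nat_mul]; congr 1; field_simp
  have hna := num_a β lam κ k hβ0 hlam1 hκ0 hκle hkge
  have hnb := num_b x lam τ k hlam1 hxlam hkle hτ2
  have h5 : 2 * D * τ * Fintype.card ι * (1 + 4 * (k : ℝ) / d) ^ d
      ≤ 0.31 * (Fintype.card ι * r ^ d) := by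
    calc 2 * D * τ * Fintype.card ι * (1 + 4 * (k : ℝ) / d) ^ d
        ≤ 2 * D * τ * Fintype.card ι * Real.exp (4 * k) := by gcongr
      _ = (8 * D * τ * Real.exp (4 * k)) * Fintype.card ι * (1 / 4) := by ring
      _ ≤ 0.31 * Fintype.card ι * r ^ d := by gcongr
      _ = _ := by ring
  have h6 : D * Fintype.card ι * r ^ d * κ ^ k ≤ 0.24 * (Fintype.card ι * r ^ d) := by
    calc D * Fintype.card ι * r ^ d * κ ^ k = (D * κ ^ k) * (Fintype.card ι * r ^ d) := by ring
      _ ≤ _ := by gcongr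
  have h7 : 0 < (Fintype.card ι : ℝ) * r ^ d := by positivity
  linarith

/-- Covering bound in terms of thin supporting slabs. -/
theorem cover_thin (hd : 2 ≤ d)
    (p P : Seminorm ℝ (EuclideanSpace ℝ (Fin d)))
    (hcont : Continuous p) (hP : Continuous P) (hPp : ∀ x, P x ≤ p x)
    (h0 : volume {y : EuclideanSpace ℝ (Fin d) | p y ≤ 1} ≠ 0)
    (hfin : volume {y : EuclideanSpace ℝ (Fin d) | p y ≤ 1} ≠ ⊤)
    (β τ lam : ℝ) (hβ0 : 0 < β) (hβ1 : β ≤ 1) (hτ : 0 ≤ τ)
    (hτ2 : τ ≤ Real.exp (-(16 * (lam / β))))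
    (hS : ENNReal.ofReal β * volume {y : EuclideanSpace ℝ (Fin d) | p y ≤ 1}
      ≤ volume {z : EuclideanSpace ℝ (Fin d) | p z ≤ 1 ∧ p z ≤ P z})
    (hmax : ∀ x : EuclideanSpace ℝ (Fin d), ∀ η : ℝ, 0 < η →
      ∃ φ : EuclideanSpace ℝ (Fin d) →L[ℝ] ℝ, (∀ y, |φ y| ≤ p y) ∧ P x - η ≤ |φ x| ∧
        volume {z : EuclideanSpace ℝ (Fin d) | p z ≤ 1 ∧ 1 / 4 ≤ |φ z|}
          ≤ ENNReal.ofReal τ * volume {y : EuclideanSpace ℝ (Fin d) | p y ≤ 1}) :
    ∃ Y : Finset (EuclideanSpace ℝ (Fin d)),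
      (Y.card : ℝ) ≤ 1 + 12 * d * Real.log (4 * d + 1) * 2 ^ d * Real.exp (-lam) ∧
      ∀ x, p x ≤ 1 → ∃ y ∈ Y, p (x - y) < 1 := by
  classical
  have hd' : (2 : ℝ) ≤ d := by exact_mod_cast hd
  have hdi : 1 / (d : ℝ) ≤ 1 / 2 := one_div_le_one_div_of_le (by norm_num) hd'
  have hdi0 : 0 < 1 / (d : ℝ) := by positivity
  set η : ℝ := 1 / (d : ℝ) with hη
  set θ : ℝ := Real.exp lam / 3 * ((1 - η) / 2) ^ d with hθ
  have hθ0 : 0 < θ := by
    have : 0 < 1 - η := by linarith
    positivity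
  have hθ1 : θ ≤ 1 := by
    by_contra hcon
    push Not at hcon
    refine core2 (ι := Unit) hd p P hcont hP hPp h0 hfin β τ lam hβ0 hβ1 hτ hτ2 hS hmax
      (fun _ => 0) (by simp) θ hθ ?_
    intro y
    simp only [Finset.univ_unique, Finset.sum_singleton, Fintype.card_unit, Nat.cast_one, mul_one]
    split_ifs <;> linarith
  obtain ⟨S, hS1, hS2, hS3⟩ := Pool.Agent.H815R2.Had.exists_net volume p hcont h0 hfin (η / 2)
    (by positivity)
  rw [finrank_euclideanSpace_fin] at hS3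
  have hM : (1 + 2 / (η / 2)) = 4 * d + 1 := by
    rw [hη]
    field_simp
    ring
  rw [hM] at hS3
  obtain ⟨Y, hY1, hY2⟩ := Pool.Agent.H815R2.Had.greedy_cover (S := S)
    (E := EuclideanSpace ℝ (Fin d)) (fun y s => p ((s : EuclideanSpace ℝ (Fin d)) - y) ≤ 1 - η) θ
    hθ0 hθ1 (by
      intro A hA
      have : Nonempty A := hA.to_subtype
      by_contra hcon
      push Not at hcon
      refine core2 (ι := A) hd p P hcont hP hPp h0 hfin β τ lam hβ0 hβ1 hτ hτ2 hS hmax
        (fun a => ((a : S) : EuclideanSpace ℝ (Fin d))) (fun a => hS1 _ (a : S).2) θ hθ ?_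
      intro y
      have h1 := hcon y
      rw [Fintype.card_coe]
      refine le_trans (le_of_eq ?_) h1.le
      rw [Finset.card_filter]
      push_cast
      rw [← Finset.sum_coe_sort A])
    ((4 * d + 1) ^ d) (by rw [Fintype.card_coe]; exact hS3)
    (one_le_pow₀ (by linarith))
  refine ⟨Y, hY1.trans ?_, ?_⟩
  · rw [Real.log_pow]
    have hq := quarter_le d hd
    rw [← hη] at hq
    have hlogpos : 0 ≤ Real.log (4 * d + 1) := Real.log_nonneg (by linarith)
    have h1 : 1 / θ ≤ 12 * 2 ^ d * Real.exp (-lam) := by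
      rw [hθ, div_pow, Real.exp_neg]
      have he := Real.exp_pos lam
      have hpow : 0 < (1 - η) ^ d := by linarith
      rw [div_le_iff₀ (by positivity)]
      have : 12 * 2 ^ d * (Real.exp lam)⁻¹ * (Real.exp lam / 3 * ((1 - η) ^ d / 2 ^ d))
          = 4 * (1 - η) ^ d := by
        field_simp
        ring
      rw [this]
      linarith
    calc (d : ℝ) * Real.log (4 * d + 1) / θ + 1
        = (d : ℝ) * Real.log (4 * d + 1) * (1 / θ) + 1 := by ring
      _ ≤ (d : ℝ) * Real.log (4 * d + 1) * (12 * 2 ^ d * Real.exp (-lam)) + 1 := by gcongr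
      _ = _ := by ring
  · intro x hx
    obtain ⟨s, hs, hxs⟩ := hS2 x hx
    obtain ⟨y, hy, hsy⟩ := hY2 ⟨s, hs⟩
    refine ⟨y, hy, ?_⟩
    calc p (x - y) = p ((x - s) + (s - y)) := by congr 1; abel
      _ ≤ p (x - s) + p (s - y) := map_add_le_add _ _ _
      _ ≤ η / 2 + (1 - η) := add_le_add hxs hsy
      _ < 1 := by linarith

end Pool.Agent.H815R2.Thin
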