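import Mathlib
import Pool.Agent.H815R2.FlatThinMain
import Pool.Agent.H815R2.FlatCore

set_option autoImplicit false

/-!
Thin functionals and their supremum.
-/

namespace Pool.Agent.H815R2.Thin

open MeasureTheory Set
open scoped ENNReal Pointwise NNReal
open Pool.Agent.H815R2.Flat

variable {d : ℕ}

/-- `φ` is thin for the seminorm `p`. -/
def IsThinS (p : Seminorm ℝ (EuclideanSpace ℝ (Fin d))) (τ : ℝ)
    (φ : EuclideanSpace ℝ (Fin d) →L[ℝ] ℝ) : Prop :=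
  (∀ y, |φ y| ≤ p y) ∧ volume {z : EuclideanSpace ℝ (Fin d) | p z ≤ 1 ∧ 1 / 4 ≤ |φ z|}
    ≤ ENNReal.ofReal τ * volume {y : EuclideanSpace ℝ (Fin d) | p y ≤ 1}

theorem abs_le_of_ball (p : Seminorm ℝ (EuclideanSpace ℝ (Fin d)))
    (φ : EuclideanSpace ℝ (Fin d) →L[ℝ] ℝ) (h : ∀ y, p y ≤ 1 → |φ y| ≤ 1)
    (y : EuclideanSpace ℝ (Fin d)) : |φ y| ≤ p y := by
  refine le_of_forall_pos_le_add fun ε hε => ?_
  have hc : 0 < p y + ε := by
    have := apply_nonneg p y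
    linarith
  have h1 := h ((p y + ε)⁻¹ • y) (by
    rw [map_smul_eq_mul, Real.norm_of_nonneg (by positivity), inv_mul_le_iff₀ hc]
    linarith)
  rw [map_smul, smul_eq_mul, abs_mul, abs_of_pos (by positivity), inv_mul_le_iff₀ hc] at h1
  linarith

/-- The seminorm `|φ|`. -/
noncomputable def absS (φ : EuclideanSpace ℝ (Fin d) →L[ℝ] ℝ) :
    Seminorm ℝ (EuclideanSpace ℝ (Fin d)) :=
  (normSeminorm ℝ ℝ).comp φ.toLinearMap

theorem absS_apply (φ : EuclideanSpace ℝ (Fin d) →L[ℝ] ℝ) (x : EuclideanSpace ℝ (Fin d)) :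
    absS φ x = |φ x| := rfl

theorem thin_cover (hd : 2 ≤ d)
    (p : Seminorm ℝ (EuclideanSpace ℝ (Fin d)))
    (hcont : Continuous p)
    (h0 : volume {y : EuclideanSpace ℝ (Fin d) | p y ≤ 1} ≠ 0)
    (hfin : volume {y : EuclideanSpace ℝ (Fin d) | p y ≤ 1} ≠ ⊤)
    (β τ : ℝ) (hβ0 : 0 < β) (hβ1 : β ≤ 1) (hτ : 0 < τ)
    (hS : ENNReal.ofReal β * volume {y : EuclideanSpace ℝ (Fin d) | p y ≤ 1}
      ≤ volume {z : EuclideanSpace ℝ (Fin d) | p z ≤ 1 ∧ ∃ φ, IsThinS p τ φ ∧ φ z = p z}) :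
    ∃ Y : Finset (EuclideanSpace ℝ (Fin d)),
      (Y.card : ℝ) ≤ 1 + 12 * d * Real.log (4 * d + 1) * 2 ^ d * τ ^ (β / 16) ∧
      ∀ x, p x ≤ 1 → ∃ y ∈ Y, p (x - y) < 1 := by
  classical
  let Φ : Set (EuclideanSpace ℝ (Fin d) →L[ℝ] ℝ) := {φ | IsThinS p τ φ}
  have hne : Nonempty Φ := by
    have h1 : volume {z : EuclideanSpace ℝ (Fin d) | p z ≤ 1 ∧ ∃ φ, IsThinS p τ φ ∧ φ z = p z} ≠ 0 := by
      intro h
      rw [h] at hS
      exact mul_ne_zero (ENNReal.ofReal_pos.mpr hβ0).ne' h0 (le_antisymm hS zero_le)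
    obtain ⟨z, -, φ, hφ, -⟩ := MeasureTheory.nonempty_of_measure_ne_zero h1
    exact ⟨φ, hφ⟩
  have hb : BddAbove (range fun φ : Φ => absS (φ : EuclideanSpace ℝ (Fin d) →L[ℝ] ℝ)) := by
    refine ⟨p, ?_⟩
    rintro _ ⟨φ, rfl⟩
    intro x
    exact φ.2.1 x
  set P : Seminorm ℝ (EuclideanSpace ℝ (Fin d)) :=
    ⨆ φ : Φ, absS (φ : EuclideanSpace ℝ (Fin d) →L[ℝ] ℝ) with hPdef
  have hPx : ∀ x, P x = ⨆ φ : Φ, |(φ : EuclideanSpace ℝ (Fin d) →L[ℝ] ℝ) x| := by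
    intro x
    rw [hPdef, Seminorm.iSup_apply hb]
    rfl
  have hbx : ∀ x, BddAbove (range fun φ : Φ => |(φ : EuclideanSpace ℝ (Fin d) →L[ℝ] ℝ) x|) := by
    intro x
    refine ⟨p x, ?_⟩
    rintro _ ⟨φ, rfl⟩
    exact φ.2.1 x
  have hPp : ∀ x, P x ≤ p x := by
    intro x
    rw [hPx]
    exact ciSup_le fun φ => φ.2.1 x
  have hP : Continuous P := Seminorm.continuous_of_le hcont hPp
  have hmax : ∀ x : EuclideanSpace ℝ (Fin d), ∀ η : ℝ, 0 < η →
      ∃ φ : EuclideanSpace ℝ (Fin d) →L[ℝ] ℝ, (∀ y, |φ y| ≤ p y) ∧ P x - η ≤ |φ x| ∧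
        volume {z : EuclideanSpace ℝ (Fin d) | p z ≤ 1 ∧ 1 / 4 ≤ |φ z|}
          ≤ ENNReal.ofReal τ * volume {y : EuclideanSpace ℝ (Fin d) | p y ≤ 1} := by
    intro x η hη
    have h1 : P x - η < ⨆ φ : Φ, |(φ : EuclideanSpace ℝ (Fin d) →L[ℝ] ℝ) x| := by
      rw [← hPx]; linarith
    obtain ⟨φ, hφ⟩ := exists_lt_of_lt_ciSup h1
    exact ⟨φ, φ.2.1, hφ.le, φ.2.2⟩
  have hS' : ENNReal.ofReal β * volume {y : EuclideanSpace ℝ (Fin d) | p y ≤ 1}
      ≤ volume {z : EuclideanSpace ℝ (Fin d) | p z ≤ 1 ∧ p z ≤ P z} := by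
    refine hS.trans (measure_mono ?_)
    rintro z ⟨hz1, φ, hφ, hφz⟩
    refine ⟨hz1, ?_⟩
    rw [← hφz, hPx]
    exact (le_abs_self _).trans (le_ciSup (hbx z) ⟨φ, hφ⟩)
  obtain ⟨Y, hY1, hY2⟩ := cover_thin hd p P hcont hP hPp h0 hfin β τ (-(β / 16 * Real.log τ))
    hβ0 hβ1 hτ.le (by
      have e : -(16 * (-(β / 16 * Real.log τ) / β)) = Real.log τ := by
        field_simp
      rw [e, Real.exp_log hτ]) hS' hmax
  refine ⟨Y, hY1.trans (le_of_eq ?_), hY2⟩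
  rw [neg_neg, Real.rpow_def_of_pos hτ, mul_comm (β / 16)]

/-- Thinness from a small mean -/
theorem thin_of_mean (p : Seminorm ℝ (EuclideanSpace ℝ (Fin d))) (hcont : Continuous p)
    (hfin : volume {y : EuclideanSpace ℝ (Fin d) | p y ≤ 1} ≠ ⊤)
    (φ : EuclideanSpace ℝ (Fin d) →L[ℝ] ℝ) (hφ1 : ∀ y, |φ y| ≤ p y) (s : ℝ) (hs : 0 < s)
    (hφ : ∫⁻ z in {y : EuclideanSpace ℝ (Fin d) | p y ≤ 1}, ENNReal.ofReal |φ z|
      ≤ ENNReal.ofReal s * volume {y : EuclideanSpace ℝ (Fin d) | p y ≤ 1}) :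
    IsThinS p ((4 : ℝ) ^ (1 - 1 / (16 * s))) φ := by
  refine ⟨hφ1, ?_⟩
  set k : ℕ := ⌊1 / (16 * s)⌋₊ with hk
  have hk1 : (k : ℝ) ≤ 1 / (16 * s) := Nat.floor_le (by positivity)
  have hk2 : 1 / (16 * s) < k + 1 := Nat.lt_floor_add_one _
  have h1 := tail p hcont hfin φ s hs hφ k
  refine le_trans (measure_mono ?_) (h1.trans ?_)
  · rintro z ⟨hz1, hz2⟩
    refine ⟨hz1, le_trans ?_ hz2⟩
    calc 4 * s * k ≤ 4 * s * (1 / (16 * s)) := by gcongr
      _ = 1 / 4 := by field_simp; norm_num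
  · gcongr
    have e : ((4⁻¹ : ℝ≥0∞) ^ k) = ENNReal.ofReal ((4 : ℝ) ^ (-(k : ℝ))) := by
      rw [Real.rpow_neg (by norm_num), Real.rpow_natCast, ENNReal.ofReal_inv_of_pos (by positivity),
        ENNReal.ofReal_pow (by norm_num), ENNReal.inv_pow]
      norm_num
    rw [e]
    apply ENNReal.ofReal_le_ofReal
    apply Real.rpow_le_rpow_of_exponent_le (by norm_num)
    linarith

/-- Markov: small flatness gives many thin functionals -/
theorem thin_of_flat (p : Seminorm ℝ (EuclideanSpace ℝ (Fin d))) (hcont : Continuous p)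
    (h0 : volume {y : EuclideanSpace ℝ (Fin d) | p y ≤ 1} ≠ 0)
    (hfin : volume {y : EuclideanSpace ℝ (Fin d) | p y ≤ 1} ≠ ⊤)
    (ρ : ℝ) (hρ0 : 0 < ρ)
    (hF : ∫⁻ z in {y : EuclideanSpace ℝ (Fin d) | p y ≤ 1}, inn p z
      ≤ ENNReal.ofReal ρ * (volume {y : EuclideanSpace ℝ (Fin d) | p y ≤ 1}
        * volume {y : EuclideanSpace ℝ (Fin d) | p y ≤ 1})) :
    ENNReal.ofReal (1 / 2) * volume {y : EuclideanSpace ℝ (Fin d) | p y ≤ 1}
      ≤ volume {z : EuclideanSpace ℝ (Fin d) | p z ≤ 1 ∧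
        ∃ φ, IsThinS p ((4 : ℝ) ^ (1 - 1 / (32 * ρ))) φ ∧ φ z = p z} := by
  set K : Set (EuclideanSpace ℝ (Fin d)) := {y | p y ≤ 1} with hK
  set V := volume K with hV
  set G : Set (EuclideanSpace ℝ (Fin d)) := {z | p z ≤ 1 ∧
        ∃ φ, IsThinS p ((4 : ℝ) ^ (1 - 1 / (32 * ρ))) φ ∧ φ z = p z} with hG
  have hKm : MeasurableSet K := (isClosed_le hcont continuous_const).measurableSet
  have hinnm : Measurable (inn p) := by
    have h := (measurable_joint p).abs.ennreal_ofReal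
    exact h.lintegral_prod_right'
  set ε : ℝ≥0∞ := ENNReal.ofReal (2 * ρ) * V with hε
  have hmark := mul_meas_ge_le_lintegral₀ (μ := volume.restrict K) hinnm.aemeasurable ε
  have hbm : MeasurableSet {x | ε ≤ inn p x} := measurableSet_le measurable_const hinnm
  rw [Measure.restrict_apply hbm] at hmark
  have hcov : V ≤ volume G + volume ({x | ε ≤ inn p x} ∩ K) := by
    have hN : volume {z : EuclideanSpace ℝ (Fin d) | ¬ DifferentiableAt ℝ p z} = 0 :=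
      ae_diff p hcont
    calc V ≤ volume ((G ∪ ({x | ε ≤ inn p x} ∩ K)) ∪ {z | ¬ DifferentiableAt ℝ p z}) := by
          refine measure_mono ?_
          intro z hz
          by_cases hzd : DifferentiableAt ℝ p z
          · left
            by_cases hze : ε ≤ inn p z
            · exact Or.inr ⟨hze, hz⟩
            · left
              refine ⟨hz, fderiv ℝ p z, ?_, euler p z hzd⟩
              have h1 := thin_of_mean p hcont hfin (fderiv ℝ p z) (fun y => fderiv_abs_le p z y)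
                (2 * ρ) (by positivity) (not_le.mp hze).le
              have e : 16 * (2 * ρ) = 32 * ρ := by ring
              rwa [e] at h1
          · right
            exact hzd
      _ ≤ volume (G ∪ ({x | ε ≤ inn p x} ∩ K)) + volume {z | ¬ DifferentiableAt ℝ p z} :=
          measure_union_le _ _
      _ = volume (G ∪ ({x | ε ≤ inn p x} ∩ K)) := by rw [hN, add_zero]
      _ ≤ _ := measure_union_le _ _
  have hGfin : volume G ≠ ⊤ := ne_top_of_le_ne_top hfin (measure_mono fun z hz => hz.1)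
  have hBfin : volume ({x | ε ≤ inn p x} ∩ K) ≠ ⊤ :=
    ne_top_of_le_ne_top hfin (measure_mono fun z hz => hz.2)
  have hVr : 0 < V.toReal := ENNReal.toReal_pos h0 hfin
  have h1 := ENNReal.toReal_mono (ENNReal.add_ne_top.mpr ⟨hGfin, hBfin⟩) hcov
  rw [ENNReal.toReal_add hGfin hBfin] at h1
  have h2 := ENNReal.toReal_mono (ENNReal.mul_ne_top ENNReal.ofReal_ne_top
    (ENNReal.mul_ne_top hfin hfin)) (hmark.trans hF)
  rw [hε, ENNReal.toReal_mul, ENNReal.toReal_mul, ENNReal.toReal_mul, ENNReal.toReal_mul,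
    ENNReal.toReal_ofReal (by positivity), ENNReal.toReal_ofReal hρ0.le] at h2
  have h3 : (volume ({x | ε ≤ inn p x} ∩ K)).toReal ≤ V.toReal / 2 := by
    have h4 : 0 < 2 * ρ * V.toReal := by positivity
    have h5 : 2 * ρ * V.toReal * (volume ({x | ε ≤ inn p x} ∩ K)).toReal
        ≤ 2 * ρ * V.toReal * (V.toReal / 2) := by
      refine h2.trans (le_of_eq ?_)
      ring
    exact le_of_mul_le_mul_left h5 h4
  rw [← ENNReal.toReal_le_toReal (ENNReal.mul_ne_top ENNReal.ofReal_ne_top hfin) hGfin,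
    ENNReal.toReal_mul, ENNReal.toReal_ofReal (by norm_num)]
  linarith

end Pool.Agent.H815R2.Thin
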