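import Mathlib
import Pool.Agent.H815R2.HadCover

set_option autoImplicit false

/-!
Covering bound for the unit ball of a seminorm in which `n` vectors never span an almost isometric
copy of `ℓ₁ⁿ`.
-/

namespace Pool.Agent.H815R2.Had

open MeasureTheory
open scoped Pointwise

section Pop

variable {E : Type*} [NormedAddCommGroup E] [NormedSpace ℝ E] [FiniteDimensional ℝ E]
  [MeasurableSpace E] [BorelSpace E] (μ : Measure E) [μ.IsAddHaarMeasure]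

theorem popular {ι : Type*} [Fintype ι] [Nonempty ι] (p : Seminorm ℝ E)
    (hcont : Continuous p)
    (h0 : μ {y : E | p y ≤ 1} ≠ 0) (hfin : μ {y : E | p y ≤ 1} ≠ ⊤)
    (u : ι → E) (hu : ∀ i, p (u i) ≤ 1)
    (α β η κ₁ κ₂ ρ θ : ℝ) (hα : α = 1 - β) (hβ0 : 0 < β) (hβ1 : β ≤ 1) (hη : η = α - β)
    (hη0 : 0 ≤ η) (hθ0 : 0 < θ)
    (hκ : κ₁ = κ₂ + η) (hκ2 : 0 < κ₂) (hκ1 : κ₁ ≤ 1)
    (k : ℕ) (hk : 1 ≤ k)
    (hcond : κ₁ + κ₂ - κ₂ * α * β ^ (k - 1) * (k + 1 - ρ) ≤ 1)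
    (H : ∀ x : Fin (k + 1) → E, (∀ i, p (x i) ≤ 1) →
      ∃ s : Fin (k + 1) → ℝ, (∀ i, s i = 1 ∨ s i = -1) ∧ p (∑ i, s i • x i) ≤ ρ)
    (hθ : (2 * θ) ^ (k + 1) ≤ (κ₂ * β ^ k) ^ Module.finrank ℝ E) :
    ∃ y : E, θ * Fintype.card ι ≤
      (open Classical in ∑ i : ι, if p (u i - y) ≤ 1 - η then (1 : ℝ) else 0) := by
  classical
  by_contra hcon
  push Not at hcon
  have hm : (0 : ℝ) < Fintype.card ι := by exact_mod_cast Fintype.card_pos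
  set q : ℝ := (⌈θ * Fintype.card ι⌉₊ : ℝ) - 1 with hq
  have hpos : 0 < θ * Fintype.card ι := by positivity
  have hceil : 0 < ⌈θ * Fintype.card ι⌉₊ := Nat.ceil_pos.mpr hpos
  have hq0 : 0 ≤ q := by
    have : (1 : ℝ) ≤ ⌈θ * Fintype.card ι⌉₊ := by exact_mod_cast hceil
    rw [hq]; linarith
  have hqlt : q < θ * Fintype.card ι := by
    have := Nat.ceil_lt_add_one hpos.le
    rw [hq]; linarith
  have hcnt : ∀ y : E, (∑ i : ι, if p (u i - y) ≤ 1 - η then (1 : ℝ) else 0) ≤ q := by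
    intro y
    have h1 := hcon y
    rw [Finset.sum_boole] at h1 ⊢
    have h2 : (Finset.univ.filter (fun i => p (u i - y) ≤ 1 - η)).card
        < ⌈θ * Fintype.card ι⌉₊ := by
      rw [Nat.lt_ceil]
      exact h1
    have h3 : ((Finset.univ.filter (fun i => p (u i - y) ≤ 1 - η)).card : ℝ) + 1
        ≤ ⌈θ * Fintype.card ι⌉₊ := by
      exact_mod_cast h2
    rw [hq]; linarith
  have hkey := key_count μ p hcont h0 hfin u hu α β η q κ₁ κ₂ ρ hα hβ0 hβ1 hη hη0 hq0 hκ hκ2 hκ1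
    k hk hcond H hcnt
  have hlt : (2 * q) ^ (k + 1) < (2 * (θ * Fintype.card ι)) ^ (k + 1) := by
    apply pow_lt_pow_left₀ _ (by positivity) (by omega)
    linarith
  have hle : (2 * (θ * Fintype.card ι)) ^ (k + 1)
      ≤ (Fintype.card ι : ℝ) ^ (k + 1) * (κ₂ * β ^ k) ^ Module.finrank ℝ E := by
    have : (2 * (θ * Fintype.card ι)) ^ (k + 1)
        = (Fintype.card ι : ℝ) ^ (k + 1) * (2 * θ) ^ (k + 1) := by
      rw [← mul_pow]; ring_nf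
    rw [this]
    gcongr
  linarith

theorem cover_general (p : Seminorm ℝ E)
    (hcont : Continuous p)
    (h0 : μ {y : E | p y ≤ 1} ≠ 0) (hfin : μ {y : E | p y ≤ 1} ≠ ⊤)
    (α β η κ₁ κ₂ ρ θ : ℝ) (hα : α = 1 - β) (hβ0 : 0 < β) (hβ1 : β ≤ 1) (hη : η = α - β)
    (hη0 : 0 < η) (hθ0 : 0 < θ) (hθ1 : θ ≤ 1)
    (hκ : κ₁ = κ₂ + η) (hκ2 : 0 < κ₂) (hκ1 : κ₁ ≤ 1)
    (k : ℕ) (hk : 1 ≤ k)
    (hcond : κ₁ + κ₂ - κ₂ * α * β ^ (k - 1) * (k + 1 - ρ) ≤ 1)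
    (H : ∀ x : Fin (k + 1) → E, (∀ i, p (x i) ≤ 1) →
      ∃ s : Fin (k + 1) → ℝ, (∀ i, s i = 1 ∨ s i = -1) ∧ p (∑ i, s i • x i) ≤ ρ)
    (hθ : (2 * θ) ^ (k + 1) ≤ (κ₂ * β ^ k) ^ Module.finrank ℝ E) :
    ∃ Y : Finset E, (Y.card : ℝ) ≤ Real.log ((1 + 4 / η) ^ Module.finrank ℝ E) / θ + 1 ∧
      ∀ x, p x ≤ 1 → ∃ y ∈ Y, p (x - y) < 1 := by
  classical
  obtain ⟨S, hS1, hS2, hS3⟩ := exists_net μ p hcont h0 hfin (η / 2) (by positivity)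
  have hM : (1 + 2 / (η / 2)) = 1 + 4 / η := by
    field_simp
    norm_num
  rw [hM] at hS3
  obtain ⟨Y, hY1, hY2⟩ := greedy_cover (S := S) (E := E) (fun y s => p ((s : E) - y) ≤ 1 - η) θ
    hθ0 hθ1 (by
      intro A hA
      haveI : Nonempty A := hA.to_subtype
      obtain ⟨y, hy⟩ := popular (ι := A) μ p hcont h0 hfin (fun a => ((a : S) : E))
        (fun a => hS1 _ (a : S).2) α β η κ₁ κ₂ ρ θ hα hβ0 hβ1 hη hη0.le hθ0 hκ hκ2 hκ1 k hk hcond H hθ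
      refine ⟨y, ?_⟩
      rw [Fintype.card_coe] at hy
      refine hy.trans (le_of_eq ?_)
      rw [Finset.card_filter]
      push_cast
      rw [← Finset.sum_coe_sort A])
    ((1 + 4 / η) ^ Module.finrank ℝ E) (by rw [Fintype.card_coe]; exact hS3)
    (one_le_pow₀ (by
      have : 0 < 4 / η := by positivity
      linarith))
  refine ⟨Y, hY1, ?_⟩
  intro x hx
  obtain ⟨s, hs, hxs⟩ := hS2 x hx
  obtain ⟨y, hy, hsy⟩ := hY2 ⟨s, hs⟩
  refine ⟨y, hy, ?_⟩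
  calc p (x - y) = p ((x - s) + (s - y)) := by congr 1; abel
    _ ≤ p (x - s) + p (s - y) := map_add_le_add _ _ _
    _ ≤ η / 2 + (1 - η) := add_le_add hxs hsy
    _ < 1 := by linarith

end Pop

end Pool.Agent.H815R2.Had
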