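import Mathlib
import Pool.Agent.H815R2.HadMain

set_option autoImplicit false

/-!
Numerical part.
-/

namespace Pool.Agent.H815R2.Had

open MeasureTheory
open scoped Pointwise

theorem one_sub_inv_pow (d : ℕ) (hd : 2 ≤ d) : (1 / 8 : ℝ) ≤ (1 - 1 / (d : ℝ)) ^ d := by
  have hd' : (2 : ℝ) ≤ d := by exact_mod_cast hd
  have hx : (0 : ℝ) < 1 - 1 / (d : ℝ) := by
    have : 1 / (d : ℝ) ≤ 1 / 2 := by
      apply one_div_le_one_div_of_le <;> linarith
    linarith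
  have h1 : Real.exp (-(1 / ((d : ℝ) - 1))) ≤ 1 - 1 / (d : ℝ) := by
    have h2 : 1 + 1 / ((d : ℝ) - 1) ≤ Real.exp (1 / ((d : ℝ) - 1)) := by
      have := Real.add_one_le_exp (1 / ((d : ℝ) - 1))
      linarith
    rw [Real.exp_neg]
    have h3 : (1 - 1 / (d : ℝ)) = (1 + 1 / ((d : ℝ) - 1))⁻¹ := by
      have hd1 : (d : ℝ) - 1 ≠ 0 := by linarith
      have hdne : (d : ℝ) ≠ 0 := by linarith
      have e : 1 + 1 / ((d : ℝ) - 1) = d / (d - 1) := by
        field_simp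
        ring
      rw [e, inv_div, sub_div, div_self hdne]
    rw [h3]
    apply inv_anti₀ _ h2
    have : 0 < 1 / ((d : ℝ) - 1) := by
      apply div_pos one_pos; linarith
    linarith
  have h4 : Real.exp (-2) ≤ (1 - 1 / (d : ℝ)) ^ d := by
    calc Real.exp (-2) ≤ Real.exp (d * (-(1 / ((d : ℝ) - 1)))) := by
          apply Real.exp_le_exp.mpr
          have : 0 < (d : ℝ) - 1 := by linarith
          rw [mul_neg, neg_le_neg_iff, mul_one_div, div_le_iff₀ this]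
          linarith
      _ = (Real.exp (-(1 / ((d : ℝ) - 1)))) ^ d := by rw [← Real.exp_nat_mul]
      _ ≤ _ := by gcongr
  refine le_trans ?_ h4
  rw [Real.exp_neg]
  have h5 : Real.exp 2 ≤ 8 := by
    have h6 : Real.exp 2 = Real.exp 1 * Real.exp 1 := by
      rw [← Real.exp_add]; norm_num
    have h7 := Real.exp_one_lt_d9
    have h8 := Real.exp_pos 1
    rw [h6]
    nlinarith
  rw [one_div]
  exact inv_anti₀ (Real.exp_pos 2) h5

theorem aux_quarter (X : ℝ) (hX : X ≠ 0) : 1 / (X * 4) = (1 / 2 : ℝ) * ((1 / 2) / X) := by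
  field_simp
  norm_num

section Fin

variable {E : Type*} [NormedAddCommGroup E] [NormedSpace ℝ E] [FiniteDimensional ℝ E]
  [MeasurableSpace E] [BorelSpace E] (μ : Measure E) [μ.IsAddHaarMeasure]

theorem cover_explicit (p : Seminorm ℝ E)
    (hcont : Continuous p)
    (h0 : μ {y : E | p y ≤ 1} ≠ 0) (hfin : μ {y : E | p y ≤ 1} ≠ ⊤)
    (d : ℕ) (hd : 2 ≤ d) (hdim : Module.finrank ℝ E = d)
    (n : ℕ) (hn : 2 ≤ n) (hnd : 2 * n ≤ d + 4) (ρ : ℝ) (hρ1 : 1 ≤ ρ) (hρn : ρ ≤ n)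
    (H : ∀ x : Fin n → E, (∀ i, p (x i) ≤ 1) →
      ∃ s : Fin n → ℝ, (∀ i, s i = 1 ∨ s i = -1) ∧ p (∑ i, s i • x i) ≤ ρ) :
    ∃ Y : Finset E, (Y.card : ℝ) ≤ 1 + 16 * d * Real.log (4 * d + 1) * 2 ^ d
        * Real.exp (-((n - ρ) * d / (n * 2 ^ (n + 1)))) ∧
      ∀ x, p x ≤ 1 → ∃ y ∈ Y, p (x - y) < 1 := by
  obtain ⟨k, rfl⟩ : ∃ k, n = k + 1 := ⟨n - 1, by omega⟩
  have hk : 1 ≤ k := by omega
  have hd' : (2 : ℝ) ≤ d := by exact_mod_cast hd
  have hd0 : (0 : ℝ) < d := by linarith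
  have hk' : (1 : ℝ) ≤ k := by exact_mod_cast hk
  set η : ℝ := 1 / (d : ℝ) with hη
  have hη0 : 0 < η := by positivity
  have hη1 : η ≤ 1 / 2 := by
    rw [hη]; apply one_div_le_one_div_of_le <;> linarith
  set β : ℝ := (1 - η) / 2 with hβ
  set α : ℝ := (1 + η) / 2 with hα
  have hβ0 : 0 < β := by rw [hβ]; linarith
  have hβ2 : β ≤ 1 / 2 := by rw [hβ]; linarith
  have hα0 : 0 < α := by rw [hα]; linarith
  set c : ℝ := α * β ^ (k - 1) with hc
  have hc0 : 0 < c := by positivity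
  set δ : ℝ := ((k + 1 : ℕ) : ℝ) - ρ with hδ
  have hδ0 : 0 ≤ δ := by rw [hδ]; linarith
  have hδk : δ ≤ k := by rw [hδ]; push_cast; linarith
  -- c * k ≤ 3/4
  have hck : c * k ≤ 3 / 4 := by
    have h1 : c ≤ (3 / 4) * (1 / 2) ^ (k - 1) := by
      rw [hc]
      have : α ≤ 3 / 4 := by rw [hα]; linarith
      gcongr
    have h2 : (k : ℝ) * (1 / 2) ^ (k - 1) ≤ 1 := by
      obtain ⟨j, rfl⟩ : ∃ j, k = j + 1 := ⟨k - 1, by omega⟩
      have h3 : j + 1 ≤ 2 ^ j := Nat.lt_two_pow_self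
      have h4 : ((j : ℝ) + 1) ≤ 2 ^ j := by exact_mod_cast h3
      simp only [Nat.add_sub_cancel]
      rw [one_div, inv_pow, ← div_eq_mul_inv, div_le_one (by positivity)]
      push_cast
      exact h4
    calc c * k ≤ (3 / 4) * (1 / 2) ^ (k - 1) * k := by gcongr
      _ = (3 / 4) * (k * (1 / 2) ^ (k - 1)) := by ring
      _ ≤ (3 / 4) * 1 := by gcongr
      _ = 3 / 4 := by norm_num
  have hcδ : c * δ ≤ 3 / 4 := (by gcongr : c * δ ≤ c * k).trans hck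
  have hcδ0 : 0 ≤ c * δ := by positivity
  set κ₂ : ℝ := (1 - η) / (2 - c * δ) with hκ2
  have hden : 0 < 2 - c * δ := by linarith
  have hκ20 : 0 < κ₂ := by rw [hκ2]; apply div_pos <;> linarith
  have hκ21 : κ₂ ≤ 1 - η := by
    rw [hκ2, div_le_iff₀ hden]
    nlinarith
  set θ : ℝ := 1 / 2 * (β ^ d * Real.exp (c * δ * d / (2 * (k + 1)))) with hθ
  have hθ0 : 0 < θ := by positivity
  have hκβ : κ₂ * β ^ k = β ^ (k + 1) / (1 - c * δ / 2) := by
    have : 1 - c * δ / 2 ≠ 0 := by linarith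
    have : 2 - c * δ ≠ 0 := by linarith
    rw [hκ2, pow_succ]
    have hb : 1 - η = 2 * β := by rw [hβ]; ring
    rw [hb]
    field_simp
  have hθpow : (2 * θ) ^ (k + 1) ≤ (κ₂ * β ^ k) ^ d := by
    have e1 : (2 * θ) ^ (k + 1) = (β ^ (k + 1) * Real.exp (c * δ / 2)) ^ d := by
      rw [hθ]
      have : 2 * (1 / 2 * (β ^ d * Real.exp (c * δ * d / (2 * (k + 1)))))
          = β ^ d * Real.exp (c * δ * d / (2 * (k + 1))) := by ring
      rw [this, mul_pow, mul_pow, ← pow_mul, ← pow_mul, ← Real.exp_nat_mul, ← Real.exp_nat_mul]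
      congr 1
      · ring_nf
      · congr 1
        push_cast
        field_simp
    rw [e1, hκβ]
    have : Real.exp (c * δ / 2) ≤ (1 - c * δ / 2)⁻¹ := by
      have h1 : 1 - c * δ / 2 ≤ Real.exp (-(c * δ / 2)) := by
        have := Real.add_one_le_exp (-(c * δ / 2))
        linarith
      rw [← inv_inv (Real.exp (c * δ / 2)), ← Real.exp_neg]
      exact inv_anti₀ (by linarith) h1
    have e2 : β ^ (k + 1) / (1 - c * δ / 2) = β ^ (k + 1) * (1 - c * δ / 2)⁻¹ :=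
      div_eq_mul_inv _ _
    rw [e2]
    gcongr
  have hθ1 : θ ≤ 1 := by
    have h1 : κ₂ * β ^ k ≤ 1 := by
      have : κ₂ ≤ 1 := by linarith
      have : β ^ k ≤ 1 := pow_le_one₀ hβ0.le (by linarith)
      calc κ₂ * β ^ k ≤ 1 * 1 := by gcongr
        _ = 1 := one_mul 1
    have h2 : (2 * θ) ^ (k + 1) ≤ 1 := hθpow.trans (pow_le_one₀ (by positivity) h1)
    have h3 : 2 * θ ≤ 1 := by
      by_contra hcon
      push Not at hcon
      have : 1 < (2 * θ) ^ (k + 1) := one_lt_pow₀ hcon (by omega)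
      linarith
    linarith
  obtain ⟨Y, hY1, hY2⟩ := cover_general μ p hcont h0 hfin α β η (κ₂ + η) κ₂ ρ θ
    (by rw [hα, hβ]; ring) hβ0 (by linarith) (by rw [hα, hβ]; ring) hη0 hθ0 hθ1 rfl hκ20
    (by linarith) k hk
    (by
      have h1 : κ₂ * α * β ^ (k - 1) * ((k : ℝ) + 1 - ρ) = κ₂ * (c * δ) := by
        rw [hc, hδ]; push_cast; ring
      rw [h1]
      have h2 : κ₂ * (2 - c * δ) = 1 - η := by
        rw [hκ2]; field_simp
      nlinarith)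
    H (by rw [hdim]; exact hθpow)
  refine ⟨Y, ?_, hY2⟩
  rw [hdim] at hY1
  have hlog : Real.log ((1 + 4 / η) ^ d) = d * Real.log (4 * d + 1) := by
    rw [Real.log_pow]
    congr 2
    rw [hη]
    field_simp
    ring
  rw [hlog] at hY1
  refine hY1.trans ?_
  have hbern : 1 - ((k : ℝ) - 1) / d ≤ (1 - η) ^ (k - 1) := by
    have := one_add_mul_le_pow (show (-2 : ℝ) ≤ -η by linarith) (k - 1)
    have h2 : ((k - 1 : ℕ) : ℝ) = (k : ℝ) - 1 := by
      rw [Nat.cast_sub hk]; push_cast; ring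
    rw [h2] at this
    calc 1 - ((k : ℝ) - 1) / d = 1 + ((k : ℝ) - 1) * -η := by rw [hη]; ring
      _ ≤ (1 + -η) ^ (k - 1) := this
      _ = (1 - η) ^ (k - 1) := by ring_nf
  have hcl : 1 / 2 ^ (k + 1) ≤ c := by
    have h1 : (1 / 2 : ℝ) ≤ (1 - η) ^ (k - 1) := by
      refine le_trans ?_ hbern
      have h2 : 2 * ((k : ℝ) + 1) ≤ d + 4 := by exact_mod_cast hnd
      have h3 : ((k : ℝ) - 1) / d ≤ 1 / 2 := by
        rw [div_le_iff₀ hd0]; linarith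
      linarith
    have h2 : c = α * ((1 - η) ^ (k - 1) / 2 ^ (k - 1)) := by
      rw [hc, hβ, div_pow]
    rw [h2]
    have h3 : (2 : ℝ) ^ (k + 1) = 2 ^ (k - 1) * 4 := by
      obtain ⟨j, rfl⟩ : ∃ j, k = j + 1 := ⟨k - 1, by omega⟩
      simp only [Nat.add_sub_cancel]
      ring
    rw [h3]
    calc 1 / (2 ^ (k - 1) * 4) = (1 / 2 : ℝ) * ((1 / 2) / 2 ^ (k - 1)) :=
          aux_quarter _ (by positivity)
      _ ≤ α * ((1 - η) ^ (k - 1) / 2 ^ (k - 1)) := by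
          have : (1 / 2 : ℝ) ≤ α := by rw [hα]; linarith
          gcongr
  have hexp : Real.exp (-(c * δ * d / (2 * (k + 1))))
      ≤ Real.exp (-((((k + 1 : ℕ) : ℝ) - ρ) * d / (((k + 1 : ℕ) : ℝ) * 2 ^ (k + 1 + 1)))) := by
    apply Real.exp_le_exp.mpr
    apply neg_le_neg
    rw [← hδ]
    calc δ * d / (((k + 1 : ℕ) : ℝ) * 2 ^ (k + 1 + 1))
        = (1 / 2 ^ (k + 1)) * δ * d / (2 * (k + 1)) := by
          push_cast; field_simp; ring
      _ ≤ c * δ * d / (2 * (k + 1)) := by gcongr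
  have hβd : (β ^ d)⁻¹ ≤ 8 * 2 ^ d := by
    have h1 := one_sub_inv_pow d hd
    rw [← hη] at h1
    have h2 : β ^ d = (1 - η) ^ d / 2 ^ d := by rw [hβ, div_pow]
    rw [h2, inv_div, div_le_iff₀ (by linarith)]
    calc (2 : ℝ) ^ d = 8 * 2 ^ d * (1 / 8) := by ring
      _ ≤ 8 * 2 ^ d * (1 - η) ^ d := by gcongr
  have hinv : θ⁻¹ ≤ 16 * 2 ^ d * Real.exp (-((((k + 1 : ℕ) : ℝ) - ρ) * d
      / (((k + 1 : ℕ) : ℝ) * 2 ^ (k + 1 + 1)))) := by
    have e1 : θ⁻¹ = 2 * ((β ^ d)⁻¹ * Real.exp (-(c * δ * d / (2 * (k + 1))))) := by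
      rw [hθ, mul_inv, mul_inv, Real.exp_neg]
      norm_num
    rw [e1]
    calc 2 * ((β ^ d)⁻¹ * Real.exp (-(c * δ * d / (2 * (k + 1)))))
        ≤ 2 * ((8 * 2 ^ d) * Real.exp (-((((k + 1 : ℕ) : ℝ) - ρ) * d
      / (((k + 1 : ℕ) : ℝ) * 2 ^ (k + 1 + 1))))) := by gcongr
      _ = _ := by ring
  have hlog0 : 0 ≤ Real.log (4 * (d : ℝ) + 1) := Real.log_nonneg (by linarith)
  rw [div_eq_mul_inv]
  calc d * Real.log (4 * d + 1) * θ⁻¹ + 1
      ≤ d * Real.log (4 * d + 1) * (16 * 2 ^ d * Real.exp (-((((k + 1 : ℕ) : ℝ) - ρ) * d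
      / (((k + 1 : ℕ) : ℝ) * 2 ^ (k + 1 + 1))))) + 1 := by gcongr
    _ = _ := by ring

end Fin

end Pool.Agent.H815R2.Had
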